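import Mathlib
import Pool.Agent.H74.R45.Def

set_option autoImplicit false
open Finset

/-! # Windows whose rows are intervals with a flat right wall, lines in general position

Tile frame, as in `H74/R45/Def.lean`. A window `P` has the rows `0 ≤ y < h`, row `y` is `a y ≤ x < w`,
`a` is arbitrary (a rise and a drop of `a` are separated by at least 4 rows; `a` is constant near the bottom
and the top). The line of real tiles goes
from the corner SE `(w, 0)` to the corner NE `(w, h)`. Its position is given by a function `τ`,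
`a y ≤ τ y ≤ w`: the line crosses the row `y` in the tile `(τ y - 1, y)`, the tiles to the right of it do
not move (`P+`), the tiles to the left of it are shifted by `(-1, 0)` (`P-`). So the row `y` of the union is
`a y - 1 ≤ x < w`, all its tiles are random for every `τ`.

Between the rows `y - 1` and `y` the line is straight if `τ (y - 1) = τ y`. If `τ (y - 1) < τ y` then
`τ y = a y` and the line runs to the east in the row `y` outside of the union (ceiling of the row `y - 1`):
tiles `(x, y)`, `τ (y - 1) ≤ x < τ y - 1`, turn tile `(τ (y - 1) - 1, y)` in the state {W-N, S-E}. If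
`τ y < τ (y - 1)` then `τ (y - 1) = a (y - 1)` and the line runs to the west in the row `y - 1` outside of
the union (floor of the row `y`): tiles `(x, y - 1)`, `τ y ≤ x < τ (y - 1) - 1`, turn tile
`(τ y - 1, y - 1)` in the state {W-S, N-E}. Below the row `0` the line runs to the west in the row `-1`
(tiles `τ 0 ≤ x < w`, turn tile `(τ 0 - 1, -1)`), above the row `h - 1` to the east in the row `h` (tiles
`τ (h - 1) ≤ x < w`, turn tile `(τ (h - 1) - 1, h)`). The tiles `(τ y - 1, y)` at the inner end of a run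
(reflex corners) stand for two tiles of the line.

Colours (`true`: wired, open): `cl y` to the left of the row `y`, `cr y` to the right, `cb` below the row
`0`, `ct` above the row `h - 1`. `cl` changes only where `a` changes, not in the row next to a run of the
line. At a reflex corner the colour is fixed by the parity (`pdn`, `pup`). There is no condition on `cr`
(`FlatR` : constant). -/

namespace Pool.Agent.H54.W

open Pool.Agent.H75.Perc Pool.Agent.H75.TwoArm Pool.Agent.Q1 Pool.Agent.H33.Q1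
open Pool.Agent.H75.Four Pool.Agent.H69.Q1
open Pool.Agent.H74.R45 (exists_lt)

/-- **Windows** with the colours of their sides. -/
structure Win where
  h : ℤ
  w : ℤ
  /-- a lower bound of `a`, left side of the box -/
  lo : ℤ
  a : ℤ → ℤ
  cl : ℤ → Bool
  cr : ℤ → Bool
  cb : Bool
  ct : Bool
  hh : 2 ≤ h
  hlo : ∀ y, 0 ≤ y → y < h → lo ≤ a y
  aw : ∀ y, 0 ≤ y → y < h → a y + 2 ≤ w
  /-- `a` does not change near the bottom and the top -/
  fe : ∀ y, 0 < y → y < h → a (y - 1) ≠ a y → 4 ≤ y ∧ y + 4 ≤ h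
  /-- after a rise there is no drop in the next three rows -/
  ud : ∀ y z, 0 < y → y < z → z < h → a (y - 1) < a y → a z < a (z - 1) → y + 4 ≤ z
  /-- after a drop there is no rise in the next three rows -/
  du : ∀ y z, 0 < y → y < z → z < h → a y < a (y - 1) → a (z - 1) < a z → y + 4 ≤ z
  /-- no change of the colour on a vertical wall -/
  scl : ∀ y, 0 ≤ y → y + 1 < h → a y = a (y + 1) → cl y = cl (y + 1)
  /-- the row above a rise has its colour -/
  cup : ∀ y, 0 ≤ y → y + 2 < h → a y < a (y + 1) → cl (y + 1) = cl (y + 2)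
  /-- the row below a drop has its colour -/
  cdn : ∀ y, 0 < y → y + 1 < h → a (y + 1) < a y → cl (y - 1) = cl y
  pup : ∀ y, 0 ≤ y → y + 1 < h → a y < a (y + 1) →
    ((a (y + 1) + y) % 2 = 1 ↔ cl (y + 1) = true)
  pdn : ∀ y, 0 ≤ y → y + 1 < h → a (y + 1) < a y → ((a y + y) % 2 = 1 ↔ cl y = true)

/-- the right wall has one colour -/
def Win.FlatR (D : Win) : Prop := ∀ y, D.cr y = D.cr 0

/-- **Positions of the line.** -/
structure Pos (D : Win) (τ : ℤ → ℤ) : Prop where
  lo : ∀ y, 0 ≤ y → y < D.h → D.a y ≤ τ y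
  hi : ∀ y, 0 ≤ y → y < D.h → τ y ≤ D.w
  up : ∀ y, 0 ≤ y → y + 1 < D.h → τ y < τ (y + 1) → τ (y + 1) = D.a (y + 1)
  dn : ∀ y, 0 ≤ y → y + 1 < D.h → τ (y + 1) < τ y → τ y = D.a y

namespace Win

variable (D : Win) (τ : ℤ → ℤ)

/-! ### Tiles -/

/-- the union of `P` and `P - (1,0)` -/
def InU (x y : ℤ) : Prop := 0 ≤ y ∧ y < D.h ∧ D.a y - 1 ≤ x ∧ x < D.w

/-- tile of the line in the union -/
def Ln (x y : ℤ) : Prop := 0 ≤ y ∧ y < D.h ∧ x = τ y - 1

/-- run of the line to the east above the ceiling of the row `y - 1` -/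
def RE (x y : ℤ) : Prop := 0 < y ∧ y < D.h ∧ τ (y - 1) ≤ x ∧ x < τ y - 1

/-- run of the line to the west below the floor of the row `y + 1` -/
def RW (x y : ℤ) : Prop := 0 ≤ y ∧ y + 1 < D.h ∧ τ (y + 1) ≤ x ∧ x < τ y - 1

/-- run of the line to the west below the window -/
def RB (x y : ℤ) : Prop := y = -1 ∧ τ 0 ≤ x ∧ x < D.w

/-- run of the line to the east above the window -/
def RT (x y : ℤ) : Prop := y = D.h ∧ τ (D.h - 1) ≤ x ∧ x < D.w

/-- turn tile in the state {W-N, S-E} -/
def TA (x y : ℤ) : Prop := (0 < y ∧ y < D.h ∧ τ (y - 1) < τ y ∧ x = τ (y - 1) - 1) ∨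
  (y = D.h ∧ x = τ (D.h - 1) - 1)

/-- turn tile in the state {W-S, N-E} -/
def TB (x y : ℤ) : Prop := (0 ≤ y ∧ y + 1 < D.h ∧ τ (y + 1) < τ y ∧ x = τ (y + 1) - 1) ∨
  (y = -1 ∧ x = τ 0 - 1)

/-- tiles which are random when the line is at the position `τ` -/
def InE (x y : ℤ) : Prop :=
  D.InU x y ∨ D.RE τ x y ∨ D.RW τ x y ∨ D.RB τ x y ∨ D.RT τ x y

/-- colours of the outside -/
def fill (x y : ℤ) : Bool :=
  if y < 0 then D.cb else if D.h ≤ y then D.ct else if x < D.a y then D.cl y else D.cr y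

/-- the box around the window -/
def InZ (x y : ℤ) : Prop := D.lo ≤ x + 2 ∧ x ≤ D.w ∧ -2 ≤ y ∧ y ≤ D.h + 1

/-- open tiles in the box when the line is at the position `τ` -/
def InO (x y : ℤ) : Prop := D.InZ x y ∧ ¬ D.InE τ x y ∧
  ((D.TA τ x y ∧ (x + y) % 2 = 0) ∨ (D.TB τ x y ∧ (x + y) % 2 = 1) ∨
    (¬ D.TA τ x y ∧ ¬ D.TB τ x y ∧ D.fill x y = true))

open Classical in
/-- labels of the tiles in the box with the property `p` -/
noncomputable def TS (p : ℤ → ℤ → Prop) : Finset (ℤ × ℤ) :=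
  ((Icc (D.lo - 2) D.w ×ˢ Icc (-2) (D.h + 1)).filter fun t => p t.1 t.2).image lt

lemma mem_TS {p : ℤ → ℤ → Prop} {x y : ℤ} : lt (x, y) ∈ D.TS p ↔ D.InZ x y ∧ p x y := by
  classical
  unfold TS InZ
  simp only [mem_image, mem_filter, mem_product, mem_Icc, Prod.exists]
  constructor
  · rintro ⟨x', y', ⟨⟨⟨h1, h2⟩, h3, h4⟩, h5⟩, h6⟩
    have := lt_inj h6
    simp only [Prod.mk.injEq] at this
    obtain ⟨rfl, rfl⟩ := this
    exact ⟨⟨by omega, by omega, h3, h4⟩, h5⟩
  · rintro ⟨⟨h1, h2, h3, h4⟩, h5⟩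
    exact ⟨x, y, ⟨⟨⟨by omega, by omega⟩, h3, h4⟩, h5⟩, rfl⟩

lemma odd_TS {p : ℤ → ℤ → Prop} {e : ℤ × ℤ} (he : e ∈ D.TS p) : (e.1 + e.2) % 2 = 1 := by
  classical
  unfold TS at he
  simp only [mem_image] at he
  obtain ⟨t, -, rfl⟩ := he
  exact lt_odd t

/-- random labels -/
noncomputable def EJ : Finset (ℤ × ℤ) := D.TS (D.InE τ)

/-- open labels near the window -/
noncomputable def WR : Finset (ℤ × ℤ) := D.TS (D.InO τ)

/-- open labels -/
noncomputable def WJ (Wo : Finset (ℤ × ℤ)) : Finset (ℤ × ℤ) := D.WR τ ∪ Wo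

/-- the labels of the box -/
noncomputable def GA : Finset (ℤ × ℤ) := D.TS D.InZ

/-- open weight of a tile, if the state {W-N, S-E} has weight `w` -/
noncomputable def wal (x y : ℤ) (w : ℂ) : ℂ := if (x + y) % 2 = 0 then w else 1 - w

/-- weight of the state {W-N, S-E}. `a` : weight of {W-N, S-E} when the line goes to the north, `b` :
weight of {W-S, N-E} when it goes to the west, `c` : weight of {W-S, N-E} when it goes to the east. -/
noncomputable def wA (a b c : ℂ) (x y : ℤ) : ℂ :=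
  if y < 0 then 1 - b
  else if D.h ≤ y then 1 - c
  else if x = τ y - 1 then
    (if 0 < y ∧ τ (y - 1) < τ y then (1 - c) * a
    else if y + 1 < D.h ∧ τ (y + 1) < τ y then 1 - (1 - a) * b
    else a)
  else if x < D.a y - 1 then (if 0 < y ∧ τ (y - 1) < τ y then 1 - c else 1 - b)
  else 1 / 2

/-- open weights -/
noncomputable def qJ (a b c : ℂ) (e : ℤ × ℤ) : ℂ :=
  wal (tt e).1 (tt e).2 (D.wA τ a b c (tt e).1 (tt e).2)

/-! ### Membership -/

variable {D τ} {x y : ℤ}

lemma RE.pos (H : Pos D τ) (h : D.RE τ x y) : τ y = D.a y ∧ D.a (y - 1) < D.a y := by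
  obtain ⟨h1, h2, h3, h4⟩ := h
  have k := H.up (y - 1) (by omega) (by omega) (by rw [sub_add_cancel]; omega)
  rw [sub_add_cancel] at k
  have k2 := H.lo (y - 1) (by omega) (by omega)
  omega

lemma RW.pos (H : Pos D τ) (h : D.RW τ x y) : τ y = D.a y ∧ D.a (y + 1) < D.a y := by
  obtain ⟨h1, h2, h3, h4⟩ := h
  have k := H.dn y (by omega) (by omega) (by omega)
  have k2 := H.lo (y + 1) (by omega) (by omega)
  omega

/-- the runs are outside of the union -/
lemma run_out (H : Pos D τ) (h : D.RE τ x y ∨ D.RW τ x y ∨ D.RB τ x y ∨ D.RT τ x y) :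
    ¬ D.InU x y := by
  unfold InU
  rcases h with h | h | h | h
  · have k := h.pos H
    have := h.2.2.2
    omega
  · have k := h.pos H
    have := h.2.2.2
    omega
  · have := h.1
    omega
  · have := h.1
    omega

lemma InE.z (H : Pos D τ) (h : D.InE τ x y) : D.lo ≤ x + 1 ∧ x < D.w ∧ -1 ≤ y ∧ y ≤ D.h := by
  have hh := D.hh
  rcases h with h | h | h | h | h
  · obtain ⟨h1, h2, h3, h4⟩ := h
    have := D.hlo y h1 h2
    omega
  · obtain ⟨h1, h2, h3, h4⟩ := h
    have k1 := H.lo (y - 1) (by omega) (by omega)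
    have k2 := D.hlo (y - 1) (by omega) (by omega)
    have k3 := H.hi y (by omega) h2
    omega
  · obtain ⟨h1, h2, h3, h4⟩ := h
    have k1 := H.lo (y + 1) (by omega) (by omega)
    have k2 := D.hlo (y + 1) (by omega) (by omega)
    have k3 := H.hi y h1 (by omega)
    omega
  · obtain ⟨h1, h2, h3⟩ := h
    have k1 := H.lo 0 (by omega) (by omega)
    have k2 := D.hlo 0 (by omega) (by omega)
    omega
  · obtain ⟨h1, h2, h3⟩ := h
    have k1 := H.lo (D.h - 1) (by omega) (by omega)
    have k2 := D.hlo (D.h - 1) (by omega) (by omega)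
    omega

lemma InE.inZ (H : Pos D τ) (h : D.InE τ x y) : D.InZ x y := by
  have := h.z H
  unfold InZ
  omega

lemma TA.z (H : Pos D τ) (h : D.TA τ x y) : D.lo ≤ x + 1 ∧ x < D.w ∧ 0 < y ∧ y ≤ D.h := by
  have hh := D.hh
  rcases h with ⟨h1, h2, h3, h4⟩ | ⟨h1, h2⟩
  · have k1 := H.lo (y - 1) (by omega) (by omega)
    have k2 := D.hlo (y - 1) (by omega) (by omega)
    have k3 := H.hi (y - 1) (by omega) (by omega)
    omega
  · have k1 := H.lo (D.h - 1) (by omega) (by omega)
    have k2 := D.hlo (D.h - 1) (by omega) (by omega)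
    have k3 := H.hi (D.h - 1) (by omega) (by omega)
    omega

lemma TB.z (H : Pos D τ) (h : D.TB τ x y) : D.lo ≤ x + 1 ∧ x < D.w ∧ -1 ≤ y ∧ y < D.h := by
  have hh := D.hh
  rcases h with ⟨h1, h2, h3, h4⟩ | ⟨h1, h2⟩
  · have k1 := H.lo (y + 1) (by omega) (by omega)
    have k2 := D.hlo (y + 1) (by omega) (by omega)
    have k3 := H.hi (y + 1) (by omega) (by omega)
    omega
  · have k1 := H.lo 0 (by omega) (by omega)
    have k2 := D.hlo 0 (by omega) (by omega)
    have k3 := H.hi 0 (by omega) (by omega)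
    omega

/-- a row is not next to a rise below it and a drop above it -/
lemma no_ud (h1 : 0 < y) (h2 : y + 1 < D.h) (h3 : D.a (y - 1) < D.a y) : ¬ D.a (y + 1) < D.a y := by
  intro h4
  have := D.ud y (y + 1) h1 (by omega) h2 h3 (by rwa [add_sub_cancel_right])
  omega

/-- at most one run touches a row -/
lemma up_dn (H : Pos D τ) (h1 : 0 < y) (h2 : y + 1 < D.h) (h3 : τ (y - 1) < τ y) :
    ¬ τ (y + 1) < τ y := by
  intro h4
  have k1 := H.up (y - 1) (by omega) (by omega) (by rwa [sub_add_cancel])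
  rw [sub_add_cancel] at k1
  have k2 := H.lo (y - 1) (by omega) (by omega)
  have k3 := H.lo (y + 1) (by omega) (by omega)
  exact no_ud h1 h2 (by omega) (by omega)

/-- the turn tiles are not random -/
lemma TA.not_InE (H : Pos D τ) (h : D.TA τ x y) : ¬ D.InE τ x y := by
  have hh := D.hh
  rcases h with ⟨h1, h2, h3, h4⟩ | ⟨h1, h2⟩
  · have k := H.up (y - 1) (by omega) (by omega) (by rwa [sub_add_cancel])
    rw [sub_add_cancel] at k
    rintro (h | h | h | h | h)
    · have := h.2.2.1; omega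
    · have := h.2.2.1; omega
    · exact up_dn H h1 h.2.1 h3 (by have := h.2.2; omega)
    · have := h.1; omega
    · have := h.1; omega
  · rintro (h | h | h | h | h)
    · have := h.2.1; omega
    · have := h.2.1; omega
    · have := h.2.1; omega
    · have := h.1; omega
    · have := h.2.1; omega

lemma TB.not_InE (H : Pos D τ) (h : D.TB τ x y) : ¬ D.InE τ x y := by
  have hh := D.hh
  rcases h with ⟨h1, h2, h3, h4⟩ | ⟨h1, h2⟩
  · have k := H.dn y h1 h2 h3
    rintro (h | h | h | h | h)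
    · have := h.2.2.1; omega
    · exact up_dn H h.1 h2 (by have := h.2.2; omega) h3
    · have := h.2.2.1; omega
    · have := h.1; omega
    · have := h.1; omega
  · rintro (h | h | h | h | h)
    · have := h.1; omega
    · have := h.1; omega
    · have := h.1; omega
    · have := h.2.1; omega
    · have := h.1; omega

lemma TA.not_TB (H : Pos D τ) (h : D.TA τ x y) : ¬ D.TB τ x y := by
  have hh := D.hh
  rcases h with ⟨h1, h2, h3, h4⟩ | ⟨h1, h2⟩
  · rintro (⟨g1, g2, g3, g4⟩ | ⟨g1, g2⟩)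
    · exact up_dn H h1 g2 h3 g3
    · omega
  · rintro (⟨g1, g2, g3, g4⟩ | ⟨g1, g2⟩) <;> omega

/-- random labels -/
lemma mem_EJ (H : Pos D τ) : lt (x, y) ∈ D.EJ τ ↔ D.InE τ x y := by
  unfold EJ
  rw [mem_TS]
  exact ⟨fun h => h.2, fun h => ⟨h.inZ H, h⟩⟩

/-- open labels near the window -/
lemma mem_WR : lt (x, y) ∈ D.WR τ ↔ D.InO τ x y := by
  unfold WR
  rw [mem_TS]
  exact ⟨fun h => h.2, fun h => ⟨h.1, h⟩⟩

lemma mem_GA : lt (x, y) ∈ D.GA ↔ D.InZ x y := by
  unfold GA
  rw [mem_TS]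
  exact ⟨fun h => h.2, fun h => ⟨h, h⟩⟩

lemma odd_EJ {e : ℤ × ℤ} (he : e ∈ D.EJ τ) : (e.1 + e.2) % 2 = 1 := D.odd_TS he

lemma odd_WR {e : ℤ × ℤ} (he : e ∈ D.WR τ) : (e.1 + e.2) % 2 = 1 := D.odd_TS he

lemma odd_GA {e : ℤ × ℤ} (he : e ∈ D.GA) : (e.1 + e.2) % 2 = 1 := D.odd_TS he

lemma disj_ER : Disjoint (D.EJ τ) (D.WR τ) := by
  rw [disjoint_left]
  intro e h1 h2
  obtain ⟨x, y, rfl⟩ := exists_lt (odd_EJ h1)
  unfold EJ at h1
  rw [mem_TS] at h1
  rw [mem_WR] at h2
  exact h2.2.1 h1.2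

lemma EJ_sub : D.EJ τ ⊆ D.GA := by
  intro e he
  obtain ⟨x, y, rfl⟩ := exists_lt (odd_EJ he)
  unfold EJ at he
  rw [mem_TS] at he
  rw [mem_GA]
  exact he.1

lemma WR_sub : D.WR τ ⊆ D.GA := by
  intro e he
  obtain ⟨x, y, rfl⟩ := exists_lt (odd_WR he)
  rw [mem_WR] at he
  rw [mem_GA]
  exact he.1

end Win

/-- **Data of the outside**: far open labels and the root corner. -/
structure Out (D : Win) where
  Wo : Finset (ℤ × ℤ)
  c0 : ℤ × ℤ
  k0 : ℤ
  g : ℤ × ℤ
  /-- the far labels avoid the box -/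
  far : ∀ x y, lt (x, y) ∈ Wo → ¬ D.InZ x y
  hk : k0 % 4 = ty c0
  hroot : plab c0 ∉ D.GA
  hg : DCo (D.GA ∪ Wo) (fi c0) g
  hlow : ∀ v, Co (D.GA ∪ Wo) (vx c0) v → g.2 < v.2

namespace Win

variable {D : Win} (O : Out D) (τ : ℤ → ℤ) {x y : ℤ}

lemma disj_EW (O : Out D) : Disjoint (D.EJ τ) (D.WJ τ O.Wo) := by
  unfold WJ
  rw [disjoint_union_right]
  refine ⟨disj_ER, ?_⟩
  rw [disjoint_left]
  intro e he h2
  have h4 := EJ_sub he
  obtain ⟨x, y, rfl⟩ := exists_lt (odd_EJ he)
  have h3 := O.far x y h2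
  rw [mem_GA] at h4
  exact h3 h4

lemma EW_sub (O : Out D) : D.EJ τ ∪ D.WJ τ O.Wo ⊆ D.GA ∪ O.Wo := by
  unfold WJ
  rw [← union_assoc]
  exact union_subset_union_left (union_subset EJ_sub WR_sub)

/-- **The environment with the line at the position `τ`.** -/
noncomputable def XJ : Env :=
  Env.plane (D.EJ τ) (D.WJ τ O.Wo) O.c0 O.k0 O.g (fun _ he => odd_EJ he) (disj_EW τ O) O.hk
    (fun h => O.hroot (EJ_sub h)) (O.hg.anti (EW_sub τ O))
    (fun v hv => O.hlow v (hv.mono (EW_sub τ O)))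

@[simp] lemma XJ_E : (XJ O τ).E = D.EJ τ := rfl
@[simp] lemma XJ_c0 : (XJ O τ).c0 = O.c0 := rfl
@[simp] lemma XJ_k0 : (XJ O τ).k0 = O.k0 := rfl
@[simp] lemma XJ_T : (XJ O τ).T = 4 := rfl

end Win

/-! ### Examples of positions -/

/-- the line at the column `i` -/
def clmp (D : Win) (i : ℤ) : ℤ → ℤ := fun y => max i (D.a y)

/-- the line on the right wall -/
lemma pos_right (D : Win) : Pos D (fun _ => D.w) where
  lo y h1 h2 := by have := D.aw y h1 h2; omega
  hi _ _ _ := le_rfl
  up _ _ _ h := by omega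
  dn _ _ _ h := by omega

/-- the line on the left arc -/
lemma pos_left (D : Win) : Pos D D.a where
  lo _ _ _ := le_rfl
  hi y h1 h2 := by have := D.aw y h1 h2; omega
  up _ _ _ _ := rfl
  dn _ _ _ _ := rfl

lemma pos_clmp (D : Win) {i : ℤ} (hi : i ≤ D.w) : Pos D (clmp D i) where
  lo y _ _ := le_max_right _ _
  hi y h1 h2 := by
    have := D.aw y h1 h2
    unfold clmp
    omega
  up y h1 h2 h := by
    unfold clmp at h ⊢
    omega
  dn y h1 h2 h := by
    unfold clmp at h ⊢
    omega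

/-- one straight segment in the rows `[y1, y2)`, column `i`, the rest on the left arc -/
def seg (D : Win) (i y1 y2 : ℤ) : ℤ → ℤ := fun y => if y1 ≤ y ∧ y < y2 then i else D.a y

/-- `[y1, y2)` is a maximal interval of rows which reach the column `i` -/
structure Comp (D : Win) (i y1 y2 : ℤ) : Prop where
  h0 : 0 ≤ y1
  h1 : y1 < y2
  h2 : y2 ≤ D.h
  le : ∀ y, y1 ≤ y → y < y2 → D.a y ≤ i
  bot : 0 < y1 → i < D.a (y1 - 1)
  top : y2 < D.h → i < D.a y2

lemma pos_seg (D : Win) {i y1 y2 : ℤ} (hi : i ≤ D.w) (C : Comp D i y1 y2) : Pos D (seg D i y1 y2) where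
  lo y h1 h2 := by
    unfold seg
    split_ifs with h
    · exact C.le y h.1 h.2
    · exact le_rfl
  hi y h1 h2 := by
    have := D.aw y h1 h2
    unfold seg
    split_ifs with h
    · exact hi
    · omega
  up y h1 h2 h := by
    unfold seg at h ⊢
    by_cases c : y1 ≤ y + 1 ∧ y + 1 < y2
    · rw [if_pos c] at h
      by_cases c2 : y1 ≤ y ∧ y < y2
      · rw [if_pos c2] at h; omega
      · rw [if_neg c2] at h
        have e : y = y1 - 1 := by omega
        have := C.bot (by omega)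
        rw [← e] at this
        omega
    · rw [if_neg c]
  dn y h1 h2 h := by
    unfold seg at h ⊢
    by_cases c : y1 ≤ y ∧ y < y2
    · rw [if_pos c] at h
      by_cases c2 : y1 ≤ y + 1 ∧ y + 1 < y2
      · rw [if_pos c2] at h; omega
      · rw [if_neg c2] at h
        have e : y + 1 = y2 := by omega
        have := C.top (by omega)
        rw [← e] at this
        omega
    · rw [if_neg c]

end Pool.Agent.H54.W
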