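import Mathlib
import Pool.Agent.H95.W.CoR

set_option autoImplicit false

/-! # Windows from coarse data

`CD` : coarse data: `H` rows of cells, row `Y` is `A Y ≤ X < W`, colour `CL Y` to the left of the row `Y` (left
wall of the row `Y` together with the ceiling of the row `Y - 1` if `A (Y - 1) < A Y`, and with the floor of the
row `Y + 1` if `A (Y + 1) < A Y`), `CB` below, `CT` above. The only conditions: a row is not empty, the colour
does not change on a straight vertical wall. (No condition at the convex corners and on the right wall.)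

`CD.win C n he h8 cr` : the window with cells of side `n`, `n` even. The row `y` is `[n A (y/n), n W)`, except that
it is one tile longer at a reflex corner whose colour is `false`, in the row next to the corner (`notch`:
tile `(n A Y - 1, n Y)` at a rise, `(n A Y - 1, n Y + n - 1)` at a drop). `CD.coarse`, `CD.coarseC` : the
structures `CoarseR`, `CoarseRC` of helper95. `CD.a_eq_iff` : the rows with a notch. -/

namespace Pool.Agent.H54.W

open Pool.Agent.H95.W (CoarseR CoarseRC)

/-- **Coarse data.** -/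
structure CD where
  H : ℤ
  W : ℤ
  LO : ℤ
  A : ℤ → ℤ
  CL : ℤ → Bool
  CB : Bool
  CT : Bool
  H0 : 0 < H
  AW : ∀ Y, 0 ≤ Y → Y < H → A Y < W
  lo : ∀ Y, 0 ≤ Y → Y < H → LO ≤ A Y
  sc : ∀ Y, 0 ≤ Y → Y + 1 < H → A Y = A (Y + 1) → CL Y = CL (Y + 1)

namespace CD

variable (C : CD) (n : ℤ)

/-- the row `y` has a notch -/
def Nt (y : ℤ) : Prop := C.CL (y / n) = false ∧
  ((y % n = 0 ∧ 0 < y / n ∧ C.A (y / n - 1) < C.A (y / n)) ∨
    (y % n = n - 1 ∧ y / n + 1 < C.H ∧ C.A (y / n + 1) < C.A (y / n)))

instance (y : ℤ) : Decidable (C.Nt n y) := by unfold Nt; infer_instance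

/-- left end of the row `y` -/
def wa (y : ℤ) : ℤ := n * C.A (y / n) - if C.Nt n y then 1 else 0

lemma wa_cases (y : ℤ) : (C.Nt n y ∧ C.wa n y = n * C.A (y / n) - 1) ∨
    (¬ C.Nt n y ∧ C.wa n y = n * C.A (y / n)) := by
  unfold wa
  by_cases h : C.Nt n y
  · left; rw [if_pos h]; exact ⟨h, rfl⟩
  · right; rw [if_neg h]; exact ⟨h, by ring⟩

variable {C n}

lemma div_succ (hn : 0 < n) (y : ℤ) :
    (y % n < n - 1 ∧ (y + 1) / n = y / n ∧ (y + 1) % n = y % n + 1) ∨
      (y % n = n - 1 ∧ (y + 1) / n = y / n + 1 ∧ (y + 1) % n = 0) := by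
  have h1 := Int.emod_add_mul_ediv y n
  have h2 := Int.emod_nonneg y hn.ne'
  have h3 := Int.emod_lt_of_pos y hn
  by_cases h : y % n = n - 1
  · right
    have e : y + 1 = 0 + n * (y / n + 1) := by rw [mul_add, mul_one]; omega
    refine ⟨h, ?_, ?_⟩
    · rw [e, Int.add_mul_ediv_left _ _ hn.ne', Int.zero_ediv, zero_add]
    · rw [e, Int.add_mul_emod_self_left, Int.zero_emod]
  · left
    have e : y + 1 = (y % n + 1) + n * (y / n) := by omega
    refine ⟨by omega, ?_, ?_⟩
    · rw [e, Int.add_mul_ediv_left _ _ hn.ne', Int.ediv_eq_zero_of_lt (by omega) (by omega), zero_add]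
    · rw [e, Int.add_mul_emod_self_left, Int.emod_eq_of_lt (by omega) (by omega)]

lemma row_of (hn : 0 < n) {y : ℤ} (h0 : 0 ≤ y) (h1 : y < n * C.H) : 0 ≤ y / n ∧ y / n < C.H := by
  refine ⟨Int.ediv_nonneg h0 hn.le, ?_⟩
  rw [Int.ediv_lt_iff_lt_mul hn, mul_comm]
  exact h1

lemma mul_lt (hn : 0 < n) {u v : ℤ} (h : u < v) : n * u + n ≤ n * v := by nlinarith

/-- **Rises.** -/
lemma rise (hn : 8 ≤ n) {y : ℤ} (h : C.wa n y < C.wa n (y + 1)) :
    ((y + 1) % n = 0 ∧ (y + 1) / n = y / n + 1 ∧ C.A (y / n) < C.A (y / n + 1)) ∨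
      ((y + 1) % n = 1 ∧ (y + 1) / n = y / n ∧ 0 < y / n ∧ C.A (y / n - 1) < C.A (y / n) ∧
        C.CL (y / n) = false) := by
  have hp : 0 < n := by omega
  rcases div_succ hp y with ⟨k1, k2, k3⟩ | ⟨k1, k2, k3⟩
  · right
    rcases C.wa_cases n y with ⟨c, e⟩ | ⟨c, e⟩
    · unfold Nt at c
      obtain ⟨c1, c2 | c2⟩ := c
      · exact ⟨by omega, k2, c2.2.1, c2.2.2, c1⟩
      · omega
    · rcases C.wa_cases n (y + 1) with ⟨c', e'⟩ | ⟨c', e'⟩ <;> rw [e, e', k2] at h <;> omega
  · left
    refine ⟨k3, k2, ?_⟩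
    by_contra hc
    have h5 : C.A (y / n + 1) = C.A (y / n) ∨ C.A (y / n + 1) < C.A (y / n) := by omega
    rcases C.wa_cases n y with ⟨c, e⟩ | ⟨c, e⟩ <;>
      rcases C.wa_cases n (y + 1) with ⟨c', e'⟩ | ⟨c', e'⟩ <;> rw [e, e', k2] at h
    · rcases h5 with h5 | h5
      · rw [h5] at h; omega
      · have := mul_lt hp h5; omega
    · rcases h5 with h5 | h5
      · unfold Nt at c
        obtain ⟨-, c | c⟩ := c
        · omega
        · omega
      · have := mul_lt hp h5; omega
    · rcases h5 with h5 | h5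
      · rw [h5] at h; omega
      · have := mul_lt hp h5; omega
    · rcases h5 with h5 | h5
      · rw [h5] at h; omega
      · have := mul_lt hp h5; omega

/-- **Drops.** -/
lemma drop (hn : 8 ≤ n) {y : ℤ} (h : C.wa n (y + 1) < C.wa n y) :
    ((y + 1) % n = 0 ∧ (y + 1) / n = y / n + 1 ∧ C.A (y / n + 1) < C.A (y / n)) ∨
      ((y + 1) % n = n - 1 ∧ (y + 1) / n = y / n ∧ y / n + 1 < C.H ∧
        C.A (y / n + 1) < C.A (y / n) ∧ C.CL (y / n) = false) := by
  have hp : 0 < n := by omega
  rcases div_succ hp y with ⟨k1, k2, k3⟩ | ⟨k1, k2, k3⟩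
  · right
    rcases C.wa_cases n (y + 1) with ⟨c, e⟩ | ⟨c, e⟩
    · unfold Nt at c
      rw [k2] at c
      have := Int.emod_nonneg y hp.ne'
      obtain ⟨c1, c2 | c2⟩ := c
      · omega
      · exact ⟨c2.1, k2, c2.2.1, c2.2.2, c1⟩
    · rcases C.wa_cases n y with ⟨c', e'⟩ | ⟨c', e'⟩ <;> rw [e, e', k2] at h <;> omega
  · left
    refine ⟨k3, k2, ?_⟩
    by_contra hc
    have h5 : C.A (y / n + 1) = C.A (y / n) ∨ C.A (y / n) < C.A (y / n + 1) := by omega
    rcases C.wa_cases n y with ⟨c, e⟩ | ⟨c, e⟩ <;>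
      rcases C.wa_cases n (y + 1) with ⟨c', e'⟩ | ⟨c', e'⟩ <;> rw [e, e', k2] at h
    · rcases h5 with h5 | h5
      · rw [h5] at h; omega
      · have := mul_lt hp h5; omega
    · rcases h5 with h5 | h5
      · rw [h5] at h; omega
      · have := mul_lt hp h5; omega
    · rcases h5 with h5 | h5
      · unfold Nt at c'
        rw [k2, k3, add_sub_cancel_right] at c'
        obtain ⟨-, c' | c'⟩ := c'
        · omega
        · omega
      · have := mul_lt hp h5; omega
    · rcases h5 with h5 | h5
      · rw [h5] at h; omega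
      · have := mul_lt hp h5; omega

lemma ev (he : n % 2 = 0) (k : ℤ) : (n * k) % 2 = 0 := by
  rw [Int.mul_emod, he, zero_mul]; rfl

variable (C n)

/-- **The window of coarse data.** -/
def win (he : n % 2 = 0) (h8 : 8 ≤ n) (cr : ℤ → Bool) : Win where
  h := n * C.H
  w := n * C.W
  lo := n * C.LO - 1
  a := C.wa n
  cl y := C.CL (y / n)
  cr := cr
  cb := C.CB
  ct := C.CT
  hh := by have := C.H0; nlinarith
  hlo y h0 h1 := by
    have hr := row_of (C := C) (by omega) h0 h1
    have h2 := C.lo _ hr.1 hr.2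
    have h3 : n * C.LO ≤ n * C.A (y / n) := by nlinarith
    rcases C.wa_cases n y with ⟨-, e⟩ | ⟨-, e⟩ <;> omega
  aw y h0 h1 := by
    have hr := row_of (C := C) (by omega) h0 h1
    have h2 := C.AW _ hr.1 hr.2
    have h3 := mul_lt (n := n) (by omega) h2
    rcases C.wa_cases n y with ⟨-, e⟩ | ⟨-, e⟩ <;> omega
  fe y h0 h1 h2 := by
    have hp : 0 < n := by omega
    have hr := row_of (C := C) hp h0.le h1
    have hr' := row_of (C := C) (y := y - 1) hp (by omega) (by omega)
    have h5 := Int.emod_add_mul_ediv y n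
    have h6 : y / n < C.H → n * (y / n) + n ≤ n * C.H := mul_lt hp
    have h7 : 0 < y / n → n ≤ n * (y / n) := fun h => by nlinarith
    have h8' : y / n + 1 < C.H → n * (y / n) + n + n ≤ n * C.H := fun h => by
      have := mul_lt hp h
      rw [mul_add, mul_one] at this
      exact this
    have h9 := Int.emod_lt_of_pos y hp
    have h10 := Int.emod_nonneg y hp.ne'
    rcases lt_or_gt_of_ne h2 with h | h
    · rw [← sub_add_cancel y 1] at h
      rw [add_sub_cancel_right] at h
      rcases rise h8 h with ⟨k1, k2, k3⟩ | ⟨k1, k2, k3, k4, k5⟩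
      · rw [sub_add_cancel] at k1 k2
        have := h7 (by omega)
        have := h6 hr.2
        omega
      · rw [sub_add_cancel] at k1 k2
        have := h7 (by omega)
        have := h6 hr.2
        omega
    · have h' : C.wa n (y - 1 + 1) < C.wa n (y - 1) := by rw [sub_add_cancel]; exact h
      rcases drop h8 h' with ⟨k1, k2, k3⟩ | ⟨k1, k2, k3, k4, k5⟩
      · rw [sub_add_cancel] at k1 k2
        have := h7 (by omega)
        have := h6 hr.2
        omega
      · rw [sub_add_cancel] at k1 k2
        rw [← k2] at k3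
        have := h8' k3
        have : 0 ≤ n * (y / n) := mul_nonneg hp.le hr.1
        omega
  ud y z h0 h1 h2 h3 h4 := by
    have hp : 0 < n := by omega
    have e1 := Int.emod_add_mul_ediv y n
    have e2 := Int.emod_add_mul_ediv z n
    have h3' : C.wa n (y - 1) < C.wa n (y - 1 + 1) := by rw [sub_add_cancel]; exact h3
    have h4' : C.wa n (z - 1 + 1) < C.wa n (z - 1) := by rw [sub_add_cancel]; exact h4
    have hlt : y / n < z / n → n * (y / n) + n ≤ n * (z / n) := mul_lt hp
    have hle : y / n ≤ z / n := Int.ediv_le_ediv hp h1.le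
    have r1 := rise h8 h3'
    have r2 := drop h8 h4'
    rw [sub_add_cancel] at r1 r2
    rcases lt_or_eq_of_le hle with hl | hl
    · have := hlt hl
      rcases r1 with k | k <;> rcases r2 with g | g <;> omega
    · rw [← hl] at e2 r2
      rcases r1 with k | k <;> rcases r2 with g | g <;> omega
  du y z h0 h1 h2 h3 h4 := by
    have hp : 0 < n := by omega
    have e1 := Int.emod_add_mul_ediv y n
    have e2 := Int.emod_add_mul_ediv z n
    have h3' : C.wa n (y - 1 + 1) < C.wa n (y - 1) := by rw [sub_add_cancel]; exact h3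
    have h4' : C.wa n (z - 1) < C.wa n (z - 1 + 1) := by rw [sub_add_cancel]; exact h4
    have hle : y / n ≤ z / n := Int.ediv_le_ediv hp h1.le
    have r1 := drop h8 h3'
    have r2 := rise h8 h4'
    rw [sub_add_cancel] at r1 r2
    rcases lt_or_eq_of_le hle with hl | hl
    · have hlt : n * (y / n) + n ≤ n * (z / n) := mul_lt hp hl
      rcases r1 with ⟨k1, k2, k3⟩ | ⟨k1, k2, k3, k4, k5⟩
      · rcases r2 with g | g <;> omega
      · -- the drop is above the row of cells `y / n`, so the rise is not at its upper end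
        rcases lt_or_eq_of_le (show y / n + 1 ≤ z / n by omega) with hl2 | hl2
        · have := mul_lt (n := n) hp hl2
          rw [mul_add, mul_one] at this
          rcases r2 with g | g <;> omega
        · exfalso
          rcases r2 with ⟨g1, g2, g3⟩ | ⟨g1, g2, g3, g4, g5⟩
          · rw [show (z - 1) / n = y / n by omega, show (y - 1) / n = y / n by omega] at *
            omega
          · rw [show (z - 1) / n = y / n + 1 by omega, add_sub_cancel_right] at g4
            rw [show (y - 1) / n = y / n by omega] at k4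
            omega
    · exfalso
      rw [← hl] at e2 r2
      rcases r1 with ⟨k1, k2, k3⟩ | ⟨k1, k2, k3, k4, k5⟩
      · rcases r2 with ⟨g1, g2, g3⟩ | ⟨g1, g2, g3, g4, g5⟩
        · omega
        · rw [show (z - 1) / n = y / n by omega] at g4
          rw [show (y - 1) / n = y / n - 1 by omega, sub_add_cancel] at k3
          omega
      · rcases r2 with g | g <;> omega
  scl y h0 h1 h2 := by
    have hp : 0 < n := by omega
    rcases div_succ hp y with ⟨k1, k2, k3⟩ | ⟨k1, k2, k3⟩
    · rw [k2]
    · have hr := row_of (C := C) (y := y + 1) hp (by omega) h1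
      have hr' := row_of (C := C) (y := y) hp h0 (by omega)
      rw [k2] at hr ⊢
      refine C.sc _ hr'.1 hr.2 ?_
      by_contra hc
      rcases lt_or_gt_of_ne hc with h | h
      · have := mul_lt (n := n) hp h
        rcases C.wa_cases n y with ⟨-, e⟩ | ⟨-, e⟩ <;>
          rcases C.wa_cases n (y + 1) with ⟨-, e'⟩ | ⟨-, e'⟩ <;> rw [k2] at e' <;> omega
      · have := mul_lt (n := n) hp h
        rcases C.wa_cases n y with ⟨-, e⟩ | ⟨-, e⟩ <;>
          rcases C.wa_cases n (y + 1) with ⟨-, e'⟩ | ⟨-, e'⟩ <;> rw [k2] at e' <;> omega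
  cup y h0 h1 h2 := by
    have hp : 0 < n := by omega
    have r := rise h8 h2
    rcases div_succ hp (y + 1) with ⟨k1, k2, k3⟩ | ⟨k1, k2, k3⟩
    · rw [show y + 1 + 1 = y + 2 by ring] at k2
      rw [k2]
    · omega
  cdn y h0 h1 h2 := by
    have hp : 0 < n := by omega
    have r := drop h8 h2
    rcases div_succ hp (y - 1) with ⟨k1, k2, k3⟩ | ⟨k1, k2, k3⟩
    · rw [sub_add_cancel] at k2
      rw [k2]
    · rw [sub_add_cancel] at k2 k3
      rcases div_succ hp y with ⟨g1, g2, g3⟩ | ⟨g1, g2, g3⟩ <;> omega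
  pup y h0 h1 h2 := by
    have hp : 0 < n := by omega
    have e1 := Int.emod_add_mul_ediv (y + 1) n
    have v1 := ev he (C.A ((y + 1) / n))
    have v2 := ev he ((y + 1) / n)
    rcases rise h8 h2 with ⟨k1, k2, k3⟩ | ⟨k1, k2, k3, k4, k5⟩
    · have hr' := row_of (C := C) (y := y) hp h0 (by omega)
      rcases C.wa_cases n (y + 1) with ⟨c, e⟩ | ⟨c, e⟩
      · have := c.1
        rw [this, e]
        constructor
        · intro h; omega
        · intro h; exact absurd h (by simp)
      · have : C.CL ((y + 1) / n) = true := by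
          by_contra hc
          apply c
          unfold Nt
          refine ⟨by simpa using hc, Or.inl ⟨k1, by omega, ?_⟩⟩
          rw [k2, add_sub_cancel_right]; exact k3
        rw [this, e]
        constructor
        · intro h; rfl
        · intro h; omega
    · have c : ¬ C.Nt n (y + 1) := by
        unfold Nt
        rintro ⟨-, c | c⟩ <;> omega
      rcases C.wa_cases n (y + 1) with ⟨c', e⟩ | ⟨-, e⟩
      · exact absurd c' c
      · rw [e, k2, k5]
        rw [k2] at v1 v2 e1
        constructor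
        · intro h; omega
        · intro h; exact absurd h (by simp)
  pdn y h0 h1 h2 := by
    have hp : 0 < n := by omega
    have e1 := Int.emod_add_mul_ediv y n
    have v1 := ev he (C.A (y / n))
    have v2 := ev he (y / n)
    have hy := div_succ hp y
    rcases drop h8 h2 with ⟨k1, k2, k3⟩ | ⟨k1, k2, k3, k4, k5⟩
    · have hr' := row_of (C := C) (y := y + 1) hp (by omega) h1
      rcases C.wa_cases n y with ⟨c, e⟩ | ⟨c, e⟩
      · have := c.1
        rw [this, e]
        constructor
        · intro h; omega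
        · intro h; exact absurd h (by simp)
      · have : C.CL (y / n) = true := by
          by_contra hc
          apply c
          unfold Nt
          refine ⟨by simpa using hc, Or.inr ⟨by omega, by omega, k3⟩⟩
        rw [this, e]
        constructor
        · intro h; rfl
        · intro h; omega
    · have c : ¬ C.Nt n y := by
        unfold Nt
        rintro ⟨-, c | c⟩ <;> omega
      rcases C.wa_cases n y with ⟨c', e⟩ | ⟨-, e⟩
      · exact absurd c' c
      · rw [e, k5]
        constructor
        · intro h; omega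
        · intro h; exact absurd h (by simp)

variable {C n}
variable (he : n % 2 = 0) (h8 : 8 ≤ n) (cr : ℤ → Bool)

@[simp] lemma win_h : (C.win n he h8 cr).h = n * C.H := rfl
@[simp] lemma win_w : (C.win n he h8 cr).w = n * C.W := rfl
@[simp] lemma win_lo : (C.win n he h8 cr).lo = n * C.LO - 1 := rfl
@[simp] lemma win_a : (C.win n he h8 cr).a = C.wa n := rfl
@[simp] lemma win_cl (y : ℤ) : (C.win n he h8 cr).cl y = C.CL (y / n) := rfl
@[simp] lemma win_cr : (C.win n he h8 cr).cr = cr := rfl
@[simp] lemma win_cb : (C.win n he h8 cr).cb = C.CB := rfl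
@[simp] lemma win_ct : (C.win n he h8 cr).ct = C.CT := rfl

/-- **The window of coarse data is a scaled polyomino.** -/
theorem coarse : CoarseR (C.win n he h8 cr) n C.H C.W C.A where
  hn := h8
  HH := C.H0
  hh := rfl
  ww := rfl
  AW := C.AW
  a y _ _ := by
    rcases C.wa_cases n y with ⟨c, e⟩ | ⟨c, e⟩
    · right
      refine ⟨e, ?_⟩
      unfold Nt at c
      tauto
    · exact Or.inl e

theorem coarseC : CoarseRC (C.win n he h8 cr) n C.H C.W C.A C.CL where
  toCoarseR := coarse he h8 cr
  cl _ _ _ := rfl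

/-- the rows with a notch -/
lemma a_eq_iff {y : ℤ} : (C.win n he h8 cr).a y = n * C.A (y / n) - 1 ↔ C.Nt n y := by
  rw [win_a]
  rcases C.wa_cases n y with ⟨c, e⟩ | ⟨c, e⟩
  · exact ⟨fun _ => c, fun _ => e⟩
  · exact ⟨fun h => by omega, fun h => absurd h c⟩

end CD

end Pool.Agent.H54.W
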