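import Mathlib
import Pool.Agent.H21.W.TileSG

set_option autoImplicit false
open Finset

/-! # The strand along a horizontal line between two colours

`lah x y t` : the vertical side at the abscissa `x` which is used by the interface along the horizontal line
`y` (rows `y - 1`, `y`); `lam x y` : the horizontal side between `(x, y - 1)` and `(x, y)`. -/

namespace Pool.Agent.H54.W

open Pool.Agent.H75.Perc Pool.Agent.H75.TwoArm Pool.Agent.H13.W Pool.Agent.H33.Q1 Pool.Agent.H99.W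
open Pool.Agent.H21.W

variable {Λ D : Set (ℤ × ℤ)} {w : Finset (ℤ × ℤ)} {x y : ℤ} {p : Bool}

/-- the vertical side at `x` of the interface along the line `y`: `t = true` : side of the lower row -/
def lah (x y : ℤ) (t : Bool) : ℤ × ℤ := if t then eW (lt (x, y - 1)) else eW (lt (x, y))

lemma lah_true (x y : ℤ) : lah x y true = eW (lt (x, y - 1)) := rfl
lemma lah_false (x y : ℤ) : lah x y false = eW (lt (x, y)) := rfl

/-- the two tiles below and above a line between two colours are in the same state -/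
lemma al_int_h (h1 : lt (x, y - 1) ∈ w ↔ p = true) (h2 : lt (x, y) ∈ w ↔ p = false) :
    (Al w x (y - 1) ↔ ladt p x y = true) ∧ (Al w x y ↔ ladt p x y = true) := by
  rw [ladt_true]
  unfold Al
  rw [h1, h2]
  cases p
  · simp only [Bool.false_eq_true, false_iff, true_iff]; omega
  · simp only [Bool.true_eq_false, false_iff, true_iff]; omega

/-- left half of a step: from the left vertical side to the horizontal side in the middle -/
lemma lah_mid (h1 : lt (x, y - 1) ∈ Λ) (h2 : lt (x, y) ∈ Λ)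
    (d1 : lt (x, y - 1) ∉ D) (d2 : lt (x, y) ∉ D) (w1 : lt (x, y - 1) ∈ w ↔ p = true)
    (w2 : lt (x, y) ∈ w ↔ p = false) :
    (SG Λ D w).Reachable (lah x y (ladt p x y)) (eS (lt (x, y))) := by
  obtain ⟨a1, a2⟩ := al_int_h w1 w2
  have e1 : eN (lt (x, y - 1)) = eS (lt (x, y)) := by rw [eN_lt, sub_add_cancel]
  cases h : ladt p x y
  · have n2 : ¬ Al w x y := fun h' => by simpa [h] using a2.1 h'
    exact (show (SG Λ D w).Adj _ _ from ⟨_, h2, (TJ_be d2 n2).1⟩).reachable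
  · have n1 : Al w x (y - 1) := a1.2 h
    rw [← e1]
    exact (show (SG Λ D w).Adj _ _ from ⟨_, h1, (TJ_al d1 n1).1⟩).reachable

/-- right half of a step -/
lemma mid_lah (h1 : lt (x, y - 1) ∈ Λ) (h2 : lt (x, y) ∈ Λ)
    (d1 : lt (x, y - 1) ∉ D) (d2 : lt (x, y) ∉ D) (w1 : lt (x, y - 1) ∈ w ↔ p = true)
    (w2 : lt (x, y) ∈ w ↔ p = false) :
    (SG Λ D w).Reachable (eS (lt (x, y))) (lah (x + 1) y (ladt p (x + 1) y)) := by
  obtain ⟨a1, a2⟩ := al_int_h w1 w2
  have e1 : eN (lt (x, y - 1)) = eS (lt (x, y)) := by rw [eN_lt, sub_add_cancel]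
  have e2 : ladt p (x + 1) y = !ladt p x y := by
    have := ladt_succ p x y
    unfold ladt at this ⊢
    rw [← this]
    congr 3
    omega
  rw [e2]
  cases h : ladt p x y
  · have n1 : ¬ Al w x (y - 1) := fun h' => by simpa [h] using a1.1 h'
    rw [← e1]
    simp only [Bool.not_false, lah_true]
    rw [← eE_lt]
    exact (show (SG Λ D w).Adj _ _ from ⟨_, h1, (TJ_be d1 n1).2⟩).reachable
  · have n2 : Al w x y := a2.2 h
    simp only [Bool.not_true, lah_false]
    rw [← eE_lt]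
    exact (show (SG Λ D w).Adj _ _ from ⟨_, h2, (TJ_al d2 n2).2⟩).reachable

/-- **The strand along a horizontal line** `y` between the colours `p` (below) and `!p` (above), columns
`x1 ≤ x < x2` -/
theorem ladder_h {x1 x2 : ℤ} (h12 : x1 ≤ x2)
    (hΛ : ∀ x, x1 ≤ x → x < x2 → lt (x, y - 1) ∈ Λ ∧ lt (x, y) ∈ Λ)
    (hD : ∀ x, x1 ≤ x → x < x2 → lt (x, y - 1) ∉ D ∧ lt (x, y) ∉ D)
    (hw : ∀ x, x1 ≤ x → x < x2 → (lt (x, y - 1) ∈ w ↔ p = true) ∧ (lt (x, y) ∈ w ↔ p = false)) :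
    (SG Λ D w).Reachable (lah x1 y (ladt p x1 y)) (lah x2 y (ladt p x2 y)) := by
  obtain ⟨n, rfl⟩ : ∃ n : ℕ, x2 = x1 + n := ⟨(x2 - x1).toNat, by omega⟩
  clear h12
  induction n with
  | zero => simp
  | succ n ih =>
    have h0 := ih (fun x h1 h2 => hΛ x h1 (by push_cast; omega))
      (fun x h1 h2 => hD x h1 (by push_cast; omega)) (fun x h1 h2 => hw x h1 (by push_cast; omega))
    have hy1 : x1 ≤ x1 + (n : ℤ) := by omega
    have hy2 : x1 + (n : ℤ) < x1 + ((n + 1 : ℕ) : ℤ) := by push_cast; omega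
    obtain ⟨l1, l2⟩ := hΛ _ hy1 hy2
    obtain ⟨d1, d2⟩ := hD _ hy1 hy2
    obtain ⟨w1, w2⟩ := hw _ hy1 hy2
    have h1 := lah_mid (Λ := Λ) (D := D) l1 l2 d1 d2 w1 w2
    have h2 := mid_lah (Λ := Λ) (D := D) l1 l2 d1 d2 w1 w2
    have e : x1 + ((n + 1 : ℕ) : ℤ) = (x1 + n) + 1 := by push_cast; ring
    rw [e]
    exact (h0.trans h1).trans h2

/-- the tiles of a vertical side -/
lemma lab_eW_lt (x y : ℤ) : (lab (eW (lt (x, y))) = lt (x, y) ∧ plab (eW (lt (x, y))) = lt (x - 1, y)) ∨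
    (lab (eW (lt (x, y))) = lt (x - 1, y) ∧ plab (eW (lt (x, y))) = lt (x, y)) := by
  have e0 : eE (lt (x - 1, y)) = eW (lt (x, y)) := by rw [eE_lt, sub_add_cancel]
  have h1 := of_side (lt_odd (x, y)) (eW (lt (x, y))) (Or.inl rfl)
  have h2 := of_side (lt_odd (x - 1, y)) (eW (lt (x, y))) (Or.inr (Or.inl e0.symm))
  have h3 : lt (x, y) ≠ lt (x - 1, y) := fun h => by
    have := lt_inj h
    simp only [Prod.mk.injEq] at this
    omega
  rcases h1 with h1 | h1 <;> rcases h2 with h2 | h2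
  · exact absurd (h1.trans h2.symm) h3
  · exact Or.inl ⟨h1.symm, h2.symm⟩
  · exact Or.inr ⟨h2.symm, h1.symm⟩
  · exact absurd (h1.trans h2.symm) h3

lemma isEnd_left (h : lt (x - 1, y) ∉ Λ) : IsEnd (SG Λ D w) (eW (lt (x, y))) := by
  rcases lab_eW_lt x y with ⟨h1, h2⟩ | ⟨h1, h2⟩
  · exact isEnd_of_notMem (Or.inr (by rw [h2]; exact h))
  · exact isEnd_of_notMem (Or.inl (by rw [h1]; exact h))

lemma isEnd_right (h : lt (x, y) ∉ Λ) : IsEnd (SG Λ D w) (eW (lt (x, y))) := by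
  rcases lab_eW_lt x y with ⟨h1, h2⟩ | ⟨h1, h2⟩
  · exact isEnd_of_notMem (Or.inl (by rw [h1]; exact h))
  · exact isEnd_of_notMem (Or.inr (by rw [h2]; exact h))

lemma eW_inj {a b : ℤ × ℤ} (h : eW a = eW b) : a = b := by
  unfold eW at h
  simpa [Prod.ext_iff] using h

/-- **Reachability in a graph and in a subgraph on whose marked points everything is paired.** -/
theorem reach_ends {α ι : Type*} {G' G : SimpleGraph α} (hd : Deg2 G) (hle : G' ≤ G) (N : Set ι)
    (p be : ι → α) (hend : ∀ a ∈ N, IsEnd G (be a)) (inj : ∀ a ∈ N, ∀ b ∈ N, be a = be b → a = b)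
    (hp : ∀ a ∈ N, G.Reachable (p a) (be a))
    (partner : ∀ a ∈ N, ∃ b ∈ N, b ≠ a ∧ G'.Reachable (p a) (p b)) {a b : ι} (ha : a ∈ N) (hb : b ∈ N) :
    G.Reachable (be a) (be b) ↔ G'.Reachable (p a) (p b) := by
  constructor
  · intro h
    obtain ⟨c, hc, hne, h1⟩ := partner a ha
    have h2 : G.Reachable (be a) (be c) := ((hp a ha).symm.trans (h1.mono hle)).trans (hp c hc)
    rcases ends_two hd (hend a ha) (hend c hc) (hend b hb) h2 h
      (fun e => hne (inj c hc a ha e.symm)) with h3 | h3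
    · rw [inj b hb a ha h3]
    · rw [inj b hb c hc h3]; exact h1
  · intro h
    exact ((hp a ha).symm.trans (h.mono hle)).trans (hp b hb)

end Pool.Agent.H54.W
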