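import Mathlib
import Pool.Agent.H54.W.LadH
import Pool.Agent.H21.W.RoomIn

set_option autoImplicit false
set_option linter.constructorNameAsVariable false
set_option linter.unusedSectionVars false
set_option linter.unusedVariables false
open Finset

/-! # The room graph and the box

`Zb X1 X2 Y1 Y2` : the labels of a rectangle of tiles which contains the room with a margin of two tiles;
`BoxIn` : the world `(Zb, DR x0 r, w)` has the colours of `fillC` outside of the room, the right wall has the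
colour `c0` below the string and `!c0` above.
`NE` : names of the ends (`z`, corners `l Y` of the left arc, `b`, `t` corners at the right wall), `NE.ok` : the
two walls at the corner have different colours, `pe` : the end in the room graph (side of the missing diagonal
tile which belongs to the closed wall), `be` : the end of the straight interface at the side of the box.
`pe_be` : they are joined in the box. `box_room` : **the pairing of the ends in the box is the pairing in the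
room graph** (hypothesis: in the room graph every named end has a partner). -/

namespace Pool.Agent.H54.W

open Pool.Agent.H75.Perc Pool.Agent.H75.TwoArm Pool.Agent.H13.W Pool.Agent.H33.Q1 Pool.Agent.H99.W
open Pool.Agent.H21.W

/-- labels of the rectangle `[X1, X2) × [Y1, Y2)` of tiles -/
def Zb (X1 X2 Y1 Y2 : ℤ) : Set (ℤ × ℤ) := lt '' {t | X1 ≤ t.1 ∧ t.1 < X2 ∧ Y1 ≤ t.2 ∧ t.2 < Y2}

lemma mem_Zb {X1 X2 Y1 Y2 x y : ℤ} : lt (x, y) ∈ Zb X1 X2 Y1 Y2 ↔ X1 ≤ x ∧ x < X2 ∧ Y1 ≤ y ∧ y < Y2 := by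
  constructor
  · rintro ⟨t, h1, h2⟩
    have := lt_inj h2
    subst this
    exact h1
  · exact fun h => ⟨(x, y), h, rfl⟩

/-- **names of the ends** -/
inductive NE
  | z
  | l (Y : ℤ)
  | b
  | t

namespace CD

variable (C : CD)

/-- colour of the left side just below the height `Y` -/
def cLo (Y : ℤ) : Bool := if Y = 0 then C.CB else C.CL (Y - 1)

/-- colour of the left side just above the height `Y` -/
def cUp (Y : ℤ) : Bool := if Y = C.H then C.CT else C.CL Y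

/-- abscissa of the convex corner at the height `Y` -/
def cX (Y : ℤ) : ℤ := if Y = 0 then C.A 0 else if Y = C.H then C.A (C.H - 1) else min (C.A (Y - 1)) (C.A Y)

/-- the room is above the corner -/
def Dp (Y : ℤ) : Prop := Y < C.H ∧ (Y = 0 ∨ C.A Y < C.A (Y - 1))

instance (Y : ℤ) : Decidable (C.Dp Y) := by unfold Dp; infer_instance

/-- colour of the vertical wall at the corner -/
def cWl (Y : ℤ) : Bool := if C.Dp Y then C.cUp Y else C.cLo Y

/-- the name exists -/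
def ok (c0 : Bool) : NE → Prop
  | NE.z => True
  | NE.l Y => 0 ≤ Y ∧ Y ≤ C.H ∧ C.cLo Y ≠ C.cUp Y
  | NE.b => C.CB ≠ c0
  | NE.t => C.CT = c0

/-- end in the room graph -/
def pe (n : ℤ) (c0 : Bool) (x0 r : ℤ) : NE → ℤ × ℤ
  | NE.z => eW (lt (x0, r))
  | NE.l Y => if C.cWl Y = false then eS (lt (n * C.cX Y - 1, n * Y))
      else if C.cUp Y = false then eW (lt (n * C.cX Y, n * Y)) else eW (lt (n * C.cX Y, n * Y - 1))
  | NE.b => if c0 = false then eS (lt (n * C.W, 0)) else eW (lt (n * C.W, -1))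
  | NE.t => if c0 = true then eS (lt (n * C.W, n * C.H)) else eW (lt (n * C.W, n * C.H))

/-- end at the side of the box -/
def be (n : ℤ) (c0 : Bool) (x0 r X1 X2 : ℤ) : NE → ℤ × ℤ
  | NE.z => eW (lt (x0, r))
  | NE.l Y => lah X1 (n * Y) (ladt (C.cLo Y) X1 (n * Y))
  | NE.b => lah X2 0 (ladt C.CB X2 0)
  | NE.t => lah X2 (n * C.H) (ladt (!c0) X2 (n * C.H))

end CD

/-- **The box contains the room.** -/
structure BoxIn (C : CD) (n : ℤ) (cr : ℤ → Bool) (c0 : Bool) (x0 r X1 X2 Y1 Y2 : ℤ)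
    (w : Finset (ℤ × ℤ)) : Prop where
  hn : 8 ≤ n
  he : n % 2 = 0
  x1 : X1 + 2 ≤ n * C.LO
  x2 : n * C.W + 1 < X2
  y1 : Y1 ≤ -2
  y2 : n * C.H + 1 < Y2
  zin : RP C n x0 r
  r0 : 0 < r
  r1 : r + 1 < n * C.H
  cr0 : ∀ y, 0 ≤ y → y < r → cr y = c0
  cr1 : ∀ y, r < y → y < n * C.H → cr y = !c0
  room : ∀ x y, RP C n x y → lt (x, y) ∉ w
  col : ∀ x y, X1 ≤ x → x < X2 → Y1 ≤ y → y < Y2 → ¬ RP C n x y → ¬ (y = r ∧ x0 ≤ x) →
    (lt (x, y) ∈ w ↔ fillC C n cr x y = true)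

section box

variable {C : CD} {n : ℤ} {cr : ℤ → Bool} {c0 : Bool} {x0 r X1 X2 Y1 Y2 : ℤ} {w ω : Finset (ℤ × ℤ)}

lemma ediv_eq {n y Y : ℤ} (hn : 0 < n) (h1 : n * Y ≤ y) (h2 : y < n * Y + n) : y / n = Y := by
  have h3 := Int.emod_add_mul_ediv y n
  have h4 := Int.emod_nonneg y hn.ne'
  have h5 := Int.emod_lt_of_pos y hn
  have h6 : n * (y / n) < n * (Y + 1) := by rw [mul_add, mul_one]; omega
  have h7 : n * Y < n * (y / n + 1) := by rw [mul_add, mul_one]; omega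
  have h8 := lt_of_mul_lt_mul_left h6 hn.le
  have h9 := lt_of_mul_lt_mul_left h7 hn.le
  omega

namespace BoxIn

variable (h : BoxIn C n cr c0 x0 r X1 X2 Y1 Y2 w)

include h

lemma n0 : 0 < n := by have := h.hn; omega

lemma LO_W : n * C.LO ≤ n * C.W := by
  have := h.zin.box h.n0; omega

/-- labels of the room graph belong to the box -/
lemma sub : LR C n cr ⊆ Zb X1 X2 Y1 Y2 := by
  rintro e ⟨x, y, rfl, h1⟩
  have h2 := h1.box h.n0
  have := h.x1; have := h.x2; have := h.y1; have := h.y2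
  rw [mem_Zb]; omega

lemma bx (x y : ℤ) (h1 : RT C n cr x y) : X1 ≤ x ∧ x < X2 ∧ Y1 ≤ y ∧ y < Y2 := by
  have h2 := h1.box h.n0
  have := h.x1; have := h.x2; have := h.y1; have := h.y2
  omega

/-- the room graph in the world of the box -/
lemma graph : SG (LR C n cr) (DR x0 r) (WR0 C n cr ∪ ω) = SG (LR C n cr) (DR x0 r) (w ∪ ω) := by
  refine SG_congr (fun _ _ => Iff.rfl) ?_
  rintro e ⟨x, y, rfl, h1⟩ hD
  rw [mem_union, mem_union]
  refine or_congr ?_ Iff.rfl
  rw [mem_WR0 h.n0]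
  by_cases hP : RP C n x y
  · constructor
    · exact fun h2 => absurd hP h2.2.1
    · exact fun h2 => absurd h2 (h.room x y hP)
  · have hb := h.bx x y h1
    rw [h.col x y hb.1 hb.2.1 hb.2.2.1 hb.2.2.2 hP (fun h2 => hD (mem_DR.2 h2))]
    tauto

lemma le : SG (LR C n cr) (DR x0 r) (WR0 C n cr ∪ ω) ≤ SG (Zb X1 X2 Y1 Y2) (DR x0 r) (w ∪ ω) := by
  rw [h.graph]
  rintro c d ⟨e, he, h1⟩
  exact ⟨e, h.sub he, h1⟩

/-- colour outside -/
lemma colω (hω : ω ⊆ ER C n) {x y : ℤ} (h1 : X1 ≤ x) (h2 : x < X2) (h3 : Y1 ≤ y) (h4 : y < Y2)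
    (h5 : ¬ RP C n x y) (h6 : ¬ (y = r ∧ x0 ≤ x)) {p : Bool} (hp : fillC C n cr x y = p) :
    lt (x, y) ∈ w ∪ ω ↔ p = true := by
  rw [mem_union, h.col x y h1 h2 h3 h4 h5 h6, hp, or_iff_left]
  exact fun h7 => h5 ((mem_ER h.n0).1 (hω h7))

/-- facts about the left line at the height `Y`, upper tile -/
lemma left_up {Y x : ℤ} (hY0 : 0 ≤ Y) (hY : Y ≤ C.H) (h1 : X1 ≤ x) (h2 : x < n * C.cX Y) :
    x < X2 ∧ ¬ RP C n x (n * Y) ∧ ¬ (n * Y = r ∧ x0 ≤ x) ∧ fillC C n cr x (n * Y) = C.cUp Y := by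
  have hn := h.n0
  have hz := h.zin
  have h3 := h.x1; have h4 := h.x2
  have hYn : 0 ≤ n * Y := mul_nonneg hn.le hY0
  have hYH : n * Y ≤ n * C.H := mul_le_mul_of_nonneg_left hY hn.le
  have hcW : n * C.cX Y ≤ n * C.W := by
    refine mul_le_mul_of_nonneg_left ?_ hn.le
    unfold CD.cX
    have := C.H0
    split_ifs with e1 e2
    · exact (C.AW 0 le_rfl C.H0).le
    · exact (C.AW (C.H - 1) (by omega) (by omega)).le
    · exact (min_le_right _ _).trans (C.AW Y hY0 (by omega)).le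
  by_cases e : Y = C.H
  · have e1 : n * Y = n * C.H := by rw [e]
    have h5 := h.r1
    refine ⟨by omega, fun h6 => ?_, by omega, ?_⟩
    · have := h6.2.1; omega
    · unfold fillC CD.cUp
      rw [if_neg (by omega), if_pos (by omega), if_pos e]
  · have e1 : n * Y / n = Y := Int.mul_ediv_cancel_left _ hn.ne'
    have e2 : C.cX Y ≤ C.A Y := by
      unfold CD.cX
      split_ifs with e3
      · rw [e3]
      · exact min_le_right _ _
    have e3 : n * C.cX Y ≤ n * C.A Y := mul_le_mul_of_nonneg_left e2 hn.le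
    have e4 : n * (Y + 1) ≤ n * C.H := mul_le_mul_of_nonneg_left (by omega) hn.le
    rw [mul_add, mul_one] at e4
    refine ⟨by omega, fun h6 => ?_, fun h6 => ?_, ?_⟩
    · have := h6.2.2.1
      rw [e1] at this; omega
    · have h7 := hz.2.2.1
      rw [← h6.1, e1] at h7; omega
    · unfold fillC CD.cUp
      rw [if_neg (by omega), if_neg (by omega), e1, if_pos (by omega), if_neg e]

/-- facts about the left line at the height `Y`, lower tile -/
lemma left_lo {Y x : ℤ} (hY0 : 0 ≤ Y) (hY : Y ≤ C.H) (h2 : x < n * C.cX Y) :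
    ¬ RP C n x (n * Y - 1) ∧ ¬ (n * Y - 1 = r ∧ x0 ≤ x) ∧ fillC C n cr x (n * Y - 1) = C.cLo Y := by
  have hn := h.n0
  have hz := h.zin
  have hYH : n * Y ≤ n * C.H := mul_le_mul_of_nonneg_left hY hn.le
  by_cases e : Y = 0
  · subst e
    have h5 := h.r0
    refine ⟨fun h6 => ?_, by omega, ?_⟩
    · have := h6.1; omega
    · unfold fillC CD.cLo
      rw [if_pos (by omega), if_pos rfl]
  · have hY1 : n * 1 ≤ n * Y := mul_le_mul_of_nonneg_left (by omega) hn.le
    have e1 : (n * Y - 1) / n = Y - 1 := by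
      refine ediv_eq hn ?_ ?_
      · rw [mul_sub, mul_one]; omega
      · rw [mul_sub, mul_one]; omega
    have e2 : C.cX Y ≤ C.A (Y - 1) := by
      unfold CD.cX
      rw [if_neg e]
      split_ifs with e3
      · rw [e3]
      · exact min_le_left _ _
    have e3 : n * C.cX Y ≤ n * C.A (Y - 1) := mul_le_mul_of_nonneg_left e2 hn.le
    refine ⟨fun h6 => ?_, fun h6 => ?_, ?_⟩
    · have := h6.2.2.1
      rw [e1] at this; omega
    · have h7 := hz.2.2.1
      rw [← h6.1, e1] at h7; omega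
    · unfold fillC CD.cLo
      rw [if_neg (by omega), if_neg (by omega), e1, if_pos (by omega), if_neg e]

lemma X1_lt {Y : ℤ} (hY0 : 0 ≤ Y) (hY : Y ≤ C.H) : X1 + 1 < n * C.cX Y := by
  have hn := h.n0
  have h3 := h.x1
  have := C.H0
  have h4 : C.LO ≤ C.cX Y := by
    unfold CD.cX
    split_ifs with e1 e2
    · exact C.lo 0 le_rfl C.H0
    · exact C.lo (C.H - 1) (by omega) (by omega)
    · exact le_min (C.lo _ (by omega) (by omega)) (C.lo _ hY0 (by omega))
  have h5 : n * C.LO ≤ n * C.cX Y := mul_le_mul_of_nonneg_left h4 hn.le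
  omega

/-- membership facts along the left line -/
lemma left_all (hω : ω ⊆ ER C n) {Y x : ℤ} (hY0 : 0 ≤ Y) (hY : Y ≤ C.H) (hc : C.cLo Y ≠ C.cUp Y)
    (h1 : X1 ≤ x) (h2 : x < n * C.cX Y) :
    (lt (x, n * Y - 1) ∈ Zb X1 X2 Y1 Y2 ∧ lt (x, n * Y) ∈ Zb X1 X2 Y1 Y2) ∧
    (lt (x, n * Y - 1) ∉ DR x0 r ∧ lt (x, n * Y) ∉ DR x0 r) ∧
    ((lt (x, n * Y - 1) ∈ w ∪ ω ↔ C.cLo Y = true) ∧ (lt (x, n * Y) ∈ w ∪ ω ↔ C.cLo Y = false)) := by
  have hn := h.n0
  obtain ⟨u1, u2, u3, u4⟩ := h.left_up hY0 hY h1 h2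
  obtain ⟨l1, l2, l3⟩ := h.left_lo hY0 hY h2
  have hYn : 0 ≤ n * Y := mul_nonneg hn.le hY0
  have hYH : n * Y ≤ n * C.H := mul_le_mul_of_nonneg_left hY hn.le
  have := h.y1; have := h.y2
  refine ⟨⟨mem_Zb.2 ⟨h1, u1, by omega, by omega⟩, mem_Zb.2 ⟨h1, u1, by omega, by omega⟩⟩,
    ⟨fun hm => l2 (mem_DR.1 hm), fun hm => u3 (mem_DR.1 hm)⟩, ?_, ?_⟩
  · exact h.colω hω h1 u1 (by omega) (by omega) l1 l2 l3
  · rw [h.colω hω h1 u1 (by omega) (by omega) u2 u3 u4]
    revert hc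
    cases C.cLo Y <;> cases C.cUp Y <;> simp

/-- the interface from the left side of the box to the corner -/
lemma left_ifc (hω : ω ⊆ ER C n) {Y : ℤ} (hY0 : 0 ≤ Y) (hY : Y ≤ C.H) (hc : C.cLo Y ≠ C.cUp Y) :
    (SG (Zb X1 X2 Y1 Y2) (DR x0 r) (w ∪ ω)).Reachable (lah X1 (n * Y) (ladt (C.cLo Y) X1 (n * Y)))
      (eS (lt (n * C.cX Y - 1, n * Y))) ∧
    (SG (Zb X1 X2 Y1 Y2) (DR x0 r) (w ∪ ω)).Reachable (lah X1 (n * Y) (ladt (C.cLo Y) X1 (n * Y)))
      (lah (n * C.cX Y) (n * Y) (ladt (C.cLo Y) (n * C.cX Y) (n * Y))) := by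
  have hX := h.X1_lt hY0 hY
  have key := fun x (h1 : X1 ≤ x) (h2 : x < n * C.cX Y) => h.left_all hω hY0 hY hc h1 h2
  have h1 := ladder_h (Λ := Zb X1 X2 Y1 Y2) (D := DR x0 r) (w := w ∪ ω) (p := C.cLo Y) (y := n * Y)
    (x1 := X1) (x2 := n * C.cX Y - 1) (by omega) (fun x a b => (key x a (by omega)).1)
    (fun x a b => (key x a (by omega)).2.1) (fun x a b => (key x a (by omega)).2.2)
  obtain ⟨⟨l1, l2⟩, ⟨d1, d2⟩, w1, w2⟩ := key (n * C.cX Y - 1) (by omega) (by omega)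
  have h2 := h1.trans (lah_mid (Λ := Zb X1 X2 Y1 Y2) (D := DR x0 r) l1 l2 d1 d2 w1 w2)
  refine ⟨h2, ?_⟩
  have h3 := mid_lah (Λ := Zb X1 X2 Y1 Y2) (D := DR x0 r) l1 l2 d1 d2 w1 w2
  rw [sub_add_cancel] at h3
  exact h2.trans h3

/-- membership facts along the lower right line -/
lemma right_b (hω : ω ⊆ ER C n) {x : ℤ} (hc : C.CB ≠ c0) (h1 : n * C.W ≤ x) (h2 : x < X2) :
    (lt (x, 0 - 1) ∈ Zb X1 X2 Y1 Y2 ∧ lt (x, 0) ∈ Zb X1 X2 Y1 Y2) ∧
    (lt (x, 0 - 1) ∉ DR x0 r ∧ lt (x, 0) ∉ DR x0 r) ∧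
    ((lt (x, 0 - 1) ∈ w ∪ ω ↔ C.CB = true) ∧ (lt (x, 0) ∈ w ∪ ω ↔ C.CB = false)) := by
  have hn := h.n0
  have := h.y1; have := h.y2; have := h.r0; have := h.x1
  have := h.LO_W
  have hH : n * 1 ≤ n * C.H := mul_le_mul_of_nonneg_left C.H0 hn.le
  have hA : n * C.A 0 ≤ n * C.W := mul_le_mul_of_nonneg_left (C.AW 0 le_rfl C.H0).le hn.le
  have u2 : ¬ RP C n x 0 := fun h6 => by have := h6.2.2.2; omega
  have l2 : ¬ RP C n x (0 - 1) := fun h6 => by have := h6.1; omega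
  have u4 : fillC C n cr x 0 = c0 := by
    unfold fillC
    rw [if_neg (by omega), if_neg (by omega), Int.zero_ediv, if_neg (by omega)]
    exact h.cr0 0 le_rfl h.r0
  have l4 : fillC C n cr x (0 - 1) = C.CB := by
    unfold fillC
    rw [if_pos (by omega)]
  refine ⟨⟨mem_Zb.2 ⟨by omega, h2, by omega, by omega⟩, mem_Zb.2 ⟨by omega, h2, by omega, by omega⟩⟩,
    ⟨fun hm => ?_, fun hm => ?_⟩, ?_, ?_⟩
  · have := (mem_DR.1 hm).1; omega
  · have := (mem_DR.1 hm).1; omega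
  · exact h.colω hω (by omega) h2 (by omega) (by omega) l2 (by omega) l4
  · rw [h.colω hω (by omega) h2 (by omega) (by omega) u2 (by omega) u4]
    revert hc
    cases C.CB <;> cases c0 <;> simp

/-- membership facts along the upper right line -/
lemma right_t (hω : ω ⊆ ER C n) {x : ℤ} (hc : C.CT = c0) (h1 : n * C.W ≤ x) (h2 : x < X2) :
    (lt (x, n * C.H - 1) ∈ Zb X1 X2 Y1 Y2 ∧ lt (x, n * C.H) ∈ Zb X1 X2 Y1 Y2) ∧
    (lt (x, n * C.H - 1) ∉ DR x0 r ∧ lt (x, n * C.H) ∉ DR x0 r) ∧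
    ((lt (x, n * C.H - 1) ∈ w ∪ ω ↔ (!c0) = true) ∧ (lt (x, n * C.H) ∈ w ∪ ω ↔ (!c0) = false)) := by
  have hn := h.n0
  have hn8 := h.hn
  have := h.y1; have := h.y2; have := h.r0; have hr1 := h.r1; have := h.x1
  have := h.LO_W
  have hH0 := C.H0
  have hH : n * 1 ≤ n * C.H := mul_le_mul_of_nonneg_left C.H0 hn.le
  have hA : n * C.A (C.H - 1) ≤ n * C.W :=
    mul_le_mul_of_nonneg_left (C.AW (C.H - 1) (by omega) (by omega)).le hn.le
  have e1 : (n * C.H - 1) / n = C.H - 1 := by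
    refine ediv_eq hn ?_ ?_
    · rw [mul_sub, mul_one]; omega
    · rw [mul_sub, mul_one]; omega
  have u2 : ¬ RP C n x (n * C.H) := fun h6 => by have := h6.2.1; omega
  have l2 : ¬ RP C n x (n * C.H - 1) := fun h6 => by have := h6.2.2.2; omega
  have u4 : fillC C n cr x (n * C.H) = c0 := by
    unfold fillC
    rw [if_neg (by omega), if_pos (by omega)]
    exact hc
  have l4 : fillC C n cr x (n * C.H - 1) = !c0 := by
    unfold fillC
    rw [if_neg (by omega), if_neg (by omega), e1, if_neg (by omega)]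
    exact h.cr1 _ (by omega) (by omega)
  refine ⟨⟨mem_Zb.2 ⟨by omega, h2, by omega, by omega⟩, mem_Zb.2 ⟨by omega, h2, by omega, by omega⟩⟩,
    ⟨fun hm => ?_, fun hm => ?_⟩, ?_, ?_⟩
  · have := (mem_DR.1 hm).1; omega
  · have := (mem_DR.1 hm).1; omega
  · exact h.colω hω (by omega) h2 (by omega) (by omega) l2 (by omega) l4
  · rw [h.colω hω (by omega) h2 (by omega) (by omega) u2 (by omega) u4]
    cases c0 <;> simp

/-- the right lines -/
lemma right_ifc {y : ℤ} {p : Bool} (key : ∀ x, n * C.W ≤ x → x < X2 →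
    (lt (x, y - 1) ∈ Zb X1 X2 Y1 Y2 ∧ lt (x, y) ∈ Zb X1 X2 Y1 Y2) ∧
    (lt (x, y - 1) ∉ DR x0 r ∧ lt (x, y) ∉ DR x0 r) ∧
    ((lt (x, y - 1) ∈ w ∪ ω ↔ p = true) ∧ (lt (x, y) ∈ w ∪ ω ↔ p = false))) :
    (SG (Zb X1 X2 Y1 Y2) (DR x0 r) (w ∪ ω)).Reachable (eS (lt (n * C.W, y)))
      (lah X2 y (ladt p X2 y)) ∧
    (SG (Zb X1 X2 Y1 Y2) (DR x0 r) (w ∪ ω)).Reachable
      (lah (n * C.W) y (ladt p (n * C.W) y)) (lah X2 y (ladt p X2 y)) := by
  have hX := h.x2
  obtain ⟨⟨l1, l2⟩, ⟨d1, d2⟩, w1, w2⟩ := key (n * C.W) le_rfl (by omega)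
  have h1 := ladder_h (Λ := Zb X1 X2 Y1 Y2) (D := DR x0 r) (w := w ∪ ω) (p := p) (y := y)
    (x1 := n * C.W + 1) (x2 := X2) (by omega) (fun x a b => (key x (by omega) b).1)
    (fun x a b => (key x (by omega) b).2.1) (fun x a b => (key x (by omega) b).2.2)
  have h2 := (mid_lah (Λ := Zb X1 X2 Y1 Y2) (D := DR x0 r) l1 l2 d1 d2 w1 w2).trans h1
  exact ⟨h2, (lah_mid (Λ := Zb X1 X2 Y1 Y2) (D := DR x0 r) l1 l2 d1 d2 w1 w2).trans h2⟩

/-- **The named end in the room graph and the end at the side of the box are joined in the box.** -/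
theorem pe_be (hω : ω ⊆ ER C n) {a : NE} (ha : C.ok c0 a) :
    (SG (Zb X1 X2 Y1 Y2) (DR x0 r) (w ∪ ω)).Reachable (C.pe n c0 x0 r a)
      (C.be n c0 x0 r X1 X2 a) := by
  have he := h.he
  cases a with
  | z => exact SimpleGraph.Reachable.refl _
  | l Y =>
    obtain ⟨hY0, hY, hc⟩ := ha
    obtain ⟨h1, h2⟩ := h.left_ifc hω hY0 hY hc
    have e1 : (n * C.cX Y + n * Y) % 2 = 0 := by
      rw [← mul_add, Int.mul_emod, he]; simp
    have e3 : ladt (C.cLo Y) (n * C.cX Y) (n * Y) = !C.cLo Y := by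
      unfold ladt
      rw [e1]
      cases C.cLo Y <;> simp
    rw [e3] at h2
    unfold CD.pe CD.be
    simp only
    split_ifs with c1 c2
    · exact h1.symm
    · have : C.cLo Y = true := by
        revert hc; rw [c2]; cases C.cLo Y <;> simp
      rw [this] at h2 ⊢
      exact h2.symm
    · have : C.cLo Y = false := by
        revert hc c2; cases C.cLo Y <;> cases C.cUp Y <;> simp
      rw [this] at h2 ⊢
      exact h2.symm
  | b =>
    obtain ⟨h1, h2⟩ := h.right_ifc (ω := ω) (fun x a b => h.right_b hω ha a b)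
    have e1 : (n * C.W + 0) % 2 = 0 := by
      rw [add_zero, Int.mul_emod, he]; simp
    have e3 : ladt C.CB (n * C.W) 0 = !C.CB := by
      unfold ladt
      rw [e1]
      cases C.CB <;> simp
    rw [e3] at h2
    unfold CD.pe CD.be
    simp only
    split_ifs with c1
    · exact h1
    · have : C.CB = false := by
        have h5 : C.CB ≠ c0 := ha
        revert h5 c1; cases C.CB <;> cases c0 <;> simp
      rw [this] at h2 ⊢
      exact h2
  | t =>
    obtain ⟨h1, h2⟩ := h.right_ifc (ω := ω) (fun x a b => h.right_t hω ha a b)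
    have e1 : (n * C.W + n * C.H) % 2 = 0 := by
      rw [← mul_add, Int.mul_emod, he]; simp
    have e3 : ladt (!c0) (n * C.W) (n * C.H) = c0 := by
      unfold ladt
      rw [e1]
      cases c0 <;> simp
    rw [e3] at h2
    unfold CD.pe CD.be
    simp only
    split_ifs with c1
    · exact h1
    · have : c0 = false := by revert c1; cases c0 <;> simp
      rw [this] at h2 ⊢
      exact h2

/-- the ends of the box are ends -/
lemma isEnd_be (a : NE) : IsEnd (SG (Zb X1 X2 Y1 Y2) (DR x0 r) (w ∪ ω)) (C.be n c0 x0 r X1 X2 a) := by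
  cases a with
  | z => exact isEnd_eW (mem_DR.2 ⟨rfl, le_rfl⟩) (lt_odd _)
  | l Y =>
    unfold CD.be
    simp only
    cases ladt (C.cLo Y) X1 (n * Y)
    · exact isEnd_left (fun hm => by have := (mem_Zb.1 hm).1; omega)
    · exact isEnd_left (fun hm => by have := (mem_Zb.1 hm).1; omega)
  | b =>
    unfold CD.be
    simp only
    cases ladt C.CB X2 0
    · exact isEnd_right (fun hm => by have := (mem_Zb.1 hm).2.1; omega)
    · exact isEnd_right (fun hm => by have := (mem_Zb.1 hm).2.1; omega)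
  | t =>
    unfold CD.be
    simp only
    cases ladt (!c0) X2 (n * C.H)
    · exact isEnd_right (fun hm => by have := (mem_Zb.1 hm).2.1; omega)
    · exact isEnd_right (fun hm => by have := (mem_Zb.1 hm).2.1; omega)

omit h in
/-- coordinates of the ends of the box -/
lemma be_coord (a : NE) : ∃ x y : ℤ, C.be n c0 x0 r X1 X2 a = eW (lt (x, y)) ∧
    (a = NE.z → x = x0 ∧ y = r) ∧ (∀ Y, a = NE.l Y → x = X1 ∧ n * Y - 1 ≤ y ∧ y ≤ n * Y) ∧
    (a = NE.b → x = X2 ∧ -1 ≤ y ∧ y ≤ 0) ∧ (a = NE.t → x = X2 ∧ n * C.H - 1 ≤ y ∧ y ≤ n * C.H) := by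
  have key : ∀ x y : ℤ, ∀ t : Bool, ∃ y', lah x y t = eW (lt (x, y')) ∧ y - 1 ≤ y' ∧ y' ≤ y := by
    intro x y t
    cases t
    · exact ⟨y, rfl, by omega, le_rfl⟩
    · exact ⟨y - 1, rfl, le_rfl, by omega⟩
  cases a with
  | z => exact ⟨x0, r, rfl, by simp⟩
  | l Y =>
    obtain ⟨y', h1, h2, h3⟩ := key X1 (n * Y) (ladt (C.cLo Y) X1 (n * Y))
    refine ⟨X1, y', h1, by simp, ?_, by simp, by simp⟩
    intro Y' e
    cases e
    exact ⟨rfl, h2, h3⟩
  | b =>
    obtain ⟨y', h1, h2, h3⟩ := key X2 0 (ladt C.CB X2 0)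
    exact ⟨X2, y', h1, by simp, by simp, fun _ => ⟨rfl, by omega, h3⟩, by simp⟩
  | t =>
    obtain ⟨y', h1, h2, h3⟩ := key X2 (n * C.H) (ladt (!c0) X2 (n * C.H))
    exact ⟨X2, y', h1, by simp, by simp, by simp, fun _ => ⟨rfl, h2, h3⟩⟩

/-- different names have different ends -/
lemma be_inj {a b : NE} (hab : C.be n c0 x0 r X1 X2 a = C.be n c0 x0 r X1 X2 b) : a = b := by
  have hn := h.hn
  have hz := h.zin.box h.n0
  have h1 := h.x1; have h2 := h.x2
  have hH : n * 1 ≤ n * C.H := mul_le_mul_of_nonneg_left C.H0 h.n0.le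
  obtain ⟨x, y, e1, z1, l1, b1, t1⟩ := be_coord (C := C) (n := n) (c0 := c0) (x0 := x0) (r := r)
    (X1 := X1) (X2 := X2) a
  obtain ⟨x', y', e1', z2, l2, b2, t2⟩ := be_coord (C := C) (n := n) (c0 := c0) (x0 := x0) (r := r)
    (X1 := X1) (X2 := X2) b
  rw [e1, e1'] at hab
  have e2 := lt_inj (eW_inj hab)
  simp only [Prod.mk.injEq] at e2
  cases a with
  | z =>
    have := z1 rfl
    cases b with
    | z => rfl
    | l Y => have := l2 Y rfl; omega
    | b => have := b2 rfl; omega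
    | t => have := t2 rfl; omega
  | l Y =>
    have k1 := l1 Y rfl
    cases b with
    | z => have := z2 rfl; omega
    | l Y' =>
      have k2 := l2 Y' rfl
      rcases lt_trichotomy Y Y' with h3 | h3 | h3
      · have : n * (Y + 1) ≤ n * Y' := mul_le_mul_of_nonneg_left h3 h.n0.le
        rw [mul_add, mul_one] at this; omega
      · rw [h3]
      · have : n * (Y' + 1) ≤ n * Y := mul_le_mul_of_nonneg_left h3 h.n0.le
        rw [mul_add, mul_one] at this; omega
    | b => have := b2 rfl; omega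
    | t => have := t2 rfl; omega
  | b =>
    have := b1 rfl
    cases b with
    | z => have := z2 rfl; omega
    | l Y => have := l2 Y rfl; omega
    | b => rfl
    | t => have := t2 rfl; omega
  | t =>
    have := t1 rfl
    cases b with
    | z => have := z2 rfl; omega
    | l Y => have := l2 Y rfl; omega
    | b => have := b2 rfl; omega
    | t => rfl

/-- **BRIDGE: the pairing of the named ends in the box is the pairing in the room graph.** -/
theorem box_room (hω : ω ⊆ ER C n)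
    (partner : ∀ a, C.ok c0 a → ∃ b, C.ok c0 b ∧ b ≠ a ∧
      (SG (LR C n cr) (DR x0 r) (WR0 C n cr ∪ ω)).Reachable (C.pe n c0 x0 r a) (C.pe n c0 x0 r b))
    {a b : NE} (ha : C.ok c0 a) (hb : C.ok c0 b) :
    (SG (Zb X1 X2 Y1 Y2) (DR x0 r) (w ∪ ω)).Reachable (C.be n c0 x0 r X1 X2 a)
      (C.be n c0 x0 r X1 X2 b) ↔
    (SG (LR C n cr) (DR x0 r) (WR0 C n cr ∪ ω)).Reachable (C.pe n c0 x0 r a) (C.pe n c0 x0 r b) :=
  reach_ends SG_deg2 h.le {a | C.ok c0 a} (C.pe n c0 x0 r) (C.be n c0 x0 r X1 X2)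
    (fun a _ => h.isEnd_be a) (fun _ _ _ _ e => h.be_inj e) (fun _ ha => h.pe_be hω ha)
    partner ha hb

end BoxIn

end box

end Pool.Agent.H54.W
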