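import Mathlib
import Pool.Agent.H54.W.Def

set_option autoImplicit false
open Finset

/-! # The windows of `Def.lean`, rotated by 90 degrees: columns are intervals, the line is horizontal

The tile `(x, y)` of `Def.lean` is the tile `(-y - 1, x)` here (rotation by +90 degrees, `RotPlane` of
helper25). A window has the columns `p ≤ x < q`, column `x` is `a x ≤ y < w` (flat ceiling). The line of real
tiles goes from the corner NW `(p, w)` to the corner NE `(q, w)`. Its position is a function `τ`,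
`a x ≤ τ x ≤ w`: the line crosses the column `x` in the tile `(x, τ x - 1)`, the tiles above it do not move
(`P+`), the tiles below it are shifted by `(0, -1)` (`P-`). So the column `x` of the union is
`a x - 1 ≤ y < w`, all its tiles are random for every `τ`.

Between the columns `x` and `x + 1` the line is straight if `τ x = τ (x + 1)`. If `τ (x + 1) < τ x` then
`τ x = a x` and the line runs to the south in the column `x` outside of the union (left wall of the column
`x + 1`): tiles `(x, y)`, `τ (x + 1) ≤ y < τ x - 1`, turn tile `(x, τ (x + 1) - 1)` in the state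
{W-S, N-E}. If `τ x < τ (x + 1)` then `τ (x + 1) = a (x + 1)` and the line runs to the north in the column
`x + 1` (right wall of the column `x`): tiles `(x + 1, y)`, `τ x ≤ y < τ (x + 1) - 1`, turn tile
`(x + 1, τ x - 1)` in the state {W-N, S-E}. To the left of the column `p` the line runs to the south in the
column `p - 1` (tiles `τ p ≤ y < w`, turn tile `(p - 1, τ p - 1)`), to the right of the column `q - 1` to the
north in the column `q` (tiles `τ (q - 1) ≤ y < w`, turn tile `(q, τ (q - 1) - 1)`). The tiles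
`(x, τ x - 1)` at the upper end of a run (reflex corners) stand for two tiles of the line.

Weights as in `H46/Sp`: `a` weight of {W-N, S-E} when the line goes to the east, `b` weight of {W-S, N-E}
when it goes to the south, `c` weight of {W-S, N-E} when it goes to the north. `qH a b c` corresponds to
`qJ (1 - a) (1 - c) (1 - b)` of `Def.lean` (rapidity `u` here, `π - u` there).

Colours (`true`: wired, open): `c x` below the column `x`, `cc x` above it, `cL` to the left of the window,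
`cR` to the right. -/

namespace Pool.Agent.H54.W

open Pool.Agent.H75.Perc Pool.Agent.H75.TwoArm Pool.Agent.Q1 Pool.Agent.H33.Q1
open Pool.Agent.H75.Four Pool.Agent.H69.Q1
open Pool.Agent.H74.R45 (exists_lt)

/-- **Windows** with the colours of their sides, columns. -/
structure HWin where
  p : ℤ
  q : ℤ
  w : ℤ
  /-- a lower bound of `a`, bottom of the box -/
  lo : ℤ
  a : ℤ → ℤ
  c : ℤ → Bool
  cc : ℤ → Bool
  cL : Bool
  cR : Bool
  hh : p + 2 ≤ q
  hlo : ∀ x, p ≤ x → x < q → lo ≤ a x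
  aw : ∀ x, p ≤ x → x < q → a x + 2 ≤ w
  fe : ∀ x, p < x → x < q → a (x - 1) ≠ a x → p + 4 ≤ x ∧ x + 4 ≤ q
  ud : ∀ x z, p < x → x < z → z < q → a (x - 1) < a x → a z < a (z - 1) → x + 4 ≤ z
  du : ∀ x z, p < x → x < z → z < q → a x < a (x - 1) → a (z - 1) < a z → x + 4 ≤ z
  sc : ∀ x, p ≤ x → x + 1 < q → a x = a (x + 1) → c x = c (x + 1)
  /-- the column behind a left wall has its colour -/
  cdn : ∀ x, p < x → x + 1 < q → a (x + 1) < a x → c (x - 1) = c x
  /-- the column behind a right wall has its colour -/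
  cup : ∀ x, p < x → x + 1 < q → a (x - 1) < a x → c x = c (x + 1)
  pdn : ∀ x, p ≤ x → x + 1 < q → a (x + 1) < a x → ((a x + x) % 2 = 1 ↔ c x = true)
  pup : ∀ x, p < x → x < q → a (x - 1) < a x → ((a x + x) % 2 = 0 ↔ c x = true)

/-- the ceiling has one colour -/
def HWin.FlatC (D : HWin) : Prop := ∀ x, D.cc x = D.cc D.p

/-- **Positions of the line.** -/
structure HPos (D : HWin) (τ : ℤ → ℤ) : Prop where
  lo : ∀ x, D.p ≤ x → x < D.q → D.a x ≤ τ x
  hi : ∀ x, D.p ≤ x → x < D.q → τ x ≤ D.w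
  dn : ∀ x, D.p ≤ x → x + 1 < D.q → τ (x + 1) < τ x → τ x = D.a x
  up : ∀ x, D.p ≤ x → x + 1 < D.q → τ x < τ (x + 1) → τ (x + 1) = D.a (x + 1)

namespace HWin

variable (D : HWin) (τ : ℤ → ℤ)

/-- the union of `P` and `P - (0,1)` -/
def InU (x y : ℤ) : Prop := D.p ≤ x ∧ x < D.q ∧ D.a x - 1 ≤ y ∧ y < D.w

/-- tile of the line in the union -/
def Ln (x y : ℤ) : Prop := D.p ≤ x ∧ x < D.q ∧ y = τ x - 1

/-- run of the line to the south along the left wall of the column `x + 1` -/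
def RS (x y : ℤ) : Prop := D.p ≤ x ∧ x + 1 < D.q ∧ τ (x + 1) ≤ y ∧ y < τ x - 1

/-- run of the line to the north along the right wall of the column `x - 1` -/
def RN (x y : ℤ) : Prop := D.p < x ∧ x < D.q ∧ τ (x - 1) ≤ y ∧ y < τ x - 1

/-- run of the line to the south on the left side of the window -/
def RL (x y : ℤ) : Prop := x = D.p - 1 ∧ τ D.p ≤ y ∧ y < D.w

/-- run of the line to the north on the right side of the window -/
def RR (x y : ℤ) : Prop := x = D.q ∧ τ (D.q - 1) ≤ y ∧ y < D.w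

/-- turn tile in the state {W-S, N-E} -/
def TB (x y : ℤ) : Prop := (D.p ≤ x ∧ x + 1 < D.q ∧ τ (x + 1) < τ x ∧ y = τ (x + 1) - 1) ∨
  (x = D.p - 1 ∧ y = τ D.p - 1)

/-- turn tile in the state {W-N, S-E} -/
def TA (x y : ℤ) : Prop := (D.p < x ∧ x < D.q ∧ τ (x - 1) < τ x ∧ y = τ (x - 1) - 1) ∨
  (x = D.q ∧ y = τ (D.q - 1) - 1)

/-- tiles which are random when the line is at the position `τ` -/
def InE (x y : ℤ) : Prop :=
  D.InU x y ∨ D.RS τ x y ∨ D.RN τ x y ∨ D.RL τ x y ∨ D.RR τ x y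

/-- colours of the outside -/
def fill (x y : ℤ) : Bool :=
  if x < D.p then D.cL else if D.q ≤ x then D.cR else if y < D.a x then D.c x else D.cc x

/-- the box around the window -/
def InZ (x y : ℤ) : Prop := D.p ≤ x + 2 ∧ x ≤ D.q + 1 ∧ D.lo ≤ y + 2 ∧ y ≤ D.w

/-- open tiles in the box when the line is at the position `τ` -/
def InO (x y : ℤ) : Prop := D.InZ x y ∧ ¬ D.InE τ x y ∧
  ((D.TA τ x y ∧ (x + y) % 2 = 0) ∨ (D.TB τ x y ∧ (x + y) % 2 = 1) ∨
    (¬ D.TA τ x y ∧ ¬ D.TB τ x y ∧ D.fill x y = true))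

open Classical in
/-- labels of the tiles in the box with the property `P` -/
noncomputable def TS (P : ℤ → ℤ → Prop) : Finset (ℤ × ℤ) :=
  ((Icc (D.p - 2) (D.q + 1) ×ˢ Icc (D.lo - 2) D.w).filter fun t => P t.1 t.2).image lt

lemma mem_TS {P : ℤ → ℤ → Prop} {x y : ℤ} : lt (x, y) ∈ D.TS P ↔ D.InZ x y ∧ P x y := by
  classical
  unfold TS InZ
  simp only [mem_image, mem_filter, mem_product, mem_Icc, Prod.exists]
  constructor
  · rintro ⟨x', y', ⟨⟨⟨h1, h2⟩, h3, h4⟩, h5⟩, h6⟩
    have := lt_inj h6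
    simp only [Prod.mk.injEq] at this
    obtain ⟨rfl, rfl⟩ := this
    exact ⟨⟨by omega, by omega, by omega, h4⟩, h5⟩
  · rintro ⟨⟨h1, h2, h3, h4⟩, h5⟩
    exact ⟨x, y, ⟨⟨⟨by omega, by omega⟩, by omega, h4⟩, h5⟩, rfl⟩

lemma odd_TS {P : ℤ → ℤ → Prop} {e : ℤ × ℤ} (he : e ∈ D.TS P) : (e.1 + e.2) % 2 = 1 := by
  classical
  unfold TS at he
  simp only [mem_image] at he
  obtain ⟨t, -, rfl⟩ := he
  exact lt_odd t

/-- random labels -/
noncomputable def EH : Finset (ℤ × ℤ) := D.TS (D.InE τ)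

/-- open labels near the window -/
noncomputable def WR : Finset (ℤ × ℤ) := D.TS (D.InO τ)

/-- open labels -/
noncomputable def WH (Wo : Finset (ℤ × ℤ)) : Finset (ℤ × ℤ) := D.WR τ ∪ Wo

/-- the labels of the box -/
noncomputable def GA : Finset (ℤ × ℤ) := D.TS D.InZ

/-- weight of the state {W-N, S-E} -/
noncomputable def wA (a b c : ℂ) (x y : ℤ) : ℂ :=
  if x < D.p then 1 - b
  else if D.q ≤ x then 1 - c
  else if y = τ x - 1 then
    (if x + 1 < D.q ∧ τ (x + 1) < τ x then 1 - b * (1 - a)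
    else if D.p < x ∧ τ (x - 1) < τ x then (1 - c) * a
    else a)
  else if y < D.a x - 1 then (if x + 1 < D.q ∧ τ (x + 1) < τ x then 1 - b else 1 - c)
  else 1 / 2

/-- open weights -/
noncomputable def qH (a b c : ℂ) (e : ℤ × ℤ) : ℂ :=
  Win.wal (tt e).1 (tt e).2 (D.wA τ a b c (tt e).1 (tt e).2)

/-! ### Membership -/

variable {D τ} {x y : ℤ}

lemma RS.pos (H : HPos D τ) (h : D.RS τ x y) : τ x = D.a x ∧ D.a (x + 1) < D.a x := by
  obtain ⟨h1, h2, h3, h4⟩ := h
  have k := H.dn x (by omega) (by omega) (by omega)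
  have k2 := H.lo (x + 1) (by omega) (by omega)
  omega

lemma RN.pos (H : HPos D τ) (h : D.RN τ x y) : τ x = D.a x ∧ D.a (x - 1) < D.a x := by
  obtain ⟨h1, h2, h3, h4⟩ := h
  have k := H.up (x - 1) (by omega) (by omega) (by rw [sub_add_cancel]; omega)
  rw [sub_add_cancel] at k
  have k2 := H.lo (x - 1) (by omega) (by omega)
  omega

/-- the runs are outside of the union -/
lemma run_out (H : HPos D τ) (h : D.RS τ x y ∨ D.RN τ x y ∨ D.RL τ x y ∨ D.RR τ x y) :
    ¬ D.InU x y := by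
  unfold InU
  rcases h with h | h | h | h
  · have k := h.pos H
    have := h.2.2.2
    omega
  · have k := h.pos H
    have := h.2.2.2
    omega
  · have := h.1
    omega
  · have := h.1
    omega

lemma InE.z (H : HPos D τ) (h : D.InE τ x y) : D.p ≤ x + 1 ∧ x ≤ D.q ∧ D.lo ≤ y + 1 ∧ y < D.w := by
  have hh := D.hh
  rcases h with h | h | h | h | h
  · obtain ⟨h1, h2, h3, h4⟩ := h
    have := D.hlo x h1 h2
    omega
  · obtain ⟨h1, h2, h3, h4⟩ := h
    have k1 := H.lo (x + 1) (by omega) (by omega)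
    have k2 := D.hlo (x + 1) (by omega) (by omega)
    have k3 := H.hi x h1 (by omega)
    omega
  · obtain ⟨h1, h2, h3, h4⟩ := h
    have k1 := H.lo (x - 1) (by omega) (by omega)
    have k2 := D.hlo (x - 1) (by omega) (by omega)
    have k3 := H.hi x (by omega) h2
    omega
  · obtain ⟨h1, h2, h3⟩ := h
    have k1 := H.lo D.p le_rfl (by omega)
    have k2 := D.hlo D.p le_rfl (by omega)
    omega
  · obtain ⟨h1, h2, h3⟩ := h
    have k1 := H.lo (D.q - 1) (by omega) (by omega)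
    have k2 := D.hlo (D.q - 1) (by omega) (by omega)
    omega

lemma InE.inZ (H : HPos D τ) (h : D.InE τ x y) : D.InZ x y := by
  have := h.z H
  unfold InZ
  omega

/-- a column is not next to a rise on its left and a drop on its right -/
lemma no_ud (h1 : D.p < x) (h2 : x + 1 < D.q) (h3 : D.a (x - 1) < D.a x) : ¬ D.a (x + 1) < D.a x := by
  intro h4
  have := D.ud x (x + 1) h1 (by omega) h2 h3 (by rwa [add_sub_cancel_right])
  omega

/-- at most one run touches a column -/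
lemma up_dn (H : HPos D τ) (h1 : D.p < x) (h2 : x + 1 < D.q) (h3 : τ (x - 1) < τ x) :
    ¬ τ (x + 1) < τ x := by
  intro h4
  have k1 := H.up (x - 1) (by omega) (by omega) (by rwa [sub_add_cancel])
  rw [sub_add_cancel] at k1
  have k2 := H.lo (x - 1) (by omega) (by omega)
  have k3 := H.lo (x + 1) (by omega) (by omega)
  exact no_ud h1 h2 (by omega) (by omega)

/-- the turn tiles are not random -/
lemma TA.not_InE (H : HPos D τ) (h : D.TA τ x y) : ¬ D.InE τ x y := by
  have hh := D.hh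
  rcases h with ⟨h1, h2, h3, h4⟩ | ⟨h1, h2⟩
  · have k := H.up (x - 1) (by omega) (by omega) (by rwa [sub_add_cancel])
    rw [sub_add_cancel] at k
    rintro (h | h | h | h | h)
    · have := h.2.2.1; omega
    · exact up_dn H h1 h.2.1 h3 (by have := h.2.2; omega)
    · have := h.2.2.1; omega
    · have := h.1; omega
    · have := h.1; omega
  · rintro (h | h | h | h | h)
    · have := h.2.1; omega
    · have := h.2.1; omega
    · have := h.2.1; omega
    · have := h.1; omega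
    · have := h.2.1; omega

lemma TB.not_InE (H : HPos D τ) (h : D.TB τ x y) : ¬ D.InE τ x y := by
  have hh := D.hh
  rcases h with ⟨h1, h2, h3, h4⟩ | ⟨h1, h2⟩
  · have k := H.dn x h1 h2 h3
    rintro (h | h | h | h | h)
    · have := h.2.2.1; omega
    · have := h.2.2.1; omega
    · exact up_dn H h.1 h2 (by have := h.2.2; omega) h3
    · have := h.1; omega
    · have := h.1; omega
  · rintro (h | h | h | h | h)
    · have := h.1; omega
    · have := h.1; omega
    · have := h.1; omega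
    · have := h.2.1; omega
    · have := h.1; omega

lemma TA.not_TB (H : HPos D τ) (h : D.TA τ x y) : ¬ D.TB τ x y := by
  have hh := D.hh
  rcases h with ⟨h1, h2, h3, h4⟩ | ⟨h1, h2⟩
  · rintro (⟨g1, g2, g3, g4⟩ | ⟨g1, g2⟩)
    · exact up_dn H h1 g2 h3 g3
    · omega
  · rintro (⟨g1, g2, g3, g4⟩ | ⟨g1, g2⟩) <;> omega

/-- random labels -/
lemma mem_EH (H : HPos D τ) : lt (x, y) ∈ D.EH τ ↔ D.InE τ x y := by
  unfold EH
  rw [mem_TS]
  exact ⟨fun h => h.2, fun h => ⟨h.inZ H, h⟩⟩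

/-- open labels near the window -/
lemma mem_WR : lt (x, y) ∈ D.WR τ ↔ D.InO τ x y := by
  unfold WR
  rw [mem_TS]
  exact ⟨fun h => h.2, fun h => ⟨h.1, h⟩⟩

lemma mem_GA : lt (x, y) ∈ D.GA ↔ D.InZ x y := by
  unfold GA
  rw [mem_TS]
  exact ⟨fun h => h.2, fun h => ⟨h, h⟩⟩

lemma odd_EH {e : ℤ × ℤ} (he : e ∈ D.EH τ) : (e.1 + e.2) % 2 = 1 := D.odd_TS he

lemma odd_WR {e : ℤ × ℤ} (he : e ∈ D.WR τ) : (e.1 + e.2) % 2 = 1 := D.odd_TS he

lemma odd_GA {e : ℤ × ℤ} (he : e ∈ D.GA) : (e.1 + e.2) % 2 = 1 := D.odd_TS he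

lemma disj_ER : Disjoint (D.EH τ) (D.WR τ) := by
  rw [disjoint_left]
  intro e h1 h2
  obtain ⟨x, y, rfl⟩ := exists_lt (odd_EH h1)
  unfold EH at h1
  rw [mem_TS] at h1
  rw [mem_WR] at h2
  exact h2.2.1 h1.2

lemma EH_sub : D.EH τ ⊆ D.GA := by
  intro e he
  obtain ⟨x, y, rfl⟩ := exists_lt (odd_EH he)
  unfold EH at he
  rw [mem_TS] at he
  rw [mem_GA]
  exact he.1

lemma WR_sub : D.WR τ ⊆ D.GA := by
  intro e he
  obtain ⟨x, y, rfl⟩ := exists_lt (odd_WR he)
  rw [mem_WR] at he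
  rw [mem_GA]
  exact he.1

end HWin

/-- **Data of the outside**: far open labels and the root corner. -/
structure HOut (D : HWin) where
  Wo : Finset (ℤ × ℤ)
  c0 : ℤ × ℤ
  k0 : ℤ
  g : ℤ × ℤ
  /-- the far labels avoid the box -/
  far : ∀ x y, lt (x, y) ∈ Wo → ¬ D.InZ x y
  hk : k0 % 4 = ty c0
  hroot : plab c0 ∉ D.GA
  hg : DCo (D.GA ∪ Wo) (fi c0) g
  hlow : ∀ v, Co (D.GA ∪ Wo) (vx c0) v → g.2 < v.2

namespace HWin

variable {D : HWin} (O : HOut D) (τ : ℤ → ℤ) {x y : ℤ}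

lemma disj_EW (O : HOut D) : Disjoint (D.EH τ) (D.WH τ O.Wo) := by
  unfold WH
  rw [disjoint_union_right]
  refine ⟨disj_ER, ?_⟩
  rw [disjoint_left]
  intro e he h2
  have h4 := EH_sub he
  obtain ⟨x, y, rfl⟩ := exists_lt (odd_EH he)
  have h3 := O.far x y h2
  rw [mem_GA] at h4
  exact h3 h4

lemma EW_sub (O : HOut D) : D.EH τ ∪ D.WH τ O.Wo ⊆ D.GA ∪ O.Wo := by
  unfold WH
  rw [← union_assoc]
  exact union_subset_union_left (union_subset EH_sub WR_sub)

/-- **The environment with the line at the position `τ`.** -/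
noncomputable def XH : Env :=
  Env.plane (D.EH τ) (D.WH τ O.Wo) O.c0 O.k0 O.g (fun _ he => odd_EH he) (disj_EW τ O) O.hk
    (fun h => O.hroot (EH_sub h)) (O.hg.anti (EW_sub τ O))
    (fun v hv => O.hlow v (hv.mono (EW_sub τ O)))

@[simp] lemma XH_E : (XH O τ).E = D.EH τ := rfl
@[simp] lemma XH_c0 : (XH O τ).c0 = O.c0 := rfl
@[simp] lemma XH_k0 : (XH O τ).k0 = O.k0 := rfl
@[simp] lemma XH_T : (XH O τ).T = 4 := rfl

end HWin

/-! ### The rotation of a window -/

/-- the window of `Def.lean`, rotated by 90 degrees -/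
def Win.toH (D : Win) : HWin where
  p := -D.h
  q := 0
  w := D.w
  lo := D.lo
  a x := D.a (-x - 1)
  c x := D.cl (-x - 1)
  cc x := D.cr (-x - 1)
  cL := D.ct
  cR := D.cb
  hh := by have := D.hh; omega
  hlo x h1 h2 := D.hlo _ (by omega) (by omega)
  aw x h1 h2 := D.aw _ (by omega) (by omega)
  fe x h1 h2 h3 := by
    have := D.fe (-x) (by omega) (by omega) (fun h => h3 (by
      rw [show -(x - 1) - 1 = -x by ring, ← h]))
    omega
  ud x z h1 h2 h3 h4 h5 := by
    have := D.ud (-z) (-x) (by omega) (by omega) (by omega)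
      (by rwa [show -z = -(z - 1) - 1 by ring, show -(z - 1) - 1 - 1 = -z - 1 by ring])
      (by rwa [show -x = -(x - 1) - 1 by ring, show -(x - 1) - 1 - 1 = -x - 1 by ring])
    omega
  du x z h1 h2 h3 h4 h5 := by
    have := D.du (-z) (-x) (by omega) (by omega) (by omega)
      (by rwa [show -z = -(z - 1) - 1 by ring, show -(z - 1) - 1 - 1 = -z - 1 by ring])
      (by rwa [show -x = -(x - 1) - 1 by ring, show -(x - 1) - 1 - 1 = -x - 1 by ring])
    omega
  sc x h1 h2 h3 := by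
    have h := D.scl (-(x + 1) - 1) (by omega) (by omega) (by
      rw [show -(x + 1) - 1 + 1 = -x - 1 by ring]; exact h3.symm)
    rw [show -(x + 1) - 1 + 1 = -x - 1 by ring] at h
    exact h.symm
  cdn x h1 h2 h3 := by
    have h := D.cup (-(x + 1) - 1) (by omega) (by omega) (by
      rw [show -(x + 1) - 1 + 1 = -x - 1 by ring]; exact h3)
    rw [show -(x + 1) - 1 + 1 = -x - 1 by ring, show -(x + 1) - 1 + 2 = -(x - 1) - 1 by ring] at h
    exact h.symm
  cup x h1 h2 h3 := by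
    have h := D.cdn (-x - 1) (by omega) (by omega) (by
      rw [show -x - 1 + 1 = -(x - 1) - 1 by ring]; exact h3)
    rw [show -x - 1 - 1 = -(x + 1) - 1 by ring] at h
    exact h.symm
  pdn x h1 h2 h3 := by
    have h := D.pup (-(x + 1) - 1) (by omega) (by omega) (by
      rw [show -(x + 1) - 1 + 1 = -x - 1 by ring]; exact h3)
    rw [show -(x + 1) - 1 + 1 = -x - 1 by ring] at h
    rw [← h]
    omega
  pup x h1 h2 h3 := by
    have h := D.pdn (-x - 1) (by omega) (by omega) (by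
      rw [show -x - 1 + 1 = -(x - 1) - 1 by ring]; exact h3)
    rw [← h]
    omega

namespace Win

variable {D : Win} {τ : ℤ → ℤ} {x y : ℤ}

/-- the position of the line in the rotated window -/
def rt (τ : ℤ → ℤ) (x : ℤ) : ℤ := τ (-x - 1)

lemma pos_toH (H : Pos D τ) : HPos D.toH (rt τ) where
  lo x h1 h2 := H.lo _ (by simp only [toH] at h1 h2; omega) (by simp only [toH] at h1 h2; omega)
  hi x h1 h2 := H.hi _ (by simp only [toH] at h1 h2; omega) (by simp only [toH] at h1 h2; omega)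
  dn x h1 h2 h3 := by
    simp only [toH] at h1 h2
    unfold rt at h3 ⊢
    have h := H.up (-(x + 1) - 1) (by omega) (by omega) (by
      rw [show -(x + 1) - 1 + 1 = -x - 1 by ring]; exact h3)
    rwa [show -(x + 1) - 1 + 1 = -x - 1 by ring] at h
  up x h1 h2 h3 := by
    simp only [toH] at h1 h2
    unfold rt at h3 ⊢
    have h := H.dn (-(x + 1) - 1) (by omega) (by omega) (by
      rw [show -(x + 1) - 1 + 1 = -x - 1 by ring]; exact h3)
    exact h

lemma toH_InU : D.toH.InU x y ↔ D.InU y (-x - 1) := by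
  unfold HWin.InU InU
  simp only [toH]
  constructor <;> rintro ⟨h1, h2, h3, h4⟩ <;> exact ⟨by omega, by omega, h3, h4⟩

lemma toH_RS : D.toH.RS (rt τ) x y ↔ D.RE τ y (-x - 1) := by
  unfold HWin.RS RE rt
  simp only [toH]
  rw [show -(x + 1) - 1 = -x - 1 - 1 by ring]
  constructor <;> rintro ⟨h1, h2, h3, h4⟩ <;> exact ⟨by omega, by omega, h3, h4⟩

lemma toH_RN : D.toH.RN (rt τ) x y ↔ D.RW τ y (-x - 1) := by
  unfold HWin.RN RW rt
  simp only [toH]
  rw [show -(x - 1) - 1 = -x - 1 + 1 by ring]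
  constructor <;> rintro ⟨h1, h2, h3, h4⟩ <;> exact ⟨by omega, by omega, h3, h4⟩

lemma toH_RL : D.toH.RL (rt τ) x y ↔ D.RT τ y (-x - 1) := by
  unfold HWin.RL RT rt
  simp only [toH]
  rw [show -(-D.h) - 1 = D.h - 1 by ring]
  constructor <;> rintro ⟨h1, h2, h3⟩ <;> exact ⟨by omega, h2, h3⟩

lemma toH_RR : D.toH.RR (rt τ) x y ↔ D.RB τ y (-x - 1) := by
  unfold HWin.RR RB rt
  simp only [toH]
  rw [show -((0 : ℤ) - 1) - 1 = 0 by ring]
  constructor <;> rintro ⟨h1, h2, h3⟩ <;> exact ⟨by omega, h2, h3⟩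

lemma toH_InE : D.toH.InE (rt τ) x y ↔ D.InE τ y (-x - 1) := by
  unfold HWin.InE InE
  rw [toH_InU, toH_RS, toH_RN, toH_RL, toH_RR]
  tauto

lemma toH_TB : D.toH.TB (rt τ) x y ↔ D.TA τ y (-x - 1) := by
  unfold HWin.TB TA rt
  simp only [toH]
  rw [show -(x + 1) - 1 = -x - 1 - 1 by ring, show -(-D.h) - 1 = D.h - 1 by ring]
  constructor
  · rintro (⟨h1, h2, h3, h4⟩ | ⟨h1, h2⟩)
    · exact Or.inl ⟨by omega, by omega, h3, h4⟩
    · exact Or.inr ⟨by omega, h2⟩
  · rintro (⟨h1, h2, h3, h4⟩ | ⟨h1, h2⟩)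
    · exact Or.inl ⟨by omega, by omega, h3, h4⟩
    · exact Or.inr ⟨by omega, h2⟩

lemma toH_TA : D.toH.TA (rt τ) x y ↔ D.TB τ y (-x - 1) := by
  unfold HWin.TA TB rt
  simp only [toH]
  rw [show -(x - 1) - 1 = -x - 1 + 1 by ring, show -((0 : ℤ) - 1) - 1 = 0 by ring]
  constructor
  · rintro (⟨h1, h2, h3, h4⟩ | ⟨h1, h2⟩)
    · exact Or.inl ⟨by omega, by omega, h3, h4⟩
    · exact Or.inr ⟨by omega, h2⟩
  · rintro (⟨h1, h2, h3, h4⟩ | ⟨h1, h2⟩)
    · exact Or.inl ⟨by omega, by omega, h3, h4⟩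
    · exact Or.inr ⟨by omega, h2⟩

lemma toH_InZ : D.toH.InZ x y ↔ D.InZ y (-x - 1) := by
  unfold HWin.InZ InZ
  simp only [toH]
  constructor <;> rintro ⟨h1, h2, h3, h4⟩ <;> exact ⟨by omega, by omega, by omega, by omega⟩

lemma toH_fill : D.toH.fill x y = D.fill y (-x - 1) := by
  have hh := D.hh
  unfold HWin.fill fill
  simp only [toH]
  split_ifs <;> first | rfl | omega

lemma toH_InO : D.toH.InO (rt τ) x y ↔ D.InO τ y (-x - 1) := by
  unfold HWin.InO InO
  rw [toH_InZ, toH_InE, toH_TA, toH_TB, toH_fill]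
  have e1 : (x + y) % 2 = 0 ↔ (y + (-x - 1)) % 2 = 1 := by omega
  have e2 : (x + y) % 2 = 1 ↔ (y + (-x - 1)) % 2 = 0 := by omega
  rw [e1, e2]
  tauto

lemma toH_wA {a b c : ℂ} (H : Pos D τ) (h : D.InE τ y (-x - 1)) :
    D.toH.wA (rt τ) a b c x y = 1 - D.wA τ (1 - a) (1 - c) (1 - b) y (-x - 1) := by
  have hz := h.z H
  have hh := D.hh
  unfold HWin.wA wA rt
  simp only [toH]
  rw [show -(x + 1) - 1 = -x - 1 - 1 by ring, show -(x - 1) - 1 = -x - 1 + 1 by ring]
  by_cases c1 : x < -D.h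
  · have e1 : ¬ -x - 1 < 0 := by omega
    have e2 : D.h ≤ -x - 1 := by omega
    rw [if_pos c1, if_neg e1, if_pos e2]; ring
  · rw [if_neg c1]
    by_cases c2 : (0 : ℤ) ≤ x
    · have e1 : -x - 1 < 0 := by omega
      rw [if_pos c2, if_pos e1]; ring
    · have e1 : ¬ -x - 1 < 0 := by omega
      have e2 : ¬ D.h ≤ -x - 1 := by omega
      rw [if_neg c2, if_neg e1, if_neg e2]
      by_cases c3 : y = τ (-x - 1) - 1
      · rw [if_pos c3, if_pos c3]
        by_cases c4 : 0 < -x - 1 ∧ τ (-x - 1 - 1) < τ (-x - 1)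
        · rw [if_pos ⟨by omega, c4.2⟩, if_pos c4]; ring
        · rw [if_neg (fun h' => c4 ⟨by omega, h'.2⟩), if_neg c4]
          by_cases c5 : -x - 1 + 1 < D.h ∧ τ (-x - 1 + 1) < τ (-x - 1)
          · rw [if_pos ⟨by omega, c5.2⟩, if_pos c5]; ring
          · rw [if_neg (fun h' => c5 ⟨by omega, h'.2⟩), if_neg c5]; ring
      · rw [if_neg c3, if_neg c3]
        by_cases c4 : y < D.a (-x - 1) - 1
        · rw [if_pos c4, if_pos c4]
          by_cases c5 : 0 < -x - 1 ∧ τ (-x - 1 - 1) < τ (-x - 1)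
          · rw [if_pos ⟨by omega, c5.2⟩, if_pos c5]; ring
          · rw [if_neg (fun h' => c5 ⟨by omega, h'.2⟩), if_neg c5]; ring
        · rw [if_neg c4, if_neg c4]; ring

end Win

end Pool.Agent.H54.W
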