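import Mathlib
import Pool.Agent.H54.W.RoomBox
import Pool.Agent.H20.W.SDef

set_option autoImplicit false
set_option linter.constructorNameAsVariable false
open Finset

/-! # The names of helper20 (`Mk`, `nm`) and the names `NE`, `CD.ok`, `CD.pe`

`neK C k` : the name of the corner `k`. `neK_ok` : it exists iff `k` is a mark. `pe_neK` : it is the named end.
`ok_cases` : every existing name is `z` or a mark. -/

namespace Pool.Agent.H54.W

open Pool.Agent.H13.W Pool.Agent.H33.Q1 Pool.Agent.H21.W
open Pool.Agent.H20.W (Mk nm qx qy wd sdp)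

/-- the name of the corner `k` -/
def neK (C : CD) (k : ℤ) : NE := if k < 0 then NE.b else if C.H < k then NE.t else NE.l k

variable {C : CD} {c0 : Bool} {n k l x0 r : ℤ}

lemma neK_neg (h : k < 0) : neK C k = NE.b := by unfold neK; rw [if_pos h]

lemma neK_big (h : C.H < k) : neK C k = NE.t := by
  have := C.H0
  unfold neK; rw [if_neg (by omega), if_pos h]

lemma neK_mid (h0 : 0 ≤ k) (h1 : k ≤ C.H) : neK C k = NE.l k := by
  unfold neK; rw [if_neg (by omega), if_neg (by omega)]

lemma neK_ne_z : neK C k ≠ NE.z := by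
  unfold neK
  split_ifs <;> simp

lemma neK_inj (hk : -1 ≤ k) (hk' : k ≤ C.H + 1) (hl : -1 ≤ l) (hl' : l ≤ C.H + 1)
    (h : neK C k = neK C l) : k = l := by
  have := C.H0
  unfold neK at h
  split_ifs at h <;> simp at h <;> omega

lemma col_lo (h0 : 0 ≤ k) (h1 : k ≤ C.H) : Pool.Agent.H20.W.col C c0 k = C.cLo k := by
  unfold Pool.Agent.H20.W.col CD.cLo
  rw [if_neg (by omega)]
  by_cases h : k = 0
  · rw [if_pos h, if_pos h]
  · rw [if_neg h, if_neg h, if_pos h1]

lemma col_up (h0 : 0 ≤ k) (h1 : k ≤ C.H) : Pool.Agent.H20.W.col C c0 (k + 1) = C.cUp k := by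
  unfold Pool.Agent.H20.W.col CD.cUp
  rw [if_neg (by omega), if_neg (by omega)]
  by_cases h : k = C.H
  · rw [if_neg (by omega), if_pos (by omega), if_pos h]
  · rw [if_pos (by omega), if_neg h, add_sub_cancel_right]

/-- **a corner is a mark iff the name exists** -/
theorem neK_ok (h0 : -1 ≤ k) (h1 : k ≤ C.H + 1) : C.ok c0 (neK C k) ↔ Mk C c0 k := by
  have hH := C.H0
  unfold Mk
  rcases lt_trichotomy k 0 with h | h | h
  · have e : k = -1 := by omega
    subst e
    rw [neK_neg (by omega)]
    have a1 : Pool.Agent.H20.W.col C c0 (-1) = c0 := by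
      unfold Pool.Agent.H20.W.col; rw [if_pos (by omega)]
    have a2 : Pool.Agent.H20.W.col C c0 (-1 + 1) = C.CB := by
      unfold Pool.Agent.H20.W.col; rw [if_neg (by omega), if_pos (by omega)]
    rw [a1, a2]
    unfold CD.ok
    constructor
    · exact fun h2 => ⟨le_rfl, by omega, fun h3 => h2 h3.symm⟩
    · exact fun h2 h3 => h2.2.2 h3.symm
  · rw [neK_mid (by omega) (by omega), col_lo (by omega) (by omega), col_up (by omega) (by omega)]
    unfold CD.ok
    constructor
    · exact fun h2 => ⟨by omega, by omega, h2.2.2⟩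
    · exact fun h2 => ⟨by omega, by omega, h2.2.2⟩
  · by_cases h2 : k ≤ C.H
    · rw [neK_mid (by omega) (by omega), col_lo (by omega) (by omega), col_up (by omega) (by omega)]
      unfold CD.ok
      constructor
      · exact fun h2 => ⟨by omega, by omega, h2.2.2⟩
      · exact fun h2 => ⟨by omega, by omega, h2.2.2⟩
    · have e : k = C.H + 1 := by omega
      subst e
      rw [neK_big (by omega)]
      have a1 : Pool.Agent.H20.W.col C c0 (C.H + 1) = C.CT := by
        unfold Pool.Agent.H20.W.col
        rw [if_neg (by omega), if_neg (by omega), if_neg (by omega), if_pos rfl]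
      have a2 : Pool.Agent.H20.W.col C c0 (C.H + 1 + 1) = !c0 := by
        unfold Pool.Agent.H20.W.col
        rw [if_neg (by omega), if_neg (by omega), if_neg (by omega), if_neg (by omega)]
      rw [a1, a2]
      unfold CD.ok
      constructor
      · rintro h3
        refine ⟨by omega, by omega, ?_⟩
        rw [h3]; cases c0 <;> simp
      · rintro ⟨-, -, h3⟩
        revert h3
        cases C.CT <;> cases c0 <;> simp

lemma wd_neg : wd C c0 (-1) = if c0 = false then 2 else 1 := by
  have a1 : Pool.Agent.H20.W.col C c0 (-1) = c0 := by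
    unfold Pool.Agent.H20.W.col; rw [if_pos (by omega)]
  unfold wd
  rw [if_pos (by omega), a1]

lemma wd_big : wd C c0 (C.H + 1) = if C.CT = false then 0 else 2 := by
  have hH := C.H0
  have a1 : Pool.Agent.H20.W.col C c0 (C.H + 1) = C.CT := by
    unfold Pool.Agent.H20.W.col
    rw [if_neg (by omega), if_neg (by omega), if_neg (by omega), if_pos rfl]
  unfold wd
  rw [if_neg (by omega : ¬ C.H + 1 < 0), if_neg (by omega : ¬ C.H + 1 = 0),
    if_neg (by omega : ¬ C.H + 1 < C.H), if_neg (by omega : ¬ C.H + 1 = C.H), a1]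

lemma wd_mid (h : 0 ≤ k) (h3 : k ≤ C.H) (h2 : C.cLo k ≠ C.cUp k) :
    wd C c0 k = if C.cWl k = false then 3 else if C.cUp k = false then 0 else 1 := by
  have hH := C.H0
  unfold wd
  rw [if_neg (by omega : ¬ k < 0), col_lo h h3]
  by_cases c1 : k = 0
  · have e : C.cWl k = C.cUp k := by
      unfold CD.cWl CD.Dp
      exact if_pos ⟨by omega, Or.inl c1⟩
    rw [if_pos c1, e]
    revert h2
    cases C.cLo k <;> cases C.cUp k <;> simp
  rw [if_neg c1]
  by_cases c2 : k = C.H
  · have e : C.cWl k = C.cLo k := by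
      unfold CD.cWl CD.Dp
      exact if_neg (by omega)
    rw [if_neg (by omega : ¬ k < C.H), if_pos c2, e]
    revert h2
    cases C.cLo k <;> cases C.cUp k <;> simp
  rw [if_pos (by omega : k < C.H)]
  by_cases c3 : C.A (k - 1) < C.A k
  · have e : C.cWl k = C.cLo k := by
      unfold CD.cWl CD.Dp
      exact if_neg (by omega)
    rw [if_pos c3, e]
    revert h2
    cases C.cLo k <;> cases C.cUp k <;> simp
  · have c4 : C.A (k - 1) ≠ C.A k := by
      intro c4
      apply h2
      have := C.sc (k - 1) (by omega) (by omega) (by rw [sub_add_cancel]; exact c4)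
      unfold CD.cLo CD.cUp
      rw [if_neg c1, if_neg c2, this, sub_add_cancel]
    have e : C.cWl k = C.cUp k := by
      unfold CD.cWl CD.Dp
      exact if_pos ⟨by omega, Or.inr (by omega)⟩
    rw [if_neg c3, e]
    revert h2
    cases C.cLo k <;> cases C.cUp k <;> simp

/-- **the named ends agree** -/
theorem pe_neK (h : Mk C c0 k) : C.pe n c0 x0 r (neK C k) = nm C c0 n k := by
  have hH := C.H0
  have hok := (neK_ok (c0 := c0) h.1 h.2.1).2 h
  obtain ⟨h0, h1, -⟩ := h
  unfold nm
  rcases lt_or_ge k 0 with h | h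
  · have e : k = -1 := by omega
    subst e
    have e1 : qx C (-1) = C.W := by unfold qx; exact if_pos (Or.inl (by omega))
    have e2 : qy C (-1) = 0 := by unfold qy; exact if_pos (by omega)
    rw [neK_neg (by omega), wd_neg, e1, e2]
    unfold CD.pe sdp
    simp only [mul_zero]
    cases c0 <;> simp
  by_cases h3 : k ≤ C.H
  · rw [neK_mid h h3] at hok ⊢
    have h2 := hok.2.2
    have e1 : qx C k = C.cX k := by
      unfold qx CD.cX
      exact if_neg (by omega)
    have e2 : qy C k = k := by
      unfold qy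
      rw [if_neg (by omega), if_neg (by omega)]
    rw [e1, e2, wd_mid h h3 h2]
    unfold CD.pe sdp
    simp only
    cases C.cWl k <;> cases C.cUp k <;> simp
  · have e : k = C.H + 1 := by omega
    subst e
    rw [neK_big (by omega)] at hok ⊢
    have e1 : qx C (C.H + 1) = C.W := by unfold qx; exact if_pos (Or.inr (by omega))
    have e2 : qy C (C.H + 1) = C.H := by unfold qy; rw [if_neg (by omega), if_pos (by omega)]
    have e3 : C.CT = c0 := hok
    rw [wd_big, e1, e2, e3]
    unfold CD.pe sdp
    cases c0 <;> simp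

/-- **the existing names** -/
theorem ok_cases {a : NE} (h : C.ok c0 a) : a = NE.z ∨ ∃ k, Mk C c0 k ∧ a = neK C k := by
  have hH := C.H0
  cases a with
  | z => exact Or.inl rfl
  | l Y =>
    have h' : C.ok c0 (neK C Y) := by rw [neK_mid h.1 h.2.1]; exact h
    exact Or.inr ⟨Y, (neK_ok (by have := h.1; omega) (by have := h.2.1; omega)).1 h',
      (neK_mid h.1 h.2.1).symm⟩
  | b =>
    have h' : C.ok c0 (neK C (-1)) := by rw [neK_neg (by omega)]; exact h
    exact Or.inr ⟨-1, (neK_ok (by omega) (by omega)).1 h', (neK_neg (by omega)).symm⟩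
  | t =>
    have h' : C.ok c0 (neK C (C.H + 1)) := by rw [neK_big (by omega)]; exact h
    exact Or.inr ⟨C.H + 1, (neK_ok (by omega) (by omega)).1 h', (neK_big (by omega)).symm⟩

lemma ok_neK (h : Mk C c0 k) : C.ok c0 (neK C k) := (neK_ok h.1 h.2.1).2 h

lemma ok_z : C.ok c0 NE.z := trivial

end Pool.Agent.H54.W
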