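import Mathlib
import Pool.Agent.H21.W.RoomIn
import Pool.Agent.H49.W.CapF
import Pool.Agent.H72.W.NRing
import Pool.Agent.H13.R45.Grid

set_option autoImplicit false
open Finset

/-! # The notches of `CD.win` are not seen

`notch_free` : the mean over the natural window of `CD.win C n he h8 cr` of a functional which does not see
dangling open labels (`Leaf`, helper49) is the mean over the labels `ER C n` of the room (no notches).
`lg C n y` : the grid point (vertex) at which the notch of the row `y` dangles. -/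

namespace Pool.Agent.H54.W

open Pool.Agent.H75.Perc Pool.Agent.H75.TwoArm Pool.Agent.Q1 Pool.Agent.H33.Q1
open Pool.Agent.H75.Four Pool.Agent.H13.Q1 Pool.Agent.H13.R45
open Pool.Agent.H21.W (RP ER mem_ER)
open Pool.Agent.H72.W.N (EN mem_EN InP)
open Pool.Agent.H49.W (Leaf)

/-- labels which are not seen can be dropped -/
theorem Ec_drop {q : ℤ × ℤ → ℂ} {E N : Finset (ℤ × ℤ)} {F : Finset (ℤ × ℤ) → ℂ} (hd : Disjoint E N)
    (h : ∀ e ∈ N, ∀ ω ⊆ E ∪ N, e ∉ ω → F (insert e ω) = F ω) : Ec q (E ∪ N) F = Ec q E F := by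
  induction N using Finset.induction_on with
  | empty => rw [union_empty]
  | insert e N he ih =>
    have hE : e ∉ E := fun h' => disjoint_left.1 hd h' (mem_insert_self _ _)
    have hn : e ∉ E ∪ N := by rw [mem_union]; tauto
    have hs : E ∪ N ⊆ E ∪ insert e N := union_subset_union_right (subset_insert e N)
    have h1 : Ec q (E ∪ N) F = Ec q E F := ih (disjoint_of_subset_right (subset_insert e N) hd)
      (fun e' he' ω hω hn' => h e' (mem_insert_of_mem he') ω (hω.trans hs) hn')
    have h2 : Ec q (E ∪ N) (fun ω => F (insert e ω)) = Ec q (E ∪ N) F :=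
      Ec_congr fun ω hω => h e (mem_insert_self e N) ω (hω.trans hs) (fun h' => hn (hω h'))
    rw [union_insert, Ec_insert q hn, h2, ← h1]
    ring

/-- the vertex at which the notch of the row `y` dangles -/
def lg (C : CD) (n y : ℤ) : ℤ × ℤ := (n * C.A (y / n) - 1, if y % n = 0 then y + 1 else y)

variable {C : CD} {n : ℤ} {y : ℤ} {cr : ℤ → Bool} {W : Finset (ℤ × ℤ)}
  {F : Finset (ℤ × ℤ) → ℂ} {q : ℤ × ℤ → ℂ}

lemma lg_even (he : n % 2 = 0) (_hn : 8 ≤ n) (h : C.Nt n y) : ((lg C n y).1 + (lg C n y).2) % 2 = 0 := by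
  have h1 := Int.emod_add_mul_ediv y n
  have h2 := CD.ev he (C.A (y / n))
  have h3 := CD.ev he (y / n)
  obtain ⟨-, h | h⟩ := h
  · unfold lg; simp only; rw [if_pos h.1]; omega
  · unfold lg; simp only; rw [if_neg (by omega)]; omega

/-- the tiles at the leaf vertex -/
lemma lg_tile (_hn : 8 ≤ n) (h : C.Nt n y) {e : ℤ × ℤ} (hT : Tg (lg C n y) e) :
    e = lt (n * C.A (y / n) - 1, y) ∨ ∃ x z, e = lt (x, z) ∧ n * C.A (y / n) - 2 ≤ x ∧
      x < n * C.A (y / n) ∧ z / n = y / n ∧ y - 1 ≤ z ∧ z ≤ y + 1 ∧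
      (x = n * C.A (y / n) - 1 → z % n ≠ 0 ∧ z % n ≠ n - 1) := by
  have hp : 0 < n := by omega
  have h1 := Int.emod_add_mul_ediv y n
  have h2 := Int.emod_nonneg y hp.ne'
  have h3 := Int.emod_lt_of_pos y hp
  have key : ∀ z, n * (y / n) ≤ z → z < n * (y / n) + n → z / n = y / n ∧ z % n = z - n * (y / n) := by
    intro z k1 k2
    have e : z / n = y / n := by
      rw [show z = (z - n * (y / n)) + n * (y / n) by ring, Int.add_mul_ediv_left _ _ hp.ne',
        Int.ediv_eq_zero_of_lt (by omega) (by omega), zero_add]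
    refine ⟨e, ?_⟩
    have := Int.emod_add_mul_ediv z n
    rw [e] at this
    omega
  unfold Tg lg at hT
  simp only at hT
  obtain ⟨-, h | h⟩ := h
  · rw [if_pos h.1] at hT
    obtain ⟨a1, a2⟩ := key (y + 1) (by omega) (by omega)
    rcases hT with rfl | rfl | rfl | rfl
    · exact Or.inr ⟨_, _, rfl, by omega, by omega, a1, by omega, by omega, fun _ => by omega⟩
    · exact Or.inr ⟨_, _, rfl, by omega, by omega, a1, by omega, by omega, fun _ => by omega⟩
    · exact Or.inl (by rw [add_sub_cancel_right])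
    · exact Or.inr ⟨_, _, rfl, by omega, by omega, by rw [add_sub_cancel_right], by omega, by omega,
        fun _ => by omega⟩
  · rw [if_neg (by omega)] at hT
    obtain ⟨a1, a2⟩ := key (y - 1) (by omega) (by omega)
    rcases hT with rfl | rfl | rfl | rfl
    · exact Or.inl rfl
    · exact Or.inr ⟨_, _, rfl, by omega, by omega, rfl, by omega, by omega, fun _ => by omega⟩
    · exact Or.inr ⟨_, _, rfl, by omega, by omega, a1, by omega, by omega, fun _ => by omega⟩
    · exact Or.inr ⟨_, _, rfl, by omega, by omega, a1, by omega, by omega, fun _ => by omega⟩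

open Classical in
/-- labels of the notches -/
noncomputable def NT (C : CD) (n : ℤ) : Finset (ℤ × ℤ) :=
  ((Ico 0 (n * C.H)).filter fun y => C.Nt n y).image fun y => lt (n * C.A (y / n) - 1, y)

lemma mem_NT {x y : ℤ} : lt (x, y) ∈ NT C n ↔
    0 ≤ y ∧ y < n * C.H ∧ C.Nt n y ∧ x = n * C.A (y / n) - 1 := by
  unfold NT
  simp only [mem_image, mem_filter, mem_Ico]
  constructor
  · rintro ⟨z, ⟨⟨h1, h2⟩, h3⟩, h4⟩
    have := lt_inj h4
    simp only [Prod.mk.injEq] at this
    obtain ⟨rfl, rfl⟩ := this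
    exact ⟨h1, h2, h3, rfl⟩
  · rintro ⟨h1, h2, h3, rfl⟩
    exact ⟨y, ⟨⟨h1, h2⟩, h3⟩, rfl⟩

/-- the random labels of the window of coarse data -/
theorem EN_win (he : n % 2 = 0) (h8 : 8 ≤ n) :
    EN (C.win n he h8 cr) false = ER C n ∪ NT C n := by
  have hp : 0 < n := by omega
  ext e
  by_cases ho : (e.1 + e.2) % 2 = 1
  · rw [← lt_tt ho]
    generalize tt e = t
    obtain ⟨x, y⟩ := t
    rw [mem_EN, mem_union, mem_ER hp, mem_NT]
    unfold InP Pool.Agent.H72.W.N.sh RP
    have ew : (C.win n he h8 cr).w = n * C.W := rfl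
    have eh : (C.win n he h8 cr).h = n * C.H := rfl
    have ea : (C.win n he h8 cr).a y = C.wa n y := rfl
    rw [ew, eh, ea]
    simp only [Bool.false_eq_true, if_false, add_zero]
    constructor
    · rintro ⟨h1, h2, h3, h4⟩
      rcases C.wa_cases n y with ⟨c, e⟩ | ⟨c, e⟩
      · by_cases hx : n * C.A (y / n) ≤ x
        · exact Or.inl ⟨h1, h2, hx, h4⟩
        · exact Or.inr ⟨h1, h2, c, by omega⟩
      · exact Or.inl ⟨h1, h2, by omega, h4⟩
    · rintro (⟨h1, h2, h3, h4⟩ | ⟨h1, h2, h3, h4⟩)
      · refine ⟨h1, h2, ?_, h4⟩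
        rcases C.wa_cases n y with ⟨c, e⟩ | ⟨c, e⟩ <;> omega
      · have hr := CD.row_of (C := C) hp h1 h2
        have h5 := C.AW _ hr.1 hr.2
        have h6 := CD.mul_lt hp h5
        refine ⟨h1, h2, ?_, by omega⟩
        rcases C.wa_cases n y with ⟨c, e⟩ | ⟨c, e⟩
        · omega
        · exact absurd h3 c
  · constructor
    · intro h
      exfalso
      apply ho
      unfold EN Pool.Agent.H72.W.N.TB at h
      simp only [mem_image] at h
      obtain ⟨t, -, rfl⟩ := h
      exact lt_odd t
    · intro h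
      exfalso
      apply ho
      rcases mem_union.1 h with h | h
      · exact Pool.Agent.H21.W.odd_ER h
      · unfold NT at h
        simp only [mem_image] at h
        obtain ⟨t, -, rfl⟩ := h
        exact lt_odd _

/-- **The notches are not seen.** `W` : no open label to the left of a row of the colour `false`, at distance
at most two. -/
theorem notch_free (he : n % 2 = 0) (h8 : 8 ≤ n)
    (hF : ∀ y, 0 ≤ y → y < n * C.H → C.Nt n y → Leaf F true (gp (lg C n y)))
    (hW : ∀ x y, 0 ≤ y → y < n * C.H → C.CL (y / n) = false → n * C.A (y / n) - 2 ≤ x →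
      x < n * C.A (y / n) → lt (x, y) ∉ W) :
    Ec q (EN (C.win n he h8 cr) false) (fun ω => F (ω ∪ W)) =
      Ec q (ER C n) (fun ω => F (ω ∪ W)) := by
  have hp : 0 < n := by omega
  rw [EN_win he h8]
  refine Ec_drop ?_ ?_
  · rw [disjoint_left]
    intro e h1 h2
    have ho := Pool.Agent.H21.W.odd_ER h1
    rw [← lt_tt ho] at h1 h2
    generalize tt e = t at h1 h2
    obtain ⟨x, y⟩ := t
    rw [mem_ER hp] at h1
    rw [mem_NT] at h2
    have := h1.2.2.1
    omega
  · intro e he' ω hω hn
    obtain ⟨y, h1, rfl⟩ : ∃ y, (0 ≤ y ∧ y < n * C.H ∧ C.Nt n y) ∧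
        lt (n * C.A (y / n) - 1, y) = e := by
      unfold NT at he'
      simp only [mem_image, mem_filter, mem_Ico] at he'
      obtain ⟨y, ⟨⟨a, b⟩, c⟩, d⟩ := he'
      exact ⟨y, ⟨a, b, c⟩, d⟩
    obtain ⟨h1, h2, h3⟩ := h1
    have hL := hF y h1 h2 h3
    have hev := lg_even he h8 h3
    have hno : ∀ e', Tg (lg C n y) e' → e' ∉ ω ∪ W := by
      intro e' hT
      rw [mem_union, not_or]
      have hcl := h3.1
      rcases lg_tile h8 h3 hT with rfl | ⟨x, z, rfl, k1, k2, k3, k4, k5, k6⟩
      · exact ⟨hn, hW _ _ h1 h2 hcl (by omega) (by omega)⟩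
      · have hr := CD.row_of (C := C) hp h1 h2
        have k7 := Int.emod_add_mul_ediv z n
        have k8 := Int.emod_nonneg z hp.ne'
        have k9 := Int.emod_lt_of_pos z hp
        rw [k3] at k7
        have k10 : 0 ≤ n * (y / n) := mul_nonneg hp.le hr.1
        have k11 := CD.mul_lt hp hr.2
        have z0 : 0 ≤ z := by omega
        have z1 : z < n * C.H := by omega
        constructor
        · intro hm
          rcases mem_union.1 (hω hm) with hm | hm
          · have := ((mem_ER hp).1 hm).2.2.1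
            rw [k3] at this
            omega
          · obtain ⟨-, -, m1, m2⟩ := mem_NT.1 hm
            rw [k3] at m2
            have k12 := k6 m2
            obtain ⟨-, m | m⟩ := m1 <;> omega
        · exact hW x z z0 z1 (by rw [k3]; exact hcl) (by rw [k3]; exact k1) (by rw [k3]; exact k2)
    have hT0 : Tg (lg C n y) (lt (n * C.A (y / n) - 1, y)) := by
      unfold Tg lg
      simp only
      by_cases c : y % n = 0
      · rw [if_pos c]
        exact Or.inr (Or.inr (Or.inl (by rw [add_sub_cancel_right])))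
      · rw [if_neg c]
        exact Or.inl rfl
    obtain ⟨c, hc1, hc2⟩ := exists_at hT0
    have hev' : Pool.Agent.H13.R45.ev (lg C n y) = true := by
      have : lg C n y = ((lg C n y).1, (lg C n y).2) := rfl
      rw [this, ev_true]; exact hev
    have hc3 : vx c = gp (lg C n y) := by
      unfold Ag At at hc1
      rw [if_pos hev'] at hc1
      exact hc1
    have hrest : ∀ x, vx x = gp (lg C n y) → lab x ∉ ω ∪ W := by
      intro x hx
      refine hno _ (lab_at ?_)
      unfold Ag At
      rw [if_pos hev']; exact hx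
    have := hL.op rfl (ω ∪ W) c hc3 (hrest c hc3) hrest
    rw [hc2] at this
    rw [insert_union]
    exact this

end Pool.Agent.H54.W
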