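import Mathlib
import Pool.Agent.H54.W.RoomBox
import Pool.Agent.H54.W.Notch

set_option autoImplicit false
set_option linter.constructorNameAsVariable false
open Finset

/-! # The natural window functional is the room functional

`Rbox`, `Rroom` : the relation `joined` on the names of the ends in the box and in the room graph.
`nat_room` : the mean over the natural window `EN (C.win n he h8 cr) false` of a function of `Rbox` is the mean
over the labels `ER C n` of the same function of `Rroom` (weights arbitrary). -/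

namespace Pool.Agent.H54.W

open Pool.Agent.H75.Perc Pool.Agent.H75.TwoArm Pool.Agent.Q1 Pool.Agent.H33.Q1
open Pool.Agent.H13.W
open Pool.Agent.H13.R45 (gp)
open Pool.Agent.H21.W
open Pool.Agent.H72.W.N (EN)
open Pool.Agent.H49.W (Leaf)

/-- joined in the box -/
def Rbox (C : CD) (n : ℤ) (c0 : Bool) (x0 r X1 X2 Y1 Y2 : ℤ) (w : Finset (ℤ × ℤ)) (a b : NE) : Prop :=
  C.ok c0 a ∧ C.ok c0 b ∧ (SG (Zb X1 X2 Y1 Y2) (DR x0 r) w).Reachable (C.be n c0 x0 r X1 X2 a)
    (C.be n c0 x0 r X1 X2 b)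

/-- joined in the room graph -/
def Rroom (C : CD) (n : ℤ) (cr : ℤ → Bool) (c0 : Bool) (x0 r : ℤ) (ω : Finset (ℤ × ℤ)) (a b : NE) : Prop :=
  C.ok c0 a ∧ C.ok c0 b ∧ (SG (LR C n cr) (DR x0 r) (WR0 C n cr ∪ ω)).Reachable (C.pe n c0 x0 r a)
    (C.pe n c0 x0 r b)

/-- every name has a partner in the room graph -/
def Partner (C : CD) (n : ℤ) (cr : ℤ → Bool) (c0 : Bool) (x0 r : ℤ) : Prop :=
  ∀ ω ⊆ ER C n, ∀ a, C.ok c0 a → ∃ b, C.ok c0 b ∧ b ≠ a ∧
    (SG (LR C n cr) (DR x0 r) (WR0 C n cr ∪ ω)).Reachable (C.pe n c0 x0 r a) (C.pe n c0 x0 r b)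

variable {C : CD} {n : ℤ} {cr : ℤ → Bool} {c0 : Bool} {x0 r X1 X2 Y1 Y2 : ℤ} {w ω : Finset (ℤ × ℤ)}
  {q : ℤ × ℤ → ℂ}

/-- the relations on the names agree -/
theorem Rbox_eq (h : BoxIn C n cr c0 x0 r X1 X2 Y1 Y2 w) (hP : Partner C n cr c0 x0 r) (hω : ω ⊆ ER C n) :
    Rbox C n c0 x0 r X1 X2 Y1 Y2 (ω ∪ w) = Rroom C n cr c0 x0 r ω := by
  funext a b
  apply propext
  unfold Rbox Rroom
  rw [union_comm]
  constructor
  · rintro ⟨ha, hb, h1⟩
    exact ⟨ha, hb, (h.box_room hω (hP ω hω) ha hb).1 h1⟩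
  · rintro ⟨ha, hb, h1⟩
    exact ⟨ha, hb, (h.box_room hω (hP ω hω) ha hb).2 h1⟩

/-- left of a row of the colour `false` there is no open label in the box -/
lemma BoxIn.left_closed (h : BoxIn C n cr c0 x0 r X1 X2 Y1 Y2 w) {x y : ℤ} (h0 : 0 ≤ y)
    (h1 : y < n * C.H) (h2 : C.CL (y / n) = false) (h3 : n * C.A (y / n) - 2 ≤ x)
    (h4 : x < n * C.A (y / n)) : lt (x, y) ∉ w := by
  have hn := h.n0
  have hr := CD.row_of (C := C) hn h0 h1
  have k1 := C.lo _ hr.1 hr.2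
  have k2 : n * C.LO ≤ n * C.A (y / n) := mul_le_mul_of_nonneg_left k1 hn.le
  have k3 : n * C.A (y / n) ≤ n * C.W := mul_le_mul_of_nonneg_left (C.AW _ hr.1 hr.2).le hn.le
  have e1 := h.x1; have e2 := h.x2; have e3 := h.y1; have e4 := h.y2
  have hP : ¬ RP C n x y := fun h5 => by have := h5.2.2.1; omega
  have hD : ¬ (y = r ∧ x0 ≤ x) := by
    rintro ⟨rfl, h6⟩
    have := h.zin.2.2.1
    omega
  rw [h.col x y (by omega) (by omega) (by omega) (by omega) hP hD]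
  unfold fillC
  rw [if_neg (by omega), if_neg (by omega), if_pos h4, h2]
  simp

/-- **The natural window functional is the room functional.** `hL` : the function of the box does not see a
dangling open label at the notches. -/
theorem nat_room (he : n % 2 = 0) (h8 : 8 ≤ n) (h : BoxIn C n cr c0 x0 r X1 X2 Y1 Y2 w)
    (hP : Partner C n cr c0 x0 r) (Ψ : (NE → NE → Prop) → ℂ)
    (hL : ∀ y, 0 ≤ y → y < n * C.H → C.Nt n y →
      Leaf (fun w' => Ψ (Rbox C n c0 x0 r X1 X2 Y1 Y2 w')) true (gp (lg C n y))) :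
    Ec q (EN (C.win n he h8 cr) false) (fun ω => Ψ (Rbox C n c0 x0 r X1 X2 Y1 Y2 (ω ∪ w))) =
      Ec q (ER C n) (fun ω => Ψ (Rroom C n cr c0 x0 r ω)) := by
  rw [notch_free (F := fun w' => Ψ (Rbox C n c0 x0 r X1 X2 Y1 Y2 w')) he h8 hL
    (fun x y h0 h1 h2 h3 h4 => h.left_closed h0 h1 h2 h3 h4)]
  exact Ec_congr fun ω hω => by rw [Rbox_eq h hP hω]

end Pool.Agent.H54.W
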