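import Mathlib
import Pool.Agent.H54.W.Names
import Pool.Agent.H54.W.NatRoom
import Pool.Agent.H62.W.Phi

set_option autoImplicit false
set_option linter.constructorNameAsVariable false
open Finset

/-! # The natural window functional is helper20's `FT`

`PsT θ R = ∑ⱼ τ ^ j 1[z is joined to the mark x j by steps of R (existing names) and arcs of θ]`.
`FT_room` : `FT θ n (x0, r)` is the mean of `PsT θ` of the room relation. `nat_FT` : it is the mean over the
natural window `EN (C.win n he h8 cr) false` of helper62's `Phi` with `Ψ = PsT θ`. -/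

namespace Pool.Agent.H54.W

open Pool.Agent.H75.Perc Pool.Agent.H75.TwoArm Pool.Agent.Q1 Pool.Agent.H33.Q1
open Pool.Agent.H13.W
open Pool.Agent.H13.R45 (gp)
open Pool.Agent.H21.W
open Pool.Agent.H72.W.N (EN)
open Pool.Agent.H49.W (Leaf)
open Pool.Agent.H20.W (Mk nm Th GR GT FT crz)
open Pool.Agent.H62.W (Phi PhiG ZS mem_ZS zone_Phi)

variable {C : CD} {n : ℤ} {c0 : Bool} {x0 r X1 X2 Y1 Y2 : ℤ} {w ω : Finset (ℤ × ℤ)}
  {cr : ℤ → Bool}

/-- one step: joined, or an arc -/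
def StT (θ : Th C c0) (R : NE → NE → Prop) (a b : NE) : Prop :=
  (C.ok c0 a ∧ C.ok c0 b ∧ R a b) ∨ ∃ k, Mk C c0 k ∧ a = neK C k ∧ b = neK C (θ.m k)

open Classical in
/-- **The function of the relation on the names** -/
noncomputable def PsT (θ : Th C c0) (R : NE → NE → Prop) : ℂ :=
  ∑ j : Fin 3, Pool.Agent.H74.W.tau ^ (j : ℕ) *
    (if Relation.ReflTransGen (StT θ R) NE.z (neK C (θ.x j)) then (1 : ℂ) else 0)

lemma StT_ok (θ : Th C c0) (R : NE → NE → Prop) :
    StT θ (fun a b => C.ok c0 a ∧ C.ok c0 b ∧ R a b) = StT θ R := by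
  funext a b
  unfold StT
  apply propext
  tauto

/-- names which do not exist are not seen -/
lemma PsT_ok (θ : Th C c0) (R : NE → NE → Prop) :
    PsT θ (fun a b => C.ok c0 a ∧ C.ok c0 b ∧ R a b) = PsT θ R := by
  unfold PsT
  rw [StT_ok]

/-- the probability as a mean -/
theorem Ec_Pr {α : Type*} [DecidableEq α] (E : Finset α) (A : Finset α → Prop) [DecidablePred A] :
    Ec (fun _ => (1 / 2 : ℂ)) E (fun ω => if A ω then (1 : ℂ) else 0) = (Pr E A : ℂ) := by
  rw [Ec_half, Pr_eq, ← sum_filter, sum_const, nsmul_eq_mul, mul_one]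
  push_cast
  rw [div_pow, one_pow]
  ring

/-- **Reachability in the room graph with arcs** -/
theorem GT_iff (θ : Th C c0) {a : NE} (ha : C.ok c0 a) :
    (GT θ n (x0, r) ω).Reachable (eW (lt (x0, r))) (C.pe n c0 x0 r a) ↔
      Relation.ReflTransGen (StT θ (Rroom C n (crz c0 r) c0 x0 r ω)) NE.z a := by
  constructor
  · intro h
    rw [SimpleGraph.reachable_iff_reflTransGen] at h
    have key : ∀ c, Relation.ReflTransGen (GT θ n (x0, r) ω).Adj (eW (lt (x0, r))) c →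
        ∃ b, C.ok c0 b ∧ Relation.ReflTransGen (StT θ (Rroom C n (crz c0 r) c0 x0 r ω)) NE.z b ∧
          (GR C c0 n (x0, r) ω).Reachable (C.pe n c0 x0 r b) c := by
      intro c hc
      induction hc with
      | refl => exact ⟨NE.z, trivial, Relation.ReflTransGen.refl, SimpleGraph.Reachable.refl _⟩
      | @tail c c' _ hs ih =>
        obtain ⟨b, hb, h1, h2⟩ := ih
        have hs' : (GR C c0 n (x0, r) ω ⊔ θ.G n).Adj c c' := hs
        rw [SimpleGraph.sup_adj] at hs'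
        rcases hs' with hs' | hs'
        · exact ⟨b, hb, h1, h2.trans hs'.reachable⟩
        · unfold Th.G at hs'
          rw [SimpleGraph.fromRel_adj] at hs'
          obtain ⟨k, hk, e1, e2⟩ : ∃ k, Mk C c0 k ∧ c = nm C c0 n k ∧ c' = nm C c0 n (θ.m k) := by
            rcases hs'.2 with ⟨k, hk, e1, e2⟩ | ⟨k, hk, e1, e2⟩
            · exact ⟨k, hk, e1, e2⟩
            · exact ⟨θ.m k, θ.mm k hk, e2, by rw [θ.inv k hk]; exact e1⟩
          have hk' := θ.mm k hk
          rw [e1, ← pe_neK (x0 := x0) (r := r) hk] at h2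
          refine ⟨neK C (θ.m k), ok_neK hk', (h1.tail (Or.inl ⟨hb, ok_neK hk, hb, ok_neK hk, h2⟩)).tail
            (Or.inr ⟨k, hk, rfl, rfl⟩), ?_⟩
          rw [e2, pe_neK hk']
    obtain ⟨b, hb, h1, h2⟩ := key _ h
    exact h1.tail (Or.inl ⟨hb, ha, hb, ha, h2⟩)
  · intro h
    have key : ∀ b, Relation.ReflTransGen (StT θ (Rroom C n (crz c0 r) c0 x0 r ω)) NE.z b →
        (GT θ n (x0, r) ω).Reachable (eW (lt (x0, r))) (C.pe n c0 x0 r b) := by
      intro b hb
      induction hb with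
      | refl => exact SimpleGraph.Reachable.refl _
      | @tail b b' _ hs ih =>
        refine ih.trans ?_
        rcases hs with ⟨-, -, -, -, h2⟩ | ⟨k, hk, rfl, rfl⟩
        · exact SimpleGraph.Reachable.mono (le_sup_left : GR C c0 n (x0, r) ω ≤ GT θ n (x0, r) ω) h2
        · rw [pe_neK hk, pe_neK (θ.mm k hk)]
          by_cases e : nm C c0 n k = nm C c0 n (θ.m k)
          · rw [e]
          · refine SimpleGraph.Adj.reachable ?_
            refine Or.inr ?_
            unfold Th.G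
            rw [SimpleGraph.fromRel_adj]
            exact ⟨e, Or.inl ⟨k, hk, rfl, rfl⟩⟩
    exact key a h

/-- **`FT` is a mean over the labels of the room.** -/
theorem FT_room (θ : Th C c0) : FT θ n (x0, r) =
    Ec (fun _ => (1 / 2 : ℂ)) (ER C n) (fun ω => PsT θ (Rroom C n (crz c0 r) c0 x0 r ω)) := by
  classical
  unfold FT PsT
  rw [Ec_sum]
  refine sum_congr rfl fun j _ => ?_
  rw [Ec_smul]
  congr 1
  rw [← Ec_Pr]
  refine Ec_congr fun ω _ => ?_
  have hx := θ.xm j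
  have h1 := GT_iff (n := n) (x0 := x0) (r := r) (ω := ω) θ (ok_neK hx)
  rw [pe_neK hx] at h1
  simp only [h1]

/-- the four labels at the vertex of a notch belong to the zone of the box -/
lemma notch_zone (h8 : 8 ≤ n) (h : BoxIn C n cr c0 x0 r X1 X2 Y1 Y2 w) {y : ℤ} (h0 : 0 ≤ y)
    (h1 : y < n * C.H) (h2 : C.Nt n y) {e : ℤ × ℤ} (hT : Pool.Agent.H13.R45.Tg (lg C n y) e) :
    e ∈ ZS X1 X2 Y1 Y2 x0 r := by
  have hp := h.n0
  have hr := CD.row_of (C := C) hp h0 h1
  have k1 := C.lo _ hr.1 hr.2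
  have k2 : n * C.LO ≤ n * C.A (y / n) := mul_le_mul_of_nonneg_left k1 hp.le
  have k3 : n * C.A (y / n) ≤ n * C.W := mul_le_mul_of_nonneg_left (C.AW _ hr.1 hr.2).le hp.le
  have e1 := h.x1; have e2 := h.x2; have e3 := h.y1; have e4 := h.y2
  have hz := h.zin.2.2.1
  rcases lg_tile h8 h2 hT with rfl | ⟨x, z, rfl, a1, a2, a3, a4, a5, -⟩
  · rw [mem_ZS]
    refine ⟨⟨by omega, by omega, by omega, by omega⟩, ?_⟩
    rintro ⟨rfl, h6⟩
    omega
  · rw [mem_ZS]
    refine ⟨⟨by omega, by omega, by omega, by omega⟩, ?_⟩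
    rintro ⟨rfl, h6⟩
    rw [a3] at hz
    omega

/-- **The functional of the box does not see the notches.** -/
theorem leaf_Rbox (he : n % 2 = 0) (h8 : 8 ≤ n) (h : BoxIn C n cr c0 x0 r X1 X2 Y1 Y2 w)
    (θ : Th C c0) (y : ℤ) (h0 : 0 ≤ y) (h1 : y < n * C.H) (h2 : C.Nt n y) :
    Leaf (fun w' => PsT θ (Rbox C n c0 x0 r X1 X2 Y1 Y2 w')) true (gp (lg C n y)) := by
  have e : (fun w' => PsT θ (Rbox C n c0 x0 r X1 X2 Y1 Y2 w')) =
      PhiG (Zb X1 X2 Y1 Y2) (DR x0 r) (C.be n c0 x0 r X1 X2) (PsT θ) := by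
    funext w'
    unfold Rbox
    exact PsT_ok θ _
  rw [e]
  refine (zone_Phi C n c0).leaf ?_ (fun hc => absurd hc (by simp))
  intro _ u hu
  have hev := lg_even he h8 h2
  refine notch_zone h8 h h0 h1 h2 ?_
  unfold Pool.Agent.H13.R45.Tg
  unfold gp at hu ⊢
  generalize lg C n y = g at hu hev ⊢
  obtain ⟨a, b⟩ := g
  obtain ⟨u1, u2⟩ := u
  unfold IsUnit4 at hu
  unfold lt
  simp only [Prod.mk.injEq, Prod.mk_add_mk, Prod.mk_sub_mk] at hu hev ⊢
  omega

/-- **The natural window functional is `FT`.** -/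
theorem nat_FT (he : n % 2 = 0) (h8 : 8 ≤ n) (h : BoxIn C n (crz c0 r) c0 x0 r X1 X2 Y1 Y2 w)
    (hP : Partner C n (crz c0 r) c0 x0 r) (θ : Th C c0) :
    Ec (fun _ => (1 / 2 : ℂ)) (EN (C.win n he h8 cr) false)
      (fun ω => Phi C n c0 x0 r X1 X2 Y1 Y2 (PsT θ) (ω ∪ w)) = FT θ n (x0, r) := by
  rw [FT_room, ← nat_room (cr := crz c0 r) he h8 h hP (PsT θ) (leaf_Rbox he h8 h θ), EN_win, EN_win]
  refine Ec_congr fun ω _ => ?_
  unfold Phi PhiG Rbox
  exact (PsT_ok θ _).symm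

end Pool.Agent.H54.W
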