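import Mathlib
import Pool.Agent.H54.W.DefH

set_option autoImplicit false
open Finset

/-! # The tiles around a window (columns, horizontal line)

`OutTH D τ x y c` : the tile `(x, y)` is not random when the line is at the position `τ`, and it is open iff
`c = true`, for every choice of the far labels. This is `Outs.lean` in the frame of `DefH.lean`.

Columns: `NoRunH D τ x` : no run and no turn tile in the column `x`; `outDH` : tiles below the union in such a
column, `outDH_RS`, `outDH_RN` : tiles below the turn tile of a run in the column, `outUH` : the tile above the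
column, `outLH`, `outLH1`, `outRH`, `outRH1` : columns to the left and to the right of the window.

Runs: `RS_iff`, `RN_iff`; `RS_right`, `RN_left`, `RL_right`, `RR_left` : the tiles on the inner side are in the
union and not on the line; `RS_out`, `RN_out` : outer side.
Turn tiles: `HTA_mem`, `HTB_mem` (state). Line: `LnH_up`, `LnH_down`. -/

namespace Pool.Agent.H54.W

open Pool.Agent.H75.Perc Pool.Agent.H75.TwoArm Pool.Agent.Q1 Pool.Agent.H33.Q1
open Pool.Agent.H75.Four Pool.Agent.H69.Q1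

open HWin

variable {D : HWin} {τ : ℤ → ℤ} {x y : ℤ} {c : Bool}

/-- a tile which is not random and is open iff `c = true` -/
structure OutTH (D : HWin) (τ : ℤ → ℤ) (x y : ℤ) (c : Bool) : Prop where
  ne : ¬ D.InE τ x y
  z : D.InZ x y
  o : D.InO τ x y ↔ c = true

theorem OutTH.not_mem (H : HPos D τ) (h : OutTH D τ x y c) : lt (x, y) ∉ D.EH τ := by
  rw [mem_EH H]; exact h.ne

theorem OutTH.mem (h : OutTH D τ x y c) (O : HOut D) : lt (x, y) ∈ D.WH τ O.Wo ↔ c = true := by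
  unfold WH
  rw [mem_union, HWin.mem_WR, ← h.o]
  refine ⟨fun h2 => ?_, Or.inl⟩
  rcases h2 with h2 | h2
  · exact h2
  · exact absurd h.z (O.far _ _ h2)

/-- a tile of the outside which is not a turn tile -/
theorem OutTH.of_fill (h1 : D.InZ x y) (h2 : ¬ D.InE τ x y) (h3 : ¬ D.TA τ x y) (h4 : ¬ D.TB τ x y) :
    OutTH D τ x y (D.fill x y) := by
  refine ⟨h2, h1, ?_⟩
  unfold InO
  constructor
  · rintro ⟨-, -, h | h | h⟩
    · exact absurd h.1 h3
    · exact absurd h.1 h4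
    · exact h.2.2
  · intro h
    exact ⟨h1, h2, Or.inr (Or.inr ⟨h3, h4, h⟩)⟩

/-- the column `x` contains no run and no turn tile -/
def NoRunH (D : HWin) (τ : ℤ → ℤ) (x : ℤ) : Prop :=
  ¬ (x + 1 < D.q ∧ τ (x + 1) < τ x) ∧ ¬ (D.p < x ∧ τ (x - 1) < τ x)

theorem noRunH_of_lt (H : HPos D τ) (h0 : D.p ≤ x) (h1 : x < D.q) (h : D.a x < τ x) :
    NoRunH D τ x := by
  constructor
  · rintro ⟨h2, h3⟩
    have := H.dn x h0 h2 h3
    omega
  · rintro ⟨h2, h3⟩
    have := H.up (x - 1) (by omega) (by omega) (by rwa [sub_add_cancel])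
    rw [sub_add_cancel] at this
    omega

theorem noRunH_of_eq (h2 : D.p < x → τ (x - 1) = τ x) (h3 : x + 1 < D.q → τ (x + 1) = τ x) :
    NoRunH D τ x := by
  constructor
  · rintro ⟨g1, g2⟩
    have := h3 g1
    omega
  · rintro ⟨g1, g2⟩
    have := h2 g1
    omega

/-- the three cases of a column -/
theorem col_cases (D : HWin) (τ : ℤ → ℤ) (x : ℤ) :
    NoRunH D τ x ∨ (x + 1 < D.q ∧ τ (x + 1) < τ x) ∨ (D.p < x ∧ τ (x - 1) < τ x) := by
  unfold NoRunH
  tauto

theorem NoRunH.not_RS (h : NoRunH D τ x) : ¬ D.RS τ x y := by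
  rintro ⟨h1, h2, h3, h4⟩
  exact h.1 ⟨h2, by omega⟩

theorem NoRunH.not_RN (h : NoRunH D τ x) : ¬ D.RN τ x y := by
  rintro ⟨h1, h2, h3, h4⟩
  exact h.2 ⟨h1, by omega⟩

theorem NoRunH.not_TB (h : NoRunH D τ x) (h0 : D.p ≤ x) : ¬ D.TB τ x y := by
  rintro (⟨g1, g2, g3, g4⟩ | ⟨g1, g2⟩)
  · exact h.1 ⟨g2, g3⟩
  · omega

theorem NoRunH.not_TA (h : NoRunH D τ x) (h1 : x < D.q) : ¬ D.TA τ x y := by
  rintro (⟨g1, g2, g3, g4⟩ | ⟨g1, g2⟩)
  · exact h.2 ⟨g1, g3⟩
  · omega

/-! ### Runs in their columns -/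

theorem riseH_a (H : HPos D τ) (h0 : D.p < x) (h1 : x < D.q) (h : τ (x - 1) < τ x) :
    τ x = D.a x ∧ D.a (x - 1) < D.a x := by
  have k := H.up (x - 1) (by omega) (by omega) (by rwa [sub_add_cancel])
  rw [sub_add_cancel] at k
  have := H.lo (x - 1) (by omega) (by omega)
  omega

theorem dropH_a (H : HPos D τ) (h0 : D.p ≤ x) (h1 : x + 1 < D.q) (h : τ (x + 1) < τ x) :
    τ x = D.a x ∧ D.a (x + 1) < D.a x := by
  have k := H.dn x (by omega) (by omega) h
  have := H.lo (x + 1) (by omega) (by omega)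
  omega

/-- the run of a column with a drop on its right -/
theorem RS_iff (H : HPos D τ) (h0 : D.p ≤ x) (h1 : x + 1 < D.q) (h : τ (x + 1) < τ x) :
    D.RS τ x y ↔ τ (x + 1) ≤ y ∧ y < D.a x - 1 := by
  rw [← (dropH_a H h0 h1 h).1]
  exact ⟨fun g => ⟨g.2.2.1, g.2.2.2⟩, fun g => ⟨h0, h1, g.1, g.2⟩⟩

/-- the run of a column with a rise on its left -/
theorem RN_iff (H : HPos D τ) (h0 : D.p < x) (h1 : x < D.q) (h : τ (x - 1) < τ x) :
    D.RN τ x y ↔ τ (x - 1) ≤ y ∧ y < D.a x - 1 := by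
  rw [← (riseH_a H h0 h1 h).1]
  exact ⟨fun g => ⟨g.2.2.1, g.2.2.2⟩, fun g => ⟨h0, h1, g.1, g.2⟩⟩

/-- no drop in the columns after a rise -/
theorem no_dropH (h0 : D.p < x) (h : D.a (x - 1) < D.a x) {z : ℤ} (h1 : x < z) (h2 : z < x + 4)
    (h3 : z < D.q) : D.a (z - 1) ≤ D.a z := by
  by_contra hc
  have := D.ud x z h0 h1 h3 h (by omega)
  omega

/-- no rise in the columns before a drop -/
theorem no_riseH (h0 : x + 1 < D.q) (h : D.a (x + 1) < D.a x) {z : ℤ} (h1 : z ≤ x)
    (h2 : x < z + 3) (h3 : D.p < z) : D.a z ≤ D.a (z - 1) := by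
  by_contra hc
  have := D.ud z (x + 1) h3 (by omega) h0 (by omega) (by rwa [add_sub_cancel_right])
  omega

theorem RS_right (H : HPos D τ) (h : D.RS τ x y) : D.InU (x + 1) y ∧ D.a (x + 1) ≤ y ∧
    ¬ D.Ln τ (x + 1) y := by
  obtain ⟨h1, h2, h3, h4⟩ := h
  have k2 := H.lo (x + 1) (by omega) (by omega)
  have k3 := H.hi x (by omega) (by omega)
  refine ⟨⟨by omega, by omega, by omega, by omega⟩, by omega, ?_⟩
  rintro ⟨-, -, g⟩
  omega

theorem RN_left (H : HPos D τ) (h : D.RN τ x y) : D.InU (x - 1) y ∧ D.a (x - 1) ≤ y ∧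
    ¬ D.Ln τ (x - 1) y := by
  obtain ⟨h1, h2, h3, h4⟩ := h
  have k2 := H.lo (x - 1) (by omega) (by omega)
  have k3 := H.hi x (by omega) (by omega)
  refine ⟨⟨by omega, by omega, by omega, by omega⟩, by omega, ?_⟩
  rintro ⟨-, -, g⟩
  omega

theorem RL_right (H : HPos D τ) (h : D.RL τ x y) : x = D.p - 1 ∧ D.InU D.p y ∧ D.a D.p ≤ y ∧
    ¬ D.Ln τ D.p y := by
  obtain ⟨h1, h2, h3⟩ := h
  have hh := D.hh
  have k2 := H.lo D.p le_rfl (by omega)
  refine ⟨h1, ⟨le_rfl, by omega, by omega, by omega⟩, by omega, ?_⟩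
  rintro ⟨-, -, g⟩
  omega

theorem RR_left (H : HPos D τ) (h : D.RR τ x y) : x = D.q ∧ D.InU (D.q - 1) y ∧ D.a (D.q - 1) ≤ y ∧
    ¬ D.Ln τ (D.q - 1) y := by
  obtain ⟨h1, h2, h3⟩ := h
  have hh := D.hh
  have k2 := H.lo (D.q - 1) (by omega) (by omega)
  refine ⟨h1, ⟨by omega, by omega, by omega, by omega⟩, by omega, ?_⟩
  rintro ⟨-, -, g⟩
  omega

/-! ### Colours -/

theorem fillH_below (h0 : D.p ≤ x) (h1 : x < D.q) (h : y < D.a x) : D.fill x y = D.c x := by
  unfold fill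
  rw [if_neg (by omega), if_neg (by omega), if_pos h]

theorem fillH_above (h0 : D.p ≤ x) (h1 : x < D.q) (h : D.a x ≤ y) : D.fill x y = D.cc x := by
  unfold fill
  rw [if_neg (by omega), if_neg (by omega), if_neg (by omega)]

theorem fillH_left (h : x < D.p) : D.fill x y = D.cL := by unfold fill; rw [if_pos h]

theorem fillH_right (h : D.q ≤ x) : D.fill x y = D.cR := by
  have := D.hh
  unfold fill; rw [if_neg (by omega), if_pos h]

theorem InEH_col (h0 : D.p ≤ x) (h1 : x < D.q) :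
    D.InE τ x y ↔ (D.a x - 1 ≤ y ∧ y < D.w) ∨ D.RS τ x y ∨ D.RN τ x y := by
  unfold InE InU RL RR
  constructor
  · rintro (h | h | h | h | h)
    · exact Or.inl ⟨h.2.2.1, h.2.2.2⟩
    · exact Or.inr (Or.inl h)
    · exact Or.inr (Or.inr h)
    · exact absurd h.1 (by omega)
    · exact absurd h.1 (by omega)
  · rintro (h | h | h)
    · exact Or.inl ⟨h0, h1, h⟩
    · exact Or.inr (Or.inl h)
    · exact Or.inr (Or.inr (Or.inl h))

/-- tiles below the union in a column without a run -/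
theorem outDH (h0 : D.p ≤ x) (h1 : x < D.q) (hn : NoRunH D τ x) (h2 : D.lo ≤ y + 2)
    (h3 : y < D.a x - 1) : OutTH D τ x y (D.c x) := by
  have haw := D.aw x h0 h1
  rw [← fillH_below (y := y) h0 h1 (by omega)]
  refine OutTH.of_fill ⟨by omega, by omega, h2, by omega⟩ ?_ (hn.not_TA h1) (hn.not_TB h0)
  rw [InEH_col h0 h1]
  rintro (h | h | h)
  · omega
  · exact hn.not_RS h
  · exact hn.not_RN h

/-- tiles below the turn tile of a column with a drop on its right -/
theorem outDH_RS (H : HPos D τ) (h0 : D.p ≤ x) (h1 : x + 1 < D.q) (h : τ (x + 1) < τ x)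
    (h2 : D.lo ≤ y + 2) (h3 : y < τ (x + 1) - 1) : OutTH D τ x y (D.c x) := by
  obtain ⟨k1, k2⟩ := dropH_a H h0 h1 h
  have haw := D.aw x h0 (by omega)
  rw [← fillH_below (y := y) h0 (by omega) (by omega)]
  have hd : ¬ (D.p < x ∧ τ (x - 1) < τ x) := fun g => up_dn H g.1 h1 g.2 h
  refine OutTH.of_fill ⟨by omega, by omega, h2, by omega⟩ ?_ ?_ ?_
  · rw [InEH_col h0 (by omega)]
    rintro (g | g | g)
    · omega
    · have := g.2.2.1; omega
    · exact hd ⟨g.1, by have := g.2.2; omega⟩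
  · rintro (⟨g1, g2, g3, g4⟩ | ⟨g1, g2⟩)
    · exact hd ⟨g1, g3⟩
    · omega
  · rintro (⟨g1, g2, g3, g4⟩ | ⟨g1, g2⟩) <;> omega

/-- tiles below the turn tile of a column with a rise on its left -/
theorem outDH_RN (H : HPos D τ) (h0 : D.p < x) (h1 : x < D.q) (h : τ (x - 1) < τ x)
    (h2 : D.lo ≤ y + 2) (h3 : y < τ (x - 1) - 1) : OutTH D τ x y (D.c x) := by
  obtain ⟨k1, k2⟩ := riseH_a H h0 h1 h
  have haw := D.aw x h0.le h1
  rw [← fillH_below (y := y) h0.le h1 (by omega)]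
  have hd : ¬ (x + 1 < D.q ∧ τ (x + 1) < τ x) := fun g => up_dn H h0 g.1 h g.2
  refine OutTH.of_fill ⟨by omega, by omega, h2, by omega⟩ ?_ ?_ ?_
  · rw [InEH_col h0.le h1]
    rintro (g | g | g)
    · omega
    · exact hd ⟨g.2.1, by have := g.2.2; omega⟩
    · have := g.2.2.1; omega
  · rintro (⟨g1, g2, g3, g4⟩ | ⟨g1, g2⟩) <;> omega
  · rintro (⟨g1, g2, g3, g4⟩ | ⟨g1, g2⟩)
    · exact hd ⟨g2, g3⟩
    · omega

/-- the tile above a column -/
theorem outUH (H : HPos D τ) (h0 : D.p ≤ x) (h1 : x < D.q) : OutTH D τ x D.w (D.cc x) := by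
  have haw := D.aw x h0 h1
  have hlo := D.hlo x h0 h1
  rw [← fillH_above (y := D.w) h0 h1 (by omega)]
  have hi := H.hi x h0 h1
  refine OutTH.of_fill ⟨by omega, by omega, by omega, le_rfl⟩ ?_ ?_ ?_
  · rw [InEH_col h0 h1]
    rintro (g | g | g)
    · omega
    · have := g.2.2.2; omega
    · have := g.2.2.2; omega
  · rintro (⟨g1, g2, g3, g4⟩ | ⟨g1, g2⟩)
    · omega
    · omega
  · rintro (⟨g1, g2, g3, g4⟩ | ⟨g1, g2⟩)
    · omega
    · omega

theorem loH_w (D : HWin) : D.lo + 2 ≤ D.w := by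
  have hh := D.hh
  have h1 := D.hlo D.p le_rfl (by omega)
  have h2 := D.aw D.p le_rfl (by omega)
  omega

/-- the second column to the right of the window -/
theorem outRH (h1 : D.lo ≤ y + 2) (h2 : y ≤ D.w) : OutTH D τ (D.q + 1) y D.cR := by
  have hh := D.hh
  rw [← fillH_right (D := D) (x := D.q + 1) (y := y) (by omega)]
  refine OutTH.of_fill ⟨by omega, by omega, h1, h2⟩ ?_ ?_ ?_
  · rintro (g | g | g | g | g)
    · have := g.2.1; omega
    · have := g.2.1; omega
    · have := g.2.1; omega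
    · have := g.1; omega
    · have := g.1; omega
  · rintro (⟨g1, g2, g3, g4⟩ | ⟨g1, g2⟩) <;> omega
  · rintro (⟨g1, g2, g3, g4⟩ | ⟨g1, g2⟩) <;> omega

/-- the column to the right of the window outside of the run and the turn tile -/
theorem outRH1 (H : HPos D τ) (h1 : D.lo ≤ y + 2) (h2 : y ≤ D.w) (h3 : y < τ (D.q - 1) - 1 ∨ y = D.w) :
    OutTH D τ D.q y D.cR := by
  have hh := D.hh
  have hi := H.hi (D.q - 1) (by omega) (by omega)
  rw [← fillH_right (D := D) (x := D.q) (y := y) le_rfl]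
  refine OutTH.of_fill ⟨by omega, by omega, h1, h2⟩ ?_ ?_ ?_
  · rintro (g | g | g | g | g)
    · have := g.2.1; omega
    · have := g.2.1; omega
    · have := g.2.1; omega
    · have := g.1; omega
    · have := g.2; omega
  · rintro (⟨g1, g2, g3, g4⟩ | ⟨g1, g2⟩) <;> omega
  · rintro (⟨g1, g2, g3, g4⟩ | ⟨g1, g2⟩) <;> omega

/-- the second column to the left of the window -/
theorem outLH (h1 : D.lo ≤ y + 2) (h2 : y ≤ D.w) : OutTH D τ (D.p - 2) y D.cL := by
  have hh := D.hh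
  rw [← fillH_left (D := D) (x := D.p - 2) (y := y) (by omega)]
  refine OutTH.of_fill ⟨by omega, by omega, h1, h2⟩ ?_ ?_ ?_
  · rintro (g | g | g | g | g)
    · have := g.1; omega
    · have := g.1; omega
    · have := g.1; omega
    · have := g.1; omega
    · have := g.1; omega
  · rintro (⟨g1, g2, g3, g4⟩ | ⟨g1, g2⟩) <;> omega
  · rintro (⟨g1, g2, g3, g4⟩ | ⟨g1, g2⟩) <;> omega

/-- the column to the left of the window outside of the run and the turn tile -/
theorem outLH1 (H : HPos D τ) (h1 : D.lo ≤ y + 2) (h2 : y ≤ D.w) (h3 : y < τ D.p - 1 ∨ y = D.w) :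
    OutTH D τ (D.p - 1) y D.cL := by
  have hh := D.hh
  have hi := H.hi D.p le_rfl (by omega)
  rw [← fillH_left (D := D) (x := D.p - 1) (y := y) (by omega)]
  refine OutTH.of_fill ⟨by omega, by omega, h1, h2⟩ ?_ ?_ ?_
  · rintro (g | g | g | g | g)
    · have := g.1; omega
    · have := g.1; omega
    · have := g.1; omega
    · have := g.2; omega
    · have := g.1; omega
  · rintro (⟨g1, g2, g3, g4⟩ | ⟨g1, g2⟩) <;> omega
  · rintro (⟨g1, g2, g3, g4⟩ | ⟨g1, g2⟩) <;> omega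

/-! ### Outer sides of the runs -/

/-- the tile to the right of a run to the north (or of its turn tile) -/
theorem RN_out (H : HPos D τ) (h0 : D.p < x) (h1 : x < D.q) (h : τ (x - 1) < τ x)
    (h2 : D.lo ≤ y + 2) (h3 : y < D.a x - 1) : OutTH D τ (x + 1) y (D.c x) ∧ x + 1 < D.q := by
  obtain ⟨k1, k2⟩ := riseH_a H h0 h1 h
  have hy : x + 4 ≤ D.q := (D.fe x h0 h1 (by omega)).2
  have e : D.c x = D.c (x + 1) := D.cup x h0 (by omega) k2
  have n1 := no_dropH h0 k2 (z := x + 1) (by omega) (by omega) (by omega)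
  rw [add_sub_cancel_right] at n1
  have n2 := no_dropH h0 k2 (z := x + 2) (by omega) (by omega) (by omega)
  rw [show x + 2 - 1 = x + 1 by ring] at n2
  have l1 := H.lo (x + 1) (by omega) (by omega)
  have haw := D.aw (x + 1) (by omega) (by omega)
  refine ⟨?_, by omega⟩
  rw [e, ← fillH_below (x := x + 1) (y := y) (by omega) (by omega) (by omega)]
  refine OutTH.of_fill ⟨by omega, by omega, h2, by omega⟩ ?_ ?_ ?_
  · rw [InEH_col (by omega) (by omega)]
    rintro (g | g | g)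
    · omega
    · have := (g.pos H).2
      rw [show x + 1 + 1 = x + 2 by ring] at this
      omega
    · have := g.2.2.1
      rw [add_sub_cancel_right] at this
      omega
  · rintro (⟨g1, g2, g3, g4⟩ | ⟨g1, g2⟩)
    · rw [add_sub_cancel_right] at g4
      omega
    · omega
  · rintro (⟨g1, g2, g3, g4⟩ | ⟨g1, g2⟩)
    · have := dropH_a H (by omega) g2 g3
      rw [show x + 1 + 1 = x + 2 by ring] at this
      omega
    · omega

/-- the tile to the left of a run to the south (or of its turn tile) -/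
theorem RS_out (H : HPos D τ) (h0 : D.p ≤ x) (h1 : x + 1 < D.q) (h : τ (x + 1) < τ x)
    (h2 : D.lo ≤ y + 2) (h3 : y < D.a x - 1) : OutTH D τ (x - 1) y (D.c x) ∧ D.p ≤ x - 1 := by
  obtain ⟨k1, k2⟩ := dropH_a H h0 h1 h
  have hy : D.p + 4 ≤ x + 1 := (D.fe (x + 1) (by omega) h1 (by rw [add_sub_cancel_right]; omega)).1
  have e : D.c x = D.c (x - 1) := (D.cdn x (by omega) h1 k2).symm
  have n1 := no_riseH h1 k2 (z := x) le_rfl (by omega) (by omega)
  have n2 := no_riseH h1 k2 (z := x - 1) (by omega) (by omega) (by omega)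
  have l1 := H.lo (x - 1) (by omega) (by omega)
  have haw := D.aw (x - 1) (by omega) (by omega)
  refine ⟨?_, by omega⟩
  rw [e, ← fillH_below (x := x - 1) (y := y) (by omega) (by omega) (by omega)]
  refine OutTH.of_fill ⟨by omega, by omega, h2, by omega⟩ ?_ ?_ ?_
  · rw [InEH_col (by omega) (by omega)]
    rintro (g | g | g)
    · omega
    · have := g.2.2.1
      rw [sub_add_cancel] at this
      omega
    · have := (g.pos H).2
      omega
  · rintro (⟨g1, g2, g3, g4⟩ | ⟨g1, g2⟩)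
    · have := riseH_a H g1 g2 g3
      omega
    · omega
  · rintro (⟨g1, g2, g3, g4⟩ | ⟨g1, g2⟩)
    · rw [sub_add_cancel] at g4
      omega
    · omega

/-! ### Turn tiles -/

theorem InO_HTA (H : HPos D τ) (h : D.TA τ x y) (hz : D.InZ x y) :
    D.InO τ x y ↔ (x + y) % 2 = 0 := by
  unfold InO
  constructor
  · rintro ⟨-, -, g | g | g⟩
    · exact g.2
    · exact absurd g.1 (h.not_TB H)
    · exact absurd h g.1
  · intro g
    exact ⟨hz, h.not_InE H, Or.inl ⟨h, g⟩⟩

theorem InO_HTB (H : HPos D τ) (h : D.TB τ x y) (hz : D.InZ x y) :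
    D.InO τ x y ↔ (x + y) % 2 = 1 := by
  unfold InO
  constructor
  · rintro ⟨-, -, g | g | g⟩
    · exact absurd h (g.1.not_TB H)
    · exact g.2
    · exact absurd h g.2.1
  · intro g
    exact ⟨hz, h.not_InE H, Or.inr (Or.inl ⟨h, g⟩)⟩

theorem HTA_z (H : HPos D τ) (h : D.TA τ x y) : D.InZ x y := by
  have hh := D.hh
  unfold InZ
  rcases h with ⟨h1, h2, h3, h4⟩ | ⟨h1, h2⟩
  · have k1 := H.lo (x - 1) (by omega) (by omega)
    have k2 := D.hlo (x - 1) (by omega) (by omega)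
    have k3 := H.hi (x - 1) (by omega) (by omega)
    omega
  · have k1 := H.lo (D.q - 1) (by omega) (by omega)
    have k2 := D.hlo (D.q - 1) (by omega) (by omega)
    have k3 := H.hi (D.q - 1) (by omega) (by omega)
    omega

theorem HTB_z (H : HPos D τ) (h : D.TB τ x y) : D.InZ x y := by
  have hh := D.hh
  unfold InZ
  rcases h with ⟨h1, h2, h3, h4⟩ | ⟨h1, h2⟩
  · have k1 := H.lo (x + 1) (by omega) (by omega)
    have k2 := D.hlo (x + 1) (by omega) (by omega)
    have k3 := H.hi (x + 1) (by omega) (by omega)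
    omega
  · have k1 := H.lo D.p le_rfl (by omega)
    have k2 := D.hlo D.p le_rfl (by omega)
    have k3 := H.hi D.p le_rfl (by omega)
    omega

/-- the turn tile {W-N, S-E} is open iff `x + y` is even -/
theorem HTA_mem (H : HPos D τ) (h : D.TA τ x y) (O : HOut D) :
    lt (x, y) ∈ D.WH τ O.Wo ↔ (x + y) % 2 = 0 := by
  have hz := HTA_z H h
  unfold WH
  rw [mem_union, HWin.mem_WR, InO_HTA H h hz]
  refine ⟨fun h2 => ?_, Or.inl⟩
  rcases h2 with h2 | h2
  · exact h2
  · exact absurd hz (O.far _ _ h2)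

/-- the turn tile {W-S, N-E} is open iff `x + y` is odd -/
theorem HTB_mem (H : HPos D τ) (h : D.TB τ x y) (O : HOut D) :
    lt (x, y) ∈ D.WH τ O.Wo ↔ (x + y) % 2 = 1 := by
  have hz := HTB_z H h
  unfold WH
  rw [mem_union, HWin.mem_WR, InO_HTB H h hz]
  refine ⟨fun h2 => ?_, Or.inl⟩
  rcases h2 with h2 | h2
  · exact h2
  · exact absurd hz (O.far _ _ h2)

/-! ### Tiles of the line -/

/-- the tile above a tile of the line is in the union and not shifted -/
theorem LnH_up (H : HPos D τ) (h0 : D.p ≤ x) (h1 : x < D.q) (h : τ x < D.w) :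
    D.InU x (τ x) ∧ D.a x ≤ τ x ∧ ¬ D.Ln τ x (τ x) := by
  have := H.lo x h0 h1
  refine ⟨⟨h0, h1, by omega, h⟩, this, ?_⟩
  rintro ⟨-, -, g⟩
  omega

theorem LnH_up_out (H : HPos D τ) (h0 : D.p ≤ x) (h1 : x < D.q) (h : τ x = D.w) :
    OutTH D τ x (τ x) (D.cc x) := by
  rw [h]; exact outUH H h0 h1

/-- the tile below a tile of the line which is not at the lower end of the column -/
theorem LnH_down (H : HPos D τ) (h0 : D.p ≤ x) (h1 : x < D.q) (h : D.a x < τ x) :
    D.InU x (τ x - 2) ∧ ¬ D.Ln τ x (τ x - 2) := by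
  have := H.hi x h0 h1
  refine ⟨⟨h0, h1, by omega, by omega⟩, ?_⟩
  rintro ⟨-, -, g⟩
  omega

/-- the tile below a tile of the line at the lower end of a column without a run -/
theorem LnH_down_out (h0 : D.p ≤ x) (h1 : x < D.q) (hn : NoRunH D τ x) (h : τ x = D.a x) :
    OutTH D τ x (τ x - 2) (D.c x) := by
  have := D.hlo x h0 h1
  exact outDH h0 h1 hn (by omega) (by omega)

end Pool.Agent.H54.W
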