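import Pool.Agent.H72.W.NXB
import Pool.Agent.H54.Sp.FlatBox

set_option autoImplicit false
open Finset

/-! # Flat boxes of a window of the class `H54.W.Win`

Successor of `H54/Sp/FlatBox` (`hS`, `cS`, `Sq` are the same). `FlatBox D p s0 s i g r` : in the square of
radius `r` around `g` the domain `P^p` is the half plane `0 ≤ hS` and the arc of the other tiles is `i`. Fill
tiles, layer tiles, ties, removed tiles and frozen tiles in such a box. -/

namespace Pool.Agent.H54.W.N

open Pool.Agent.H75.Perc Pool.Agent.H75.TwoArm Pool.Agent.Q1 Pool.Agent.H33.Q1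
open Pool.Agent.H69.Q1
open Pool.Agent.H54.W (Win Out)
open Pool.Agent.H72.W.N
open Pool.Agent.H54.Sp (hS cS Sq)
open Pool.Agent.H42.Sp (Sd Ix kt rt kt_odd rt_even kt_Tg rt_Tg)
open Pool.Agent.H13.R45 (ev gp ev_true ev_false Tg)
open Pool.Agent.H74.R45 (exists_lt)

/-- **Flat box**: the domain is a half plane of the kind `s`, the outside belongs to the arc `i`. -/
structure FlatBox (D : Win) (p : Bool) (s0 : ℤ) (s : Sd) (i : ℤ) (g : ℤ × ℤ) (r : ℤ) : Prop where
  inP : ∀ x y, Sq g r x y → (InP D p x y ↔ 0 ≤ hS s g x y)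
  arc : ∀ x y, Sq g r x y → hS s g x y < 0 → arc D p s0 x y = i

variable {D : Win} {p : Bool} {s0 i r r' x y : ℤ} {s s' : Sd} {c : Bool} {g : ℤ × ℤ}

open Pool.Agent.H54.Sp (Sq.mono)

lemma FlatBox.mono (h : FlatBox D p s0 s i g r') (hr : r ≤ r') : FlatBox D p s0 s i g r :=
  ⟨fun x y hx => h.inP x y (hx.mono hr), fun x y hx => h.arc x y (hx.mono hr)⟩

/-- a tile is near the domain iff one of its nine neighbours is in the domain -/
lemma nearP_iff : NearP D (x + sh p) y ↔
    ∃ u v, x ≤ u + 1 ∧ u ≤ x + 1 ∧ y ≤ v + 1 ∧ v ≤ y + 1 ∧ InP D p u v := by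
  constructor
  · rintro ⟨Z, h1, h2, h3, h4, h5, h6⟩
    have h7 := D.aw Z h3 h4
    have key : ∃ u, x ≤ u + 1 ∧ u ≤ x + 1 ∧ D.a Z ≤ u + sh p ∧ u + sh p < D.w := by
      by_cases k1 : x + sh p < D.a Z
      · exact ⟨x + 1, by omega, by omega, by omega, by omega⟩
      · by_cases k2 : x + sh p < D.w
        · exact ⟨x, by omega, by omega, by omega, by omega⟩
        · exact ⟨x - 1, by omega, by omega, by omega, by omega⟩
    obtain ⟨u, k1, k2, k3, k4⟩ := key
    exact ⟨u, Z, k1, k2, by omega, by omega, h3, h4, k3, k4⟩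
  · rintro ⟨u, v, h1, h2, h3, h4, h5, h6, h7, h8⟩
    exact ⟨v, by omega, by omega, h5, h6, by omega, by omega⟩

/-- another centre on the same line -/
lemma FlatBox.move (h : FlatBox D p s0 s i g r') {g' : ℤ × ℤ}
    (hl : hS s g g'.1 g'.2 = hS s g g.1 g.2) (h1 : g.1 - (r' - r) ≤ g'.1 ∧ g'.1 ≤ g.1 + (r' - r))
    (h2 : g.2 - (r' - r) ≤ g'.2 ∧ g'.2 ≤ g.2 + (r' - r)) : FlatBox D p s0 s i g' r := by
  have e : ∀ x y, hS s g' x y = hS s g x y := by
    intro x y
    cases s <;> simp only [hS] at hl ⊢ <;> omega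
  have hq : ∀ x y, Sq g' r x y → Sq g r' x y := by
    intro x y hx
    unfold Sq at hx ⊢; omega
  exact ⟨fun x y hx => by rw [e]; exact h.inP x y (hq x y hx),
    fun x y hx hn => h.arc x y (hq x y hx) (by rwa [e] at hn)⟩

/-- parity of the inner end of a kept tile -/
lemma ev_bt {t : ℤ × ℤ} (h : (t.1 + t.2) % 2 = 1) : ev (bt s c t) = c := by
  obtain ⟨u, v⟩ := t
  cases c <;> cases s <;> simp only [bt] <;> (first | rw [ev_true] | rw [ev_false]) <;>
    simp only at h <;> omega

/-- the kept tile of a tie is just outside of the line through its inner end -/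
lemma hS_bt (t : ℤ × ℤ) : hS s (bt s c t) t.1 t.2 = -1 := by
  obtain ⟨u, v⟩ := t
  cases c <;> cases s <;> simp only [bt, hS] <;> omega

section box

variable (hB : FlatBox D p s0 s i g r)

include hB

lemma FlatBox.near (h : Sq g (r - 1) x y) : NearP D (x + sh p) y ↔ -1 ≤ hS s g x y := by
  rw [nearP_iff]
  unfold Sq at h
  constructor
  · rintro ⟨u, v, h1, h2, h3, h4, h5⟩
    rw [hB.inP u v (by unfold Sq; omega)] at h5
    cases s <;> simp only [hS] at h5 ⊢ <;> omega
  · intro h1
    refine ⟨x + (dr s).1, y + (dr s).2, ?_, ?_, ?_, ?_, ?_⟩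
    · cases s <;> simp only [dr] <;> omega
    · cases s <;> simp only [dr] <;> omega
    · cases s <;> simp only [dr] <;> omega
    · cases s <;> simp only [dr] <;> omega
    · rw [hB.inP _ _ (by unfold Sq; cases s <;> simp only [dr] <;> omega)]
      cases s <;> simp only [hS, dr] at h1 ⊢ <;> omega

/-- fill tiles -/
lemma FlatBox.fill (h : Sq g (r - 1) x y) : Fill D p x y ↔ hS s g x y ≤ -2 := by
  unfold Fill
  rw [hB.near h]
  omega

/-- ring tiles -/
lemma FlatBox.ring (h : Sq g (r - 1) x y) : H72.W.N.Ring D p x y ↔ hS s g x y = -1 := by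
  unfold H72.W.N.Ring
  rw [hB.near h, hB.inP x y (h.mono (by omega))]
  omega

/-- natural colours -/
lemma FlatBox.natc (h : Sq g r x y) (h1 : hS s g x y < 0) : natc D p x y = colp D i := by
  rw [← hB.arc x y h h1, colp_arc]

/-- layer tiles -/
lemma FlatBox.ly (h : Sq g (r - 1) x y) : LyA D p s' x y ↔ s' = s ∧ hS s g x y = -1 := by
  have h' := h
  unfold Sq at h'
  constructor
  · intro h1
    have h2 := h1.inn
    have h3 := h1.out
    rw [hB.inP _ _ (by unfold Sq; cases s' <;> simp only [dr] <;> omega)] at h2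
    rw [hB.inP _ _ (by unfold Sq; omega)] at h3
    cases s <;> cases s' <;> simp only [hS, dr] at h2 h3 ⊢ <;>
      first
      | (exfalso; omega)
      | exact ⟨trivial, by omega⟩
  · rintro ⟨rfl, h1⟩
    have key : ∀ a b : ℤ, -1 ≤ a → a ≤ 1 → -1 ≤ b → b ≤ 1 →
        (InP D p (x + a) (y + b) ↔ 0 ≤ hS s' g (x + a) (y + b)) := fun a b _ _ _ _ =>
      hB.inP _ _ (by unfold Sq; omega)
    unfold LyA
    cases s'
    · have k1 := key 1 0 (by omega) (by omega) (by omega) (by omega)
      have k2 := key 0 0 (by omega) (by omega) (by omega) (by omega)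
      have k3 := key 0 (-1) (by omega) (by omega) (by omega) (by omega)
      have k4 := key 0 1 (by omega) (by omega) (by omega) (by omega)
      simp only [hS, add_zero, ← sub_eq_add_neg] at h1 k1 k2 k3 k4
      unfold H72.W.N.InP at k1 k2 k3 k4
      have h2 := k1.2 (by omega)
      exact ⟨h2.1, h2.2.1, by omega, fun h3 => by omega, fun h3 => by omega⟩
    · have k1 := key (-1) 0 (by omega) (by omega) (by omega) (by omega)
      have k2 := key 0 0 (by omega) (by omega) (by omega) (by omega)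
      simp only [hS, add_zero, ← sub_eq_add_neg] at h1 k1 k2
      unfold H72.W.N.InP at k1 k2
      have h2 := k1.2 (by omega)
      exact ⟨h2.1, h2.2.1, by omega⟩
    · have k1 := key 0 1 (by omega) (by omega) (by omega) (by omega)
      have k2 := key 0 0 (by omega) (by omega) (by omega) (by omega)
      have k4 := key 1 0 (by omega) (by omega) (by omega) (by omega)
      simp only [hS, add_zero] at h1 k1 k2 k4
      unfold H72.W.N.InP at k1 k2 k4
      have h2 := k1.2 (by omega)
      refine ⟨by omega, h2.2.1, by omega, by omega, ?_⟩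
      intro h3
      have := D.aw y h3 (by omega)
      omega
    · have k1 := key 0 (-1) (by omega) (by omega) (by omega) (by omega)
      have k2 := key 0 0 (by omega) (by omega) (by omega) (by omega)
      have k4 := key 1 0 (by omega) (by omega) (by omega) (by omega)
      simp only [hS, add_zero, ← sub_eq_add_neg] at h1 k1 k2 k4
      unfold H72.W.N.InP at k1 k2 k4
      have h2 := k1.2 (by omega)
      refine ⟨by omega, by omega, by omega, by omega, ?_⟩
      intro h3
      have := D.aw y (by omega) h3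
      omega

/-- the tie points -/
lemma FlatBox.ca {X Y : ℤ} (h : Sq g (r - 2) X Y) :
    CA D p (s', (X, Y)) ↔ s' = s ∧ hS s g X Y = cS s ∧
      ((X + Y) % 2 = 1 ↔ colp D i = true) := by
  have h' := h
  unfold Sq at h'
  have k1 := hB.ly (s' := s') (x := X) (y := Y) (by unfold Sq; omega)
  have k2 := hB.ly (s' := s') (x := X) (y := Y - 1) (by unfold Sq; omega)
  have k3 := hB.ly (s' := s') (x := X - 1) (y := Y) (by unfold Sq; omega)
  have k4 := hB.ly (s' := s') (x := X - 1) (y := Y - 1) (by unfold Sq; omega)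
  have n1 := hB.natc (x := X) (y := Y) (by unfold Sq; omega)
  have n2 := hB.natc (x := X) (y := Y - 1) (by unfold Sq; omega)
  have n3 := hB.natc (x := X - 1) (y := Y) (by unfold Sq; omega)
  have n4 := hB.natc (x := X - 1) (y := Y - 1) (by unfold Sq; omega)
  cases s
  · simp only [hS, cS] at *
    constructor
    · intro hc
      have hs : s' = .L := by
        cases s' <;> simp only [H72.W.N.CA, k1, k2, k3, k4] at hc <;> simp_all
      subst hs
      simp only [H72.W.N.CA, k1, k2, Col4] at hc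
      obtain ⟨⟨-, h1⟩, ⟨-, h2⟩, h3, -⟩ := hc
      rw [n1 (by omega)] at h3
      exact ⟨rfl, by omega, h3⟩
    · rintro ⟨rfl, h1, h2⟩
      simp only [H72.W.N.CA, k1, k2, Col4]
      rw [n1 (by omega), n2 (by omega), n3 (by omega), n4 (by omega)]
      exact ⟨⟨trivial, by omega⟩, ⟨trivial, by omega⟩, h2, h2, h2, h2⟩
  · simp only [hS, cS] at *
    constructor
    · intro hc
      have hs : s' = .R := by
        cases s' <;> simp only [H72.W.N.CA, k1, k2, k3, k4] at hc <;> simp_all
      subst hs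
      simp only [H72.W.N.CA, k3, k4, Col4] at hc
      obtain ⟨⟨-, h1⟩, ⟨-, h2⟩, h3, -⟩ := hc
      rw [n1 (by omega)] at h3
      exact ⟨rfl, by omega, h3⟩
    · rintro ⟨rfl, h1, h2⟩
      simp only [H72.W.N.CA, k3, k4, Col4]
      rw [n1 (by omega), n2 (by omega), n3 (by omega), n4 (by omega)]
      exact ⟨⟨trivial, by omega⟩, ⟨trivial, by omega⟩, h2, h2, h2, h2⟩
  · simp only [hS, cS] at *
    constructor
    · intro hc
      have hs : s' = .F := by
        cases s' <;> simp only [H72.W.N.CA, k1, k2, k3, k4] at hc <;> simp_all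
      subst hs
      simp only [H72.W.N.CA, k1, k3, Col4] at hc
      obtain ⟨⟨-, h1⟩, ⟨-, h2⟩, h3, -⟩ := hc
      rw [n1 (by omega)] at h3
      exact ⟨rfl, by omega, h3⟩
    · rintro ⟨rfl, h1, h2⟩
      simp only [H72.W.N.CA, k1, k3, Col4]
      rw [n1 (by omega), n2 (by omega), n3 (by omega), n4 (by omega)]
      exact ⟨⟨trivial, by omega⟩, ⟨trivial, by omega⟩, h2, h2, h2, h2⟩
  · simp only [hS, cS] at *
    constructor
    · intro hc
      have hs : s' = .C := by
        cases s' <;> simp only [H72.W.N.CA, k1, k2, k3, k4] at hc <;> simp_all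
      subst hs
      simp only [H72.W.N.CA, k2, k4, Col4] at hc
      obtain ⟨⟨-, h1⟩, ⟨-, h2⟩, h3, -⟩ := hc
      rw [n1 (by omega)] at h3
      exact ⟨rfl, by omega, h3⟩
    · rintro ⟨rfl, h1, h2⟩
      simp only [H72.W.N.CA, k2, k4, Col4]
      rw [n1 (by omega), n2 (by omega), n3 (by omega), n4 (by omega)]
      exact ⟨⟨trivial, by omega⟩, ⟨trivial, by omega⟩, h2, h2, h2, h2⟩

/-- the kept tiles -/
theorem FlatBox.tie {u v : ℤ} (h : Sq g (r - 3) u v) :
    TieP D p s' c u v ↔ s' = s ∧ c = colp D i ∧ hS s g u v = -1 ∧ (u + v) % 2 = 1 := by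
  unfold Sq at h
  have k1 := hB.ca (s' := s') (X := u) (Y := v) (by unfold Sq; omega)
  have k2 := hB.ca (s' := s') (X := u) (Y := v + 1) (by unfold Sq; omega)
  have k3 := hB.ca (s' := s') (X := u + 1) (Y := v) (by unfold Sq; omega)
  have k4 := hB.ca (s' := s') (X := u + 1) (Y := v + 1) (by unfold Sq; omega)
  unfold TieP
  generalize colp D i = C at *
  cases s' <;> cases c <;> simp only [gt, k1, k2, k3, k4] <;>
    (constructor
     · rintro ⟨h1, ⟨rfl, h2, h3⟩, h4⟩
       cases C <;> simp [hS, cS] at h2 h3 h4 ⊢ <;> omega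
     · rintro ⟨rfl, rfl, h2, h3⟩
       simp [hS, cS] at h2 ⊢
       omega)

/-- the removed tile of a tie -/
lemma FlatBox.rem1 {x y : ℤ} (h : Sq g (r - 3) x y) {k : Ix} (h1 : CA D p k) (h2 : rt k = (x, y)) :
    (hS s g x y = -1 ∧ (x + y) % 2 = 0) ∧ (ev k.2 = true ↔ colp D i = false) := by
  obtain ⟨t, X, Y⟩ := k
  unfold Sq at h
  have h3 : (x ≤ X ∧ X ≤ x + 1) ∧ y ≤ Y ∧ Y ≤ y + 1 := by
    cases t <;> simp only [rt] at h2 <;> split_ifs at h2 <;> simp only [Prod.mk.injEq] at h2 <;>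
      omega
  rw [hB.ca (by unfold Sq; omega)] at h1
  obtain ⟨rfl, h4, h5⟩ := h1
  rw [ev_true]
  constructor
  · cases t <;> simp only [rt] at h2 <;> split_ifs at h2 <;> simp only [Prod.mk.injEq] at h2 <;>
      simp only [hS, cS] at h4 ⊢ <;> omega
  · generalize colp D i = C at *
    cases C <;> simp at h5 ⊢ <;> omega

/-- the tie of a removed tile -/
lemma FlatBox.rem2 {x y : ℤ} (h : Sq g (r - 3) x y) (h1 : hS s g x y = -1)
    (h2 : (x + y) % 2 = 0) : ∃ k, CA D p k ∧ rt k = (x, y) := by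
  unfold Sq at h
  have k1 := hB.ca (s' := s) (X := x) (Y := y) (by unfold Sq; omega)
  have k2 := hB.ca (s' := s) (X := x) (Y := y + 1) (by unfold Sq; omega)
  have k3 := hB.ca (s' := s) (X := x + 1) (Y := y) (by unfold Sq; omega)
  have k4 := hB.ca (s' := s) (X := x + 1) (Y := y + 1) (by unfold Sq; omega)
  generalize colp D i = C at *
  cases s <;> cases C
  · refine ⟨_, k1.2 ⟨rfl, h1, by simp; omega⟩, ?_⟩
    simp only [rt]; rw [if_neg (by omega)]
  · refine ⟨_, k2.2 ⟨rfl, h1, by simp; omega⟩, ?_⟩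
    simp only [rt]; rw [if_pos (by omega)]; simp
  · refine ⟨_, k4.2 ⟨rfl, by simp only [hS, cS] at h1 ⊢; omega, by simp; omega⟩, ?_⟩
    simp only [rt]; rw [if_neg (by omega)]; simp
  · refine ⟨_, k3.2 ⟨rfl, by simp only [hS, cS] at h1 ⊢; omega, by simp; omega⟩, ?_⟩
    simp only [rt]; rw [if_pos (by omega)]; simp
  · refine ⟨_, k1.2 ⟨rfl, h1, by simp; omega⟩, ?_⟩
    simp only [rt]; rw [if_neg (by omega)]
  · refine ⟨_, k3.2 ⟨rfl, h1, by simp; omega⟩, ?_⟩
    simp only [rt]; rw [if_pos (by omega)]; simp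
  · refine ⟨_, k4.2 ⟨rfl, by simp only [hS, cS] at h1 ⊢; omega, by simp; omega⟩, ?_⟩
    simp only [rt]; rw [if_neg (by omega)]; simp
  · refine ⟨_, k2.2 ⟨rfl, by simp only [hS, cS] at h1 ⊢; omega, by simp; omega⟩, ?_⟩
    simp only [rt]; rw [if_pos (by omega)]; simp

/-- the removed tiles -/
theorem FlatBox.rem {x y : ℤ} (h : Sq g (r - 3) x y) :
    RA' D p x y ↔ hS s g x y = -1 ∧ (x + y) % 2 = 0 :=
  ⟨fun ⟨_, h1, h2⟩ => (hB.rem1 h h1 h2).1, fun ⟨h1, h2⟩ => hB.rem2 h h1 h2⟩

/-- the removed open tiles -/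
theorem FlatBox.ro {x y : ℤ} (h : Sq g (r - 3) x y) :
    RO' D p x y ↔ colp D i = false ∧ hS s g x y = -1 ∧ (x + y) % 2 = 0 := by
  constructor
  · rintro ⟨k, h1, h2, h3⟩
    obtain ⟨h4, h5⟩ := hB.rem1 h h1 h2
    exact ⟨h5.1 h3, h4⟩
  · rintro ⟨h1, h2, h3⟩
    obtain ⟨k, h4, h5⟩ := hB.rem2 h h2 h3
    exact ⟨k, h4, h5, (hB.rem1 h h4 h5).2.2 h1⟩

/-- there are no frozen tiles -/
theorem FlatBox.noFR {x y : ℤ} (h : Sq g (r - 3) x y) : ¬ FRt D p x y := by
  rintro ⟨h1, h2, h3⟩
  rw [hB.ring (by unfold Sq at h ⊢; omega)] at h1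
  by_cases h4 : (x + y) % 2 = 1
  · exact h2 (KA_iff.2 ⟨s, colp D i, (hB.tie h).2 ⟨rfl, rfl, h1, h4⟩⟩)
  · exact h3 ((hB.rem h).2 ⟨h1, by omega⟩)

/-- a tile of the domain in the same line -/
lemma FlatBox.up (h : Sq g r x y) (h1 : hS s g x y < 0) :
    InP D p (x - hS s g x y * (dr s).1) (y - hS s g x y * (dr s).2) := by
  unfold Sq at h
  rw [hB.inP _ _ (by unfold Sq; cases s <;> simp only [dr, hS] at h1 ⊢ <;> omega)]
  cases s <;> simp only [dr, hS] <;> omega

/-- the tiles of a flat box near the window -/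
lemma FlatBox.inL {L : ℤ} (h : Sq g r x y) (hL : r + 3 ≤ L) : InL D L x y := by
  by_cases h1 : hS s g x y < 0
  · have h2 := (hB.up h h1).box
    unfold Sq at h
    unfold InL
    cases s <;> simp only [dr, hS] at h1 h2 <;> omega
  · have h2 := ((hB.inP x y h).2 (by omega)).box
    unfold Sq at h
    unfold InL
    omega

/-- the first fill tiles are in the box of the window -/
lemma FlatBox.inB (h : Sq g r x y) (h1 : hS s g x y < 0) (h2 : -3 ≤ hS s g x y) : InB D x y := by
  have h3 := (hB.up h h1).box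
  unfold InB
  cases s <;> simp only [dr, hS] at h1 h2 h3 <;> omega

/-- one step towards the wall -/
lemma FlatBox.inBs (h : Sq g r x y) (h1 : hS s g x y < 0) (h2 : InB D x y) :
    InB D (x + (dr s).1) (y + (dr s).2) := by
  have h3 := (hB.up h h1).box
  unfold InB at h2 ⊢
  cases s <;> simp only [dr, hS] at h1 h3 ⊢ <;> omega

end box

end Pool.Agent.H54.W.N
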