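import Pool.Agent.H54.W.FlatBox
import Pool.Agent.H54.Sp.Flat

set_option autoImplicit false
open Finset

/-! # Flat walls (`FlatL`) of the environment `XA` of the class `H54.W.Win`

Successor of `H54/Sp/Flat` (`eS`, `dS`, `hg_eS`, `par_eS`, `box_sq` are the same). `flatX` : in a flat box of
radius `2 R + 4` around a grid point `g` of the colour of the arc the environment `XA` has a flat wall of radius
`R` with the centre `gp g`. -/

namespace Pool.Agent.H54.W.N

open Pool.Agent.H75.Perc Pool.Agent.H75.TwoArm Pool.Agent.Q1 Pool.Agent.H33.Q1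
open Pool.Agent.H75.Four Pool.Agent.H69.Q1
open Pool.Agent.H54.W (Win Out)
open Pool.Agent.H72.W.N
open Pool.Agent.H54.Sp (hS cS Sq Sq.mono eS dS hg_eS par_eS box_sq)
open Pool.Agent.H42.Sp (Sd Ix kt rt)
open Pool.Agent.H13.R45 (ev gp ev_true ev_false Tg mem_bx_gp bx_lt lm_bx)
open Pool.Agent.H74.R45 (exists_lt)
open Pool.Agent.H60.Q1 Pool.Agent.Q1.M6c Pool.Agent.H99.NC
open Pool.Agent.H39.Q1

variable {D : Win} {p : Bool} {s0 i r m L R x y : ℤ} {s : Sd} {c : Bool} {g : ℤ × ℤ}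
  {S : Finset (ℤ × ℤ)} {O : OutB D}

/-- the ends of a tie in the frame -/
theorem ends_eS (h : (x + y) % 2 = 1) :
    gm (eS s) (gp (ot s c (x, y))) = gm (eS s) (gp (bt s c (x, y))) - dS c ∧
      gp (ot s c (x, y)) + gp (bt s c (x, y)) = lt (x, y) + tc c := by
  cases c <;> cases s <;>
    (unfold gm sgb H39.Q1.tc lt eS dS ot bt gp
     simp only [Bool.false_eq_true, if_false, if_true, Prod.mk_add_mk, Prod.mk_sub_mk,
       Prod.mk.injEq]
     omega)

/-- one step towards the wall -/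
theorem step_eS : gm (eS s) (lm c (eS s) (lt (x, y)) + (1, 1)) - tc c =
    lt (x + (dr s).1, y + (dr s).2) := by
  rw [lm_apply]
  cases c <;> cases s <;>
    (unfold gm sgb H39.Q1.tc lt eS dr
     simp only [Bool.false_eq_true, if_false, if_true, Prod.mk_add_mk, Prod.mk_sub_mk,
       Prod.mk.injEq]
     omega)

/-- **Flat walls of `XA`.** -/
theorem flatX (hB : FlatBox D p s0 s i g (2 * R + 4)) (hg' : H13.R45.ev g = colp D i)
    (hS' : S ⊆ FR D p) (hm : 2 * R + 1 ≤ m) (hL : 2 * R + 5 ≤ L)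
    (hW : colp D i = true → ∀ x y, Sq g (2 * R) x y → lt (x, y) ∉ O.Wo) :
    FlatL (WA O p S) (EN D p) (TA D p) (H39.Q1.TF (TA D p) (fmA D p s0) i) (WlA D p s0 L S i)
      (LaA D p s0 m i) (bA D p) (oA D p) (colp D i) (eS s) (dS (colp D i)) (gp g) R := by
  have key := fun l h => box_sq (s := s) (R := R) hg' (l := l) h
  have hR : ∀ x y, Sq g (2 * R) x y → 1 ≤ R := by
    intro x y h; unfold Sq at h; omega
  have fIn : ∀ x y, Sq g (2 * R) x y → (InP D p x y ↔ 0 ≤ hS s g x y) :=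
    fun x y h => hB.inP x y (h.mono (by omega))
  have fFi : ∀ x y, Sq g (2 * R) x y → (Fill D p x y ↔ hS s g x y ≤ -2) :=
    fun x y h => hB.fill (h.mono (by omega))
  have fTi : ∀ x y, Sq g (2 * R) x y → ∀ s' c, (TieP D p s' c x y ↔
      s' = s ∧ c = colp D i ∧ hS s g x y = -1 ∧ (x + y) % 2 = 1) :=
    fun x y h s' c => hB.tie (h.mono (by omega))
  have fRo : ∀ x y, Sq g (2 * R) x y → (RO' D p x y ↔
      colp D i = false ∧ hS s g x y = -1 ∧ (x + y) % 2 = 0) :=
    fun x y h => hB.ro (h.mono (by omega))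
  have fFr : ∀ x y, Sq g (2 * R) x y → ¬ FRt D p x y :=
    fun x y h => hB.noFR (h.mono (by omega))
  have fAr : ∀ x y, Sq g (2 * R) x y → hS s g x y < 0 → arc D p s0 x y = i :=
    fun x y h => hB.arc x y (h.mono (by omega))
  have fIL : ∀ x y, Sq g (2 * R) x y → InL D L x y :=
    fun x y h => (hB.mono (r := 2 * R) (by omega)).inL h (by omega)
  -- the wall
  have fWl : ∀ x y, Sq g (2 * R) x y → (lt (x, y) ∈ WlA D p s0 L S i ↔
      hS s g x y ≤ -2 ∧ (colp D i = true → InB D x y)) := by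
    intro x y h
    have h5 : 5 ≤ L := by have := hR x y h; omega
    rw [mem_WlA h5]
    constructor
    · rintro (⟨h1, h2, h3, h4⟩ | h1)
      · exact ⟨(fFi x y h).1 h2, h4⟩
      · exact absurd h1.1 (fFr x y h)
    · rintro ⟨h1, h2⟩
      exact Or.inl ⟨fIL x y h, (fFi x y h).2 h1, fAr x y h (by omega), h2⟩
  -- the ties
  have fT : ∀ x y, Sq g (2 * R) x y → (lt (x, y) ∈ TA D p ↔
      hS s g x y = -1 ∧ (x + y) % 2 = 1) := by
    intro x y h
    rw [mem_TA]
    constructor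
    · rintro ⟨s', c, h1⟩
      exact ((fTi x y h s' c).1 h1).2.2
    · intro h1
      exact ⟨s, colp D i, (fTi x y h _ _).2 ⟨rfl, rfl, h1⟩⟩
  have fTp : ∀ x y, Sq g (2 * R) x y → lt (x, y) ∈ TA D p → TieP D p s (colp D i) x y :=
    fun x y h h1 => (fTi x y h _ _).2 ⟨rfl, rfl, (fT x y h).1 h1⟩
  have fTf : ∀ x y, Sq g (2 * R) x y → lt (x, y) ∈ TA D p → fmA D p s0 (lt (x, y)) = i := by
    intro x y h h1
    rw [(fTp x y h h1).fm]
    have h2 := ((fT x y h).1 h1).1
    have h3 := hR x y h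
    unfold Sq at h
    refine hB.arc _ _ ?_ ?_
    · unfold Sq; cases s <;> simp only [dr] <;> omega
    · cases s <;> simp only [dr, hS] at h2 ⊢ <;> omega
  have fTF : ∀ x y, Sq g (2 * R) x y → (lt (x, y) ∈ H39.Q1.TF (TA D p) (fmA D p s0) i ↔
      hS s g x y = -1 ∧ (x + y) % 2 = 1) := by
    intro x y h
    unfold H39.Q1.TF
    rw [mem_filter]
    exact ⟨fun h1 => (fT x y h).1 h1.1, fun h1 => ⟨(fT x y h).2 h1, fTf x y h ((fT x y h).2 h1)⟩⟩
  refine ⟨?_, ?_, ?_, ?_, ?_, ?_, ?_, ?_, ?_⟩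
  · unfold dS
    split_ifs
    · exact Or.inl rfl
    · exact Or.inr rfl
  · intro l hl
    obtain ⟨x, y, rfl, h1, h2⟩ := key l hl
    rw [h2, mem_LaA, fIn x y h1]
    constructor
    · rintro ⟨h3, -⟩; omega
    · intro h3
      refine ⟨by omega, ?_⟩
      have h4 := hR x y h1
      unfold Sq at h1
      refine ⟨x - (hS s g x y + 1) * (dr s).1, y - (hS s g x y + 1) * (dr s).2, ?_, ?_, ?_⟩
      · rw [hB.inP _ _ (by unfold Sq; cases s <;> simp only [dr, hS] at h3 ⊢ <;> omega)]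
        cases s <;> simp only [dr, hS] <;> omega
      · refine hB.arc _ _ ?_ ?_
        · unfold Sq; cases s <;> simp only [dr, hS] at h3 ⊢ <;> omega
        · cases s <;> simp only [dr, hS] <;> omega
      · cases s <;> simp only [dr, hS] at h3 ⊢ <;> omega
  · intro l hl hb
    obtain ⟨x, y, rfl, h1, h2⟩ := key l hb
    rw [h2]
    rcases mem_union.1 hl with h3 | h3
    · rw [mem_EN, fIn x y h1] at h3
      omega
    · obtain ⟨h4, h5⟩ := mem_sdiff.1 h3
      exact absurd ((fTF x y h1).2 ((fT x y h1).1 h4)) h5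
  · intro l hl
    obtain ⟨x, y, rfl, h1, h2⟩ := key l hl
    rw [h2, fTF x y h1]
    constructor
    · rintro ⟨h3, h4⟩
      exact ⟨by omega, (par_eS hg' h3).2 h4⟩
    · rintro ⟨h3, h4⟩
      have h5 : hS s g x y = -1 := by omega
      exact ⟨h5, (par_eS hg' h5).1 h4⟩
  · intro l hl hb
    obtain ⟨x, y, rfl, h1, h2⟩ := key l hb
    have h3 := fTp x y h1 (mem_filter.1 hl).1
    rw [h3.b, h3.o]
    exact ends_eS h3.odd
  · intro l hl
    obtain ⟨x, y, rfl, h1, h2⟩ := key l hl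
    rw [h2, fWl x y h1]
    constructor
    · rintro ⟨h3, -⟩; omega
    · intro h3
      refine ⟨by omega, fun _ => ?_⟩
      exact (hB.mono (r := 2 * R) (by omega)).inB h1 (by omega) (by omega)
  · intro hc l hl h3
    obtain ⟨x, y, rfl, h1, h2⟩ := key l hl
    rw [h2] at h3
    rw [fWl x y h1, hc]
    exact ⟨by omega, fun h => absurd h Bool.false_ne_true⟩
  · intro l hw hl h3
    obtain ⟨x, y, rfl, h1, h2⟩ := key l hl
    rw [h2] at h3
    rw [fWl x y h1] at hw
    rw [step_eS]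
    have h4 : Sq g (2 * R) (x + (dr s).1) (y + (dr s).2) := by
      have := hR x y h1
      unfold Sq at h1 ⊢
      cases s <;> simp only [dr, hS] at h3 ⊢ <;> omega
    rw [fWl _ _ h4]
    refine ⟨?_, fun h5 => (hB.mono (r := 2 * R) (by omega)).inBs h1 (by omega) (hw.2 h5)⟩
    cases s <;> simp only [dr, hS] at h3 ⊢ <;> omega
  · intro l hl
    obtain ⟨x, y, rfl, h1, h2⟩ := key l hl
    rw [h2, fTF x y h1, mem_WA, fRo x y h1, fFi x y h1, fWl x y h1]
    split_ifs with hc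
    · rintro (⟨h3, h4, -⟩ | h3 | h3 | h3)
      · exact ⟨h4, fun _ => h3⟩
      · rw [hc] at h3; exact absurd h3.1 (by simp)
      · exact absurd (mem_FR.1 (hS' h3)) (fFr x y h1)
      · exact absurd h3 (hW hc x y h1)
    · intro h3 h4
      refine Or.inr (Or.inl ⟨?_, by omega, by omega⟩)
      revert hc
      cases colp D i <;> simp

/-- **Flat walls of `XA` around the inner end of a tie.** -/
theorem flatX_tie {u v : ℤ} (hu : (u + v) % 2 = 1)
    (hB : FlatBox D p s0 s i (bt s (colp D i) (u, v)) (2 * R + 4))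
    (hS' : S ⊆ FR D p) (hm : 2 * R + 1 ≤ m) (hL : 2 * R + 5 ≤ L)
    (hW : colp D i = true → ∀ x y, Sq (bt s (colp D i) (u, v)) (2 * R) x y → lt (x, y) ∉ O.Wo) :
    FlatL (WA O p S) (EN D p) (TA D p) (H39.Q1.TF (TA D p) (fmA D p s0) i) (WlA D p s0 L S i)
      (LaA D p s0 m i) (bA D p) (oA D p) (colp D i) (eS s) (dS (colp D i))
      (gp (bt s (colp D i) (u, v))) R :=
  flatX hB (ev_bt hu) hS' hm hL hW

end Pool.Agent.H54.W.N
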