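import Pool.Agent.H54.W.FlatBox

set_option autoImplicit false
open Finset

/-! # The arcs of neighbouring tiles, class `H54.W.Win`

Successor of `H54/Sp/ArcAdj`. Two edge neighbours outside of `P^p` with the same natural colour belong to the
same arc. `arc_rect` : rectangles, `flatBox_of_col` : flat boxes from the half plane and the colour. -/

namespace Pool.Agent.H54.W.N

open Pool.Agent.H75.Perc Pool.Agent.H75.TwoArm Pool.Agent.Q1 Pool.Agent.H33.Q1
open Pool.Agent.H69.Q1
open Pool.Agent.H54.W (Win Out)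
open Pool.Agent.H72.W.N
open Pool.Agent.H54.Sp (hS cS Sq Sq.mono)
open Pool.Agent.H42.Sp (Sd)

variable {D : Win} {p : Bool} {s0 i r q q' x y : ℤ} {s : Sd} {g : ℤ × ℤ}

/-- equal or neighbouring positions -/
def Nx (D : Win) (q q' : ℤ) : Prop :=
  q = q' ∨ q' = q + 1 ∨ q = q' + 1 ∨ (q = 0 ∧ q' = 2 * D.h + 1) ∨ (q' = 0 ∧ q = 2 * D.h + 1)

lemma Nx.symm (h : Nx D q q') : Nx D q' q := by
  unfold Nx at h ⊢; omega

/-- neighbouring positions of one colour -/
theorem Nx.rep (hcut : colp D (s0 - 1) ≠ colp D s0) (h : Nx D q q') (hc : colp D q = colp D q') :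
    rep D s0 q = rep D s0 q' := by
  rcases h with h | h | h | ⟨h1, h2⟩ | ⟨h1, h2⟩
  · rw [h]
  · subst h
    exact (rep_adj hcut hc).symm
  · subst h
    exact rep_adj hcut hc.symm
  · have e : q' + 1 = q + nP D := by unfold nP; omega
    have h3 := rep_adj (D := D) (s0 := s0) (s := q') hcut (by rw [e, colp_add]; exact hc.symm)
    rw [e, rep_add] at h3
    exact h3
  · have e : q + 1 = q' + nP D := by unfold nP; omega
    have h3 := rep_adj (D := D) (s0 := s0) (s := q) hcut (by rw [e, colp_add]; exact hc)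
    rw [e, rep_add] at h3
    exact h3.symm

/-- the position of a tile in a row of `P` -/
lemma ps_row (h0 : 0 ≤ y) (h2 : y < D.h) :
    (x < D.a y ∧ ps D p x y = 2 * D.h + 1 - y) ∨ (D.a y ≤ x ∧ ps D p x y = y + 1) := by
  unfold ps
  rw [if_neg (by omega : ¬ y < 0), if_neg (by omega : ¬ D.h ≤ y)]
  by_cases c1 : x < D.a y
  · rw [if_pos c1]; exact Or.inl ⟨c1, rfl⟩
  · rw [if_neg c1]; exact Or.inr ⟨by omega, rfl⟩

lemma ps_neg (h : y < 0) : ps D p x y = 0 := by unfold ps; rw [if_pos h]

lemma ps_ge (h : D.h ≤ y) : ps D p x y = D.h + 1 := by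
  have := D.hh
  unfold ps; rw [if_neg (by omega), if_pos h]

/-- an outer tile to the right of the left end is to the right of the window -/
lemma right_of (h0 : 0 ≤ y) (h2 : y < D.h) (h1 : ¬ InP D p x y) (h3 : D.a y ≤ x) :
    D.w ≤ x + sh p := by
  have := sh_nonneg p
  by_contra hc
  exact h1 ⟨h0, h2, by omega, by omega⟩

/-- horizontal neighbours -/
theorem ps_h (_h1 : ¬ InP D p x y) (h2 : ¬ InP D p (x + 1) y) :
    Nx D (ps D p x y) (ps D p (x + 1) y) := by
  by_cases c1 : y < 0
  · rw [ps_neg c1, ps_neg c1]; exact Or.inl rfl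
  by_cases c2 : D.h ≤ y
  · rw [ps_ge c2, ps_ge c2]; exact Or.inl rfl
  have k1 := ps_row (D := D) (p := p) (x := x) (y := y) (by omega) (by omega)
  have k2 := ps_row (D := D) (p := p) (x := x + 1) (y := y) (by omega) (by omega)
  have k3 := right_of (p := p) (by omega) (by omega) h2
  have k4 := D.aw y (by omega) (by omega)
  have k5 := sh_le p
  unfold Nx
  rcases k1 with k1 | k1 <;> rcases k2 with k2 | k2 <;> omega

/-- vertical neighbours -/
theorem ps_v (h1 : ¬ InP D p x y) (h2 : ¬ InP D p x (y + 1)) :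
    Nx D (ps D p x y) (ps D p x (y + 1)) := by
  have hh := D.hh
  by_cases c1 : y < -1
  · rw [ps_neg (by omega), ps_neg (by omega)]; exact Or.inl rfl
  by_cases c2 : D.h ≤ y
  · rw [ps_ge c2, ps_ge (by omega)]; exact Or.inl rfl
  by_cases c3 : y = -1
  · subst c3
    rw [ps_neg (by omega)]
    rw [show (-1 : ℤ) + 1 = 0 by norm_num]
    have k2 := ps_row (D := D) (p := p) (x := x) (y := 0) (by omega) (by omega)
    unfold Nx
    omega
  by_cases c4 : y = D.h - 1
  · subst c4
    have k1 := ps_row (D := D) (p := p) (x := x) (y := D.h - 1) (by omega) (by omega)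
    have e : ps D p x (D.h - 1 + 1) = D.h + 1 := ps_ge (by omega)
    rw [e]
    unfold Nx
    omega
  have k1 := ps_row (D := D) (p := p) (x := x) (y := y) (by omega) (by omega)
  have k2 := ps_row (D := D) (p := p) (x := x) (y := y + 1) (by omega) (by omega)
  have k3 := right_of (p := p) (by omega) (by omega) h2
  have k3' := right_of (p := p) (by omega) (by omega) h1
  have k4 := D.aw y (by omega) (by omega)
  have k4' := D.aw (y + 1) (by omega) (by omega)
  have k5 := sh_le p
  unfold Nx
  rcases k1 with k1 | k1 <;> rcases k2 with k2 | k2 <;> omega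

/-- **Horizontal neighbours of one colour.** -/
theorem arc_h (hcut : colp D (s0 - 1) ≠ colp D s0) (h1 : ¬ InP D p x y) (h2 : ¬ InP D p (x + 1) y)
    (hc : natc D p x y = natc D p (x + 1) y) : arc D p s0 (x + 1) y = arc D p s0 x y := by
  refine ((ps_h h1 h2).rep hcut ?_).symm
  rw [colp_ps, colp_ps, hc]

/-- **Vertical neighbours of one colour.** -/
theorem arc_v (hcut : colp D (s0 - 1) ≠ colp D s0) (h1 : ¬ InP D p x y) (h2 : ¬ InP D p x (y + 1))
    (hc : natc D p x y = natc D p x (y + 1)) : arc D p s0 x (y + 1) = arc D p s0 x y := by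
  refine ((ps_v h1 h2).rep hcut ?_).symm
  rw [colp_ps, colp_ps, hc]

/-- **Rectangles of outer tiles of one colour belong to one arc.** -/
theorem arc_rect (hcut : colp D (s0 - 1) ≠ colp D s0) {a b c d : ℤ} {κ : Bool}
    (ho : ∀ x y, a ≤ x → x < b → c ≤ y → y < d → ¬ InP D p x y ∧ natc D p x y = κ)
    {x' y' : ℤ} (h1 : a ≤ x ∧ x < b ∧ c ≤ y ∧ y < d) (h2 : a ≤ x' ∧ x' < b ∧ c ≤ y' ∧ y' < d) :
    arc D p s0 x y = arc D p s0 x' y' := by
  have hor : ∀ n : ℕ, ∀ y, c ≤ y → y < d → a + n < b → arc D p s0 (a + n) y = arc D p s0 a y := by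
    intro n
    induction n with
    | zero => intro y _ _ _; simp
    | succ n ih =>
      intro y k1 k2 k3
      push_cast at k3 ⊢
      rw [← ih y k1 k2 (by omega), ← add_assoc]
      obtain ⟨e1, e2⟩ := ho (a + n) y (by omega) (by omega) k1 k2
      obtain ⟨e3, e4⟩ := ho (a + n + 1) y (by omega) (by omega) k1 k2
      exact arc_h hcut e1 e3 (by rw [e2, e4])
  have ver : ∀ n : ℕ, a < b → c + n < d → arc D p s0 a (c + n) = arc D p s0 a c := by
    intro n
    induction n with
    | zero => intro _ _; simp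
    | succ n ih =>
      intro k1 k2
      push_cast at k2 ⊢
      rw [← ih k1 (by omega), ← add_assoc]
      obtain ⟨e1, e2⟩ := ho a (c + n) (by omega) (by omega) (by omega) (by omega)
      obtain ⟨e3, e4⟩ := ho a (c + n + 1) (by omega) (by omega) (by omega) (by omega)
      exact arc_v hcut e1 e3 (by rw [e2, e4])
  have key : ∀ x y, a ≤ x ∧ x < b ∧ c ≤ y ∧ y < d → arc D p s0 x y = arc D p s0 a c := by
    intro x y h
    have e1 := hor (x - a).toNat y (by omega) (by omega) (by omega)
    have e2 := ver (y - c).toNat (by omega) (by omega)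
    rw [show a + ((x - a).toNat : ℤ) = x by omega] at e1
    rw [show c + ((y - c).toNat : ℤ) = y by omega] at e2
    rw [e1, e2]
  rw [key x y h1, key x' y' h2]

/-- **Flat boxes from the half plane and the natural colour.** -/
theorem flatBox_of_col (hcut : colp D (s0 - 1) ≠ colp D s0) {κ : Bool}
    (hin : ∀ x y, Sq g r x y → (InP D p x y ↔ 0 ≤ hS s g x y))
    (hcol : ∀ x y, Sq g r x y → hS s g x y < 0 → natc D p x y = κ)
    (h0 : Sq g r x y) (h1 : hS s g x y < 0) : FlatBox D p s0 s (arc D p s0 x y) g r := by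
  refine ⟨hin, fun x' y' h2 h3 => ?_⟩
  have ho : ∀ u v, Sq g r u v → hS s g u v < 0 → ¬ InP D p u v ∧ natc D p u v = κ := by
    intro u v k1 k2
    refine ⟨fun k3 => ?_, hcol u v k1 k2⟩
    have := (hin u v k1).1 k3
    omega
  unfold Sq at h0 h2 ho
  cases s <;> simp only [hS] at h1 h3 ho
  · exact arc_rect (a := g.1 - r) (b := g.1) (c := g.2 - r) (d := g.2 + r) hcut
      (fun u v _ _ _ _ => ho u v (by omega) (by omega)) (by omega) (by omega)
  · exact arc_rect (a := g.1) (b := g.1 + r) (c := g.2 - r) (d := g.2 + r) hcut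
      (fun u v _ _ _ _ => ho u v (by omega) (by omega)) (by omega) (by omega)
  · exact arc_rect (a := g.1 - r) (b := g.1 + r) (c := g.2 - r) (d := g.2) hcut
      (fun u v _ _ _ _ => ho u v (by omega) (by omega)) (by omega) (by omega)
  · exact arc_rect (a := g.1 - r) (b := g.1 + r) (c := g.2) (d := g.2 + r) hcut
      (fun u v _ _ _ _ => ho u v (by omega) (by omega)) (by omega) (by omega)

end Pool.Agent.H54.W.N
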