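import Mathlib
import Pool.Agent.H95.W.N.ArcC
import Pool.Agent.H95.W.N.Dat
import Pool.Agent.H22.W.FlatC
import Pool.Agent.H60.W.LevR
import Pool.Agent.H54.W.Flat
import Pool.Agent.H54.W.ArcAdj

set_option autoImplicit false
open Finset

/-! # The flat ties of a coarse window (class `H54.W.Win`, left arc)

Successor of `H54/Sp/FlatT`. `noFar` : a flat box contains no far label. `tie_edge`, `ek_mem` : the edge of a tie
is a boundary edge of the left arc (`nR` : no ties on the right wall, e.g. `not_CA_R` for `refD D p`). `box_FlD` :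
the box around the inner end of a flat tie is flat. `flatD` : the field `flat` of the walls of a coarse window. -/

namespace Pool.Agent.H54.W.N

open Pool.Agent.H33.Q1 (lt tt tt_lt)
open Pool.Agent.H54.W (Win)
open Pool.Agent.H72.W.N
open Pool.Agent.H42.Sp (Sd)
open Pool.Agent.H13.R45 (gp ev)
open Pool.Agent.H39.Q1 (TF gm FlatL)
open Pool.Agent.H31.Sp (CQ Ed EdF mem_EdF verS posS)
open Pool.Agent.H95.W (CoarseR CoarseRC)
open Pool.Agent.H95.W.N
open Pool.Agent.H60.W.N (Ports)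
open Pool.Agent.H54.Sp (hS cS Sq Sq.mono eS dS)

variable {D : Win} {p : Bool} {s0 i r m L N R x y u v X Y n H : ℤ} {A B : ℤ → ℤ} {s : Sd} {c : Bool}
  {g : ℤ × ℤ} {S : Finset (ℤ × ℤ)} {O : OutB D} {CL : ℤ → Bool}

/-- **A flat box contains no far label.** -/
theorem FlatBox.noFar (hB : FlatBox D p s0 s i g r) (hO : Ports O N) (hN : r + 3 ≤ N)
    (h : Sq g (r - 1) x y) : lt (x, y) ∉ O.Wo := by
  intro hw
  have hxy : Sq g r x y := h.mono (by omega)
  have hfar := O.far x y hw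
  have hh := D.hh
  have hlo0 := D.hlo 0 le_rfl (by omega)
  have haw0 := D.aw 0 le_rfl (by omega)
  have key : ∀ x y, (x + 1 < D.lo ∨ D.w ≤ x) → Sq g r x y → colp D (ps D p x y) = colp D i := by
    intro x y h1 h2
    rw [colp_ps]
    refine hB.natc h2 ?_
    by_contra h3
    have := ((hB.inP x y h2).2 (by omega)).box
    omega
  rcases hO x y (hB.inL hxy hN) hw with ⟨h1, h2, h3, h4⟩ | ⟨h1, h2, h3, h4⟩
  · have hx : x + 4 < D.lo := by unfold InB at hfar; omega
    have hv : Sq g r x (y - 1) := by unfold Sq at h ⊢; omega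
    have k1 := key x y (by omega) hxy
    have k2 := key x (y - 1) (by omega) hv
    apply h4
    have e1 : colp D (2 * D.h + 1 - y) = colp D i := by
      rw [← k1]
      by_cases c1 : y = D.h
      · rw [ps_ge (by omega), c1]; congr 1; ring
      · rcases ps_row (D := D) (p := p) (x := x) (y := y) h2 (by omega) with ⟨-, e⟩ | ⟨e, -⟩
        · rw [e]
        · have := D.hlo y h2 (by omega); omega
    have e2 : colp D (2 * D.h + 2 - y) = colp D i := by
      rw [← k2]
      by_cases c1 : y = 0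
      · rw [ps_neg (by omega), c1, show 2 * D.h + 2 - 0 = 0 + nP D by unfold nP; ring, colp_add]
      · rcases ps_row (D := D) (p := p) (x := x) (y := y - 1) (by omega) (by omega) with
          ⟨-, e⟩ | ⟨e, -⟩
        · rw [e]; congr 1; ring
        · have := D.hlo (y - 1) (by omega) (by omega); omega
    rw [e1, e2]
  · have hv : Sq g r x (y + 1) := by unfold Sq at h ⊢; omega
    have k1 := key x y (by omega) hxy
    have k2 := key x (y + 1) (by omega) hv
    apply h4
    have e1 : colp D (y + 1) = colp D i := by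
      rw [← k1]
      by_cases c1 : y = -1
      · rw [ps_neg (by omega), c1]; rfl
      · rcases ps_row (D := D) (p := p) (x := x) (y := y) (by omega) h3 with ⟨e, -⟩ | ⟨-, e⟩
        · have := D.aw y (by omega) h3; omega
        · rw [e]
    have e2 : colp D (y + 2) = colp D i := by
      rw [← k2]
      by_cases c1 : y + 1 = D.h
      · rw [ps_ge (by omega), ← c1]; congr 1; ring
      · rcases ps_row (D := D) (p := p) (x := x) (y := y + 1) (by omega) (by omega) with
          ⟨e, -⟩ | ⟨-, e⟩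
        · have := D.aw (y + 1) (by omega) (by omega); omega
        · rw [e]; congr 1; ring
    rw [e1, e2]

/-- the layer tile above or right of the inner end of a tie -/
def tlg : Sd → ℤ × ℤ → ℤ × ℤ
  | .L, g => (g.1 - 1, g.2)
  | .R, g => (g.1, g.2)
  | .F, g => (g.1, g.2 - 1)
  | .C, g => (g.1, g.2)

lemma tie_ly (h : TieP D p s c u v) :
    LyA D p s (tlg s (bt s c (u, v))).1 (tlg s (bt s c (u, v))).2 := by
  have h1 := h.ly
  obtain ⟨-, h2, -⟩ := h
  cases s <;> cases c <;> simp only [gt, CA, bt, tlg, add_sub_cancel_right] at h1 h2 ⊢ <;> tauto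

lemma tie_nR (nR : ∀ k, CA D p k → k.1 ≠ Sd.R) (h : TieP D p s c u v) : s ≠ Sd.R :=
  nR _ h.2.1

/-- helper95's coarse windows are coarse windows with a flat right wall -/
theorem toRC (C : CoarseC D n H A B CL) : CoarseRC D n H (B 0) A CL where
  hn := C.hn
  HH := C.HH
  hh := C.hh
  ww := by
    have h1 := C.toCoarse.pos
    have h2 := D.hh
    have := C.b 0 le_rfl (by omega)
    rwa [Int.zero_ediv] at this
  AW := fun Y h0 h1 => by
    rw [C.toCoarse.B_eq le_rfl C.HH h0 h1]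
    exact C.AB Y h0 h1
  a := C.a
  cl := C.cl

section CC

variable (C : CoarseC D n H A B CL) (hcut : colp D (s0 - 1) ≠ colp D s0)
  (nR : ∀ k, CA D p k → k.1 ≠ Sd.R)

include C hcut nR

/-- the edge of a tie -/
theorem tie_edge (h : TieP D p s c u v) :
    Ed H A B s (((bt s c (u, v)).1 + sh p) / n) ((bt s c (u, v)).2 / n) ∧
    (if verS s = true then (bt s c (u, v)).1 + sh p = n * (((bt s c (u, v)).1 + sh p) / n)
      else (bt s c (u, v)).2 = n * ((bt s c (u, v)).2 / n)) := by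
  have h1 := tie_ly h
  have hs := tie_nR nR h
  generalize bt s c (u, v) = g at h1
  cases s <;> simp only [tlg] at h1
  · obtain ⟨k1, k2, k3, -⟩ := lyL_arc C hcut h1
    rw [show g.1 - 1 + sh p + 1 = g.1 + sh p by ring] at k1 k2 k3
    exact ⟨⟨k2, k3⟩, by simpa [verS] using k1⟩
  · exact absurd rfl hs
  · obtain ⟨k1, k2, k3, -⟩ := lyF_arc C hcut h1
    rw [sub_add_cancel] at k1 k2 k3
    exact ⟨⟨k2, k3⟩, by simpa [verS] using k1⟩
  · obtain ⟨k1, k2, k3, -⟩ := lyC_arc C hcut h1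
    exact ⟨⟨k3, k2⟩, by simpa [verS] using k1⟩

/-- the edge of a tie is a boundary edge of the left arc -/
theorem ek_mem (h : TieP D p s c u v) : ek D n p (lt (u, v)) ∈ EdL H A B := by
  rw [ek_tie h, mem_EdL]
  exact ⟨(tie_edge C hcut nR h).1, tie_nR nR h⟩

omit nR in
/-- flat boxes at the edges -/
theorem box_edge (hr : 2 * r + 8 ≤ n) (w : KL H A B)
    (hl : if verS w.1.1 = true then g.1 + sh p = n * w.1.2.1 else g.2 = n * w.1.2.2)
    (h1 : if verS w.1.1 = true then n * w.1.2.2 + r + 3 ≤ g.2 ∧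
        g.2 + r + 3 ≤ n * w.1.2.2 + n
      else n * w.1.2.1 + r + 3 ≤ g.1 + sh p ∧ g.1 + sh p + r + 3 ≤ n * w.1.2.1 + n) :
    FlatBox D p s0 w.1.1 (fwD D n H A B s0 w) g r := by
  have K := toRC C
  have hBq : ∀ Y, 0 ≤ Y → Y < H → B Y = B 0 := fun Y h0 h1 => C.toCoarse.B_eq h0 h1 le_rfl C.HH
  obtain ⟨⟨s, X, Y⟩, hw⟩ := w
  rw [mem_EdL] at hw
  unfold fwD
  simp only at *
  cases s
  · simp only [verS, if_true] at *
    obtain ⟨⟨⟨e1, e2, e3, e4⟩, e5⟩, -⟩ := hw
    have e6 : X = A Y := by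
      by_contra h
      exact e5 ⟨e1, e2, by omega, by omega⟩
    subst e6
    exact Pool.Agent.H22.W.flat_L K hcut hr e1 e2 hl h1.1 h1.2
  · exact absurd rfl hw.2
  · simp only [verS, Bool.false_eq_true, if_false] at *
    obtain ⟨⟨⟨e1, e2, e3, e4⟩, e5⟩, -⟩ := hw
    have e4' := hBq Y e1 e2
    unfold hA
    rw [if_pos ⟨e1, e2, e3, e4⟩]
    by_cases c1 : Y = 0
    · subst c1
      rw [if_pos rfl]
      exact Pool.Agent.H22.W.flat_B K.toCoarseR hr e3 (by omega) (by rw [hl]; ring) h1.1 h1.2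
    rw [if_neg c1]
    by_cases c2 : X < A (Y - 1)
    · exact Pool.Agent.H22.W.flat_F K hcut hr (by omega) e2 e3 c2 hl h1.1 h1.2
    · have := hBq (Y - 1) (by omega) (by omega)
      exact absurd ⟨by omega, by omega, by omega, by omega⟩ e5
  · simp only [verS, Bool.false_eq_true, if_false] at *
    obtain ⟨⟨e5, e1, e2, e3, e4⟩, -⟩ := hw
    have e4' := hBq (Y - 1) e1 e2
    unfold hA
    rw [if_neg e5]
    by_cases c1 : Y = H
    · subst c1
      rw [if_pos rfl]
      exact Pool.Agent.H22.W.flat_T K.toCoarseR hr e3 (by omega) (by rw [hl]; exact C.hh.symm)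
        h1.1 h1.2
    rw [if_neg c1]
    by_cases c2 : X < A Y
    · exact Pool.Agent.H22.W.flat_C K hcut hr (by omega) (by omega) e3 c2 hl h1.1 h1.2
    · have := hBq Y (by omega) (by omega)
      exact absurd ⟨by omega, by omega, by omega, by omega⟩ e5

/-- a flat tie of a wall -/
lemma exists_FlD {w w0 : KL H A B} {e : ℤ × ℤ} (he : e ∈ FlD D n H A B p w0 r w) :
    ∃ u v c, e = lt (u, v) ∧ TieP D p w.1.1 c u v ∧
      (if verS w.1.1 = true then (bt w.1.1 c (u, v)).1 + sh p = n * w.1.2.1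
        else (bt w.1.1 c (u, v)).2 = n * w.1.2.2) ∧
      (if verS w.1.1 = true then n * w.1.2.2 + r ≤ (bt w.1.1 c (u, v)).2 ∧
          (bt w.1.1 c (u, v)).2 + r ≤ n * w.1.2.2 + n
        else n * w.1.2.1 + r ≤ (bt w.1.1 c (u, v)).1 + sh p ∧
          (bt w.1.1 c (u, v)).1 + sh p + r ≤ n * w.1.2.1 + n) := by
  unfold FlD at he
  rw [mem_filter] at he
  obtain ⟨h1, h2, h3, h4⟩ := he
  obtain ⟨u, v, s, c, rfl, h⟩ := exists_tie h1
  have h5 := ek_mem C hcut nR h
  have h6 : ek D n p (lt (u, v)) = w.1 := by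
    rw [← h2]
    unfold wlD
    rw [dif_pos h5]
  have h7 := (tie_edge C hcut nR h).2
  rw [poD_tie h] at h3 h4
  rw [ek_tie h] at h6
  obtain ⟨⟨s', X, Y⟩, hw⟩ := w
  simp only [Prod.mk.injEq] at h6
  obtain ⟨rfl, rfl, rfl⟩ := h6
  refine ⟨u, v, c, rfl, h, h7, ?_⟩
  unfold bW at h3 h4
  simp only at h3 h4 ⊢
  split_ifs at h3 h4 ⊢ <;> omega

/-- **The box around the inner end of a flat tie is flat.** -/
theorem box_FlD {w w0 : KL H A B} (hr : 2 * r + 8 ≤ n) {e : ℤ × ℤ}
    (he : e ∈ FlD D n H A B p w0 (r + 3) w) :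
    ∃ g, bA D p e = gp g ∧ FlatBox D p s0 w.1.1 (fwD D n H A B s0 w) g r ∧
      (4 ≤ r → ev g = colp D (fwD D n H A B s0 w)) := by
  obtain ⟨u, v, c, rfl, h1, h2, h3⟩ := exists_FlD C hcut nR he
  have hB : FlatBox D p s0 w.1.1 (fwD D n H A B s0 w) (bt w.1.1 c (u, v)) r := by
    refine box_edge C hcut hr w h2 ?_
    split_ifs at h3 ⊢ <;> omega
  refine ⟨_, h1.b, hB, fun h4 => ?_⟩
  have h5 : Sq (bt w.1.1 c (u, v)) (r - 3) u v := by
    unfold Sq
    cases w.1.1 <;> cases c <;> simp only [bt] <;> omega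
  rw [← ((hB.tie h5).1 h1).2.1]
  exact ev_bt h1.odd

/-- **The field `flat` of the walls of a coarse window**, without conditions at the far labels -/
theorem flatD' {w w0 : KL H A B} (hn : 4 * R + 20 ≤ n) (hR : 0 ≤ R) (hS' : S ⊆ FR D p)
    (hm : 2 * R + 3 ≤ m) (hL : 2 * R + 7 ≤ L)
    (hO : ∀ g, FlatBox D p s0 w.1.1 (fwD D n H A B s0 w) g (2 * R + 6) →
      ∀ x y, Sq g (2 * R + 2) x y → lt (x, y) ∉ O.Wo) {e : ℤ × ℤ}
    (he : e ∈ FlD D n H A B p w0 (2 * R + 9) w) :
    FlatL (WA O p S) (EN D p) (TA D p) (TF (TA D p) (fmA D p s0) (fwD D n H A B s0 w))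
      (WlA D p s0 L S (fwD D n H A B s0 w)) (LaA D p s0 m (fwD D n H A B s0 w)) (bA D p) (oA D p)
      (colp D (fwD D n H A B s0 w)) (epD H A B w) (deD D n H A B s0 w) (bA D p e) (R + 1) := by
  obtain ⟨g, h1, h2, h3⟩ := box_FlD C hcut nR (r := 2 * R + 6) (by omega)
    (by rw [show 2 * R + 6 + 3 = 2 * R + 9 by ring]; exact he)
  rw [h1]
  unfold epD deD
  refine flatX (by rw [show 2 * (R + 1) + 4 = 2 * R + 6 by ring]; exact h2) (h3 (by omega)) hS'
    (by omega) (by omega) fun _ x y hx => ?_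
  exact hO g h2 x y (hx.mono (by omega))

/-- **The field `flat` of the walls of a coarse window.** -/
theorem flatD {w w0 : KL H A B} (hn : 4 * R + 20 ≤ n) (hR : 0 ≤ R) (hS' : S ⊆ FR D p)
    (hm : 2 * R + 3 ≤ m) (hL : 2 * R + 7 ≤ L) (hO : Ports O N) (hN : 2 * R + 9 ≤ N) {e : ℤ × ℤ}
    (he : e ∈ FlD D n H A B p w0 (2 * R + 9) w) :
    FlatL (WA O p S) (EN D p) (TA D p) (TF (TA D p) (fmA D p s0) (fwD D n H A B s0 w))
      (WlA D p s0 L S (fwD D n H A B s0 w)) (LaA D p s0 m (fwD D n H A B s0 w)) (bA D p) (oA D p)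
      (colp D (fwD D n H A B s0 w)) (epD H A B w) (deD D n H A B s0 w) (bA D p e) (R + 1) :=
  flatD' C hcut nR hn hR hS' hm hL
    (fun _ h2 _ _ hx => h2.noFar hO (by omega) (hx.mono (by omega))) he

end CC

end Pool.Agent.H54.W.N
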