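import Mathlib
import Pool.Agent.H54.W.Def

set_option autoImplicit false
open Finset

/-! # The tiles around a window (rows, vertical line)

`OutT D τ x y c` : the tile `(x, y)` is not random when the line is at the position `τ`, and it is open iff
`c = true`, for every choice of the far labels.

Rows: `NoRun D τ y` : no run and no turn tile in the row `y` (`noRun_of_lt` : if the line is not at the left
end of the row; `noRun_of_eq` : if it is straight below and above). `outL` : tiles to the left of the union in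
such a row, `outL_RE`, `outL_RW` : tiles to the left of the turn tile of a run in the row, `outR` : the tile to
the right of the row, `outB`, `outB1`, `outT`, `outT1` : rows below and above the window.

Runs: `RE_iff`, `RW_iff` : the run of a row; `RE_below`, `RW_above`, `RB_above`, `RT_below` : the tiles on the
inner side are in the union and not on the line; `RE_out`, `RW_out`, `RB_out`, `RT_out` : outer side.
Turn tiles: `TA_mem`, `TB_mem` (state), `TA_left`, `TA_above`, `TB_left`, `TB_below`.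
Line: `Ln_left`, `Ln_right`. -/

namespace Pool.Agent.H54.W

open Pool.Agent.H75.Perc Pool.Agent.H75.TwoArm Pool.Agent.Q1 Pool.Agent.H33.Q1
open Pool.Agent.H75.Four Pool.Agent.H69.Q1

open Win

variable {D : Win} {τ : ℤ → ℤ} {x y : ℤ} {c : Bool}

/-- a tile which is not random and is open iff `c = true` -/
structure OutT (D : Win) (τ : ℤ → ℤ) (x y : ℤ) (c : Bool) : Prop where
  ne : ¬ D.InE τ x y
  z : D.InZ x y
  o : D.InO τ x y ↔ c = true

theorem OutT.not_mem (H : Pos D τ) (h : OutT D τ x y c) : lt (x, y) ∉ D.EJ τ := by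
  rw [mem_EJ H]; exact h.ne

theorem OutT.mem (h : OutT D τ x y c) (O : Out D) : lt (x, y) ∈ D.WJ τ O.Wo ↔ c = true := by
  unfold WJ
  rw [mem_union, Win.mem_WR, ← h.o]
  refine ⟨fun h2 => ?_, Or.inl⟩
  rcases h2 with h2 | h2
  · exact h2
  · exact absurd h.z (O.far _ _ h2)

/-- a tile of the outside which is not a turn tile -/
theorem OutT.of_fill (h1 : D.InZ x y) (h2 : ¬ D.InE τ x y) (h3 : ¬ D.TA τ x y) (h4 : ¬ D.TB τ x y) :
    OutT D τ x y (D.fill x y) := by
  refine ⟨h2, h1, ?_⟩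
  unfold InO
  constructor
  · rintro ⟨-, -, h | h | h⟩
    · exact absurd h.1 h3
    · exact absurd h.1 h4
    · exact h.2.2
  · intro h
    exact ⟨h1, h2, Or.inr (Or.inr ⟨h3, h4, h⟩)⟩

/-- the row `y` contains no run and no turn tile -/
def NoRun (D : Win) (τ : ℤ → ℤ) (y : ℤ) : Prop :=
  ¬ (0 < y ∧ τ (y - 1) < τ y) ∧ ¬ (y + 1 < D.h ∧ τ (y + 1) < τ y)

theorem noRun_of_lt (H : Pos D τ) (h0 : 0 ≤ y) (h1 : y < D.h) (h : D.a y < τ y) : NoRun D τ y := by
  constructor
  · rintro ⟨h2, h3⟩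
    have := H.up (y - 1) (by omega) (by omega) (by rwa [sub_add_cancel])
    rw [sub_add_cancel] at this
    omega
  · rintro ⟨h2, h3⟩
    have := H.dn y h0 h2 h3
    omega

theorem noRun_of_eq (h2 : 0 < y → τ (y - 1) = τ y) (h3 : y + 1 < D.h → τ (y + 1) = τ y) :
    NoRun D τ y := by
  constructor
  · rintro ⟨g1, g2⟩
    have := h2 g1
    omega
  · rintro ⟨g1, g2⟩
    have := h3 g1
    omega

/-- the three cases of a row -/
theorem row_cases (D : Win) (τ : ℤ → ℤ) (y : ℤ) :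
    NoRun D τ y ∨ (0 < y ∧ τ (y - 1) < τ y) ∨ (y + 1 < D.h ∧ τ (y + 1) < τ y) := by
  unfold NoRun
  tauto

theorem NoRun.not_RE (h : NoRun D τ y) : ¬ D.RE τ x y := by
  rintro ⟨h1, h2, h3, h4⟩
  exact h.1 ⟨h1, by omega⟩

theorem NoRun.not_RW (h : NoRun D τ y) : ¬ D.RW τ x y := by
  rintro ⟨h1, h2, h3, h4⟩
  exact h.2 ⟨h2, by omega⟩

theorem NoRun.not_TA (h : NoRun D τ y) (h1 : y < D.h) : ¬ D.TA τ x y := by
  rintro (⟨g1, g2, g3, g4⟩ | ⟨g1, g2⟩)
  · exact h.1 ⟨g1, g3⟩
  · omega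

theorem NoRun.not_TB (h : NoRun D τ y) (h0 : 0 ≤ y) : ¬ D.TB τ x y := by
  rintro (⟨g1, g2, g3, g4⟩ | ⟨g1, g2⟩)
  · exact h.2 ⟨g2, g3⟩
  · omega

/-! ### Runs in their rows -/

theorem rise_a (H : Pos D τ) (h0 : 0 < y) (h1 : y < D.h) (h : τ (y - 1) < τ y) :
    τ y = D.a y ∧ D.a (y - 1) < D.a y := by
  have k := H.up (y - 1) (by omega) (by omega) (by rwa [sub_add_cancel])
  rw [sub_add_cancel] at k
  have := H.lo (y - 1) (by omega) (by omega)
  omega

theorem drop_a (H : Pos D τ) (h0 : 0 ≤ y) (h1 : y + 1 < D.h) (h : τ (y + 1) < τ y) :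
    τ y = D.a y ∧ D.a (y + 1) < D.a y := by
  have k := H.dn y (by omega) (by omega) h
  have := H.lo (y + 1) (by omega) (by omega)
  omega

/-- the run of a row with a rise below it -/
theorem RE_iff (H : Pos D τ) (h0 : 0 < y) (h1 : y < D.h) (h : τ (y - 1) < τ y) :
    D.RE τ x y ↔ τ (y - 1) ≤ x ∧ x < D.a y - 1 := by
  rw [← (rise_a H h0 h1 h).1]
  exact ⟨fun g => ⟨g.2.2.1, g.2.2.2⟩, fun g => ⟨h0, h1, g.1, g.2⟩⟩

/-- the run of a row with a drop above it -/
theorem RW_iff (H : Pos D τ) (h0 : 0 ≤ y) (h1 : y + 1 < D.h) (h : τ (y + 1) < τ y) :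
    D.RW τ x y ↔ τ (y + 1) ≤ x ∧ x < D.a y - 1 := by
  rw [← (drop_a H h0 h1 h).1]
  exact ⟨fun g => ⟨g.2.2.1, g.2.2.2⟩, fun g => ⟨h0, h1, g.1, g.2⟩⟩

/-- no drop in the two rows above a rise -/
theorem no_drop (h0 : 0 < y) (h : D.a (y - 1) < D.a y) {z : ℤ} (h1 : y < z) (h2 : z < y + 4)
    (h3 : z < D.h) : D.a (z - 1) ≤ D.a z := by
  by_contra hc
  have := D.ud y z h0 h1 h3 h (by omega)
  omega

/-- no rise in the two rows below a drop -/
theorem no_rise (h0 : y + 1 < D.h) (h : D.a (y + 1) < D.a y) {z : ℤ} (h1 : z ≤ y)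
    (h2 : y < z + 3) (h3 : 0 < z) : D.a z ≤ D.a (z - 1) := by
  by_contra hc
  have := D.ud z (y + 1) h3 (by omega) h0 (by omega) (by rwa [add_sub_cancel_right])
  omega

theorem InU_of (h0 : 0 ≤ y) (h1 : y < D.h) (h2 : D.a y - 1 ≤ x) (h3 : x < D.w) : D.InU x y :=
  ⟨h0, h1, h2, h3⟩

theorem RE_below (H : Pos D τ) (h : D.RE τ x y) : D.InU x (y - 1) ∧ D.a (y - 1) ≤ x ∧
    ¬ D.Ln τ x (y - 1) := by
  obtain ⟨h1, h2, h3, h4⟩ := h
  have k2 := H.lo (y - 1) (by omega) (by omega)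
  have k3 := H.hi y (by omega) h2
  refine ⟨⟨by omega, by omega, by omega, by omega⟩, by omega, ?_⟩
  rintro ⟨-, -, g⟩
  omega

theorem RW_above (H : Pos D τ) (h : D.RW τ x y) : D.InU x (y + 1) ∧ D.a (y + 1) ≤ x ∧
    ¬ D.Ln τ x (y + 1) := by
  obtain ⟨h1, h2, h3, h4⟩ := h
  have k2 := H.lo (y + 1) (by omega) (by omega)
  have k3 := H.hi y (by omega) (by omega)
  refine ⟨⟨by omega, by omega, by omega, by omega⟩, by omega, ?_⟩
  rintro ⟨-, -, g⟩
  omega

theorem RB_above (H : Pos D τ) (h : D.RB τ x y) : y = -1 ∧ D.InU x 0 ∧ D.a 0 ≤ x ∧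
    ¬ D.Ln τ x 0 := by
  obtain ⟨h1, h2, h3⟩ := h
  have hh := D.hh
  have k2 := H.lo 0 (by omega) (by omega)
  refine ⟨h1, ⟨by omega, by omega, by omega, by omega⟩, by omega, ?_⟩
  rintro ⟨-, -, g⟩
  omega

theorem RT_below (H : Pos D τ) (h : D.RT τ x y) : y = D.h ∧ D.InU x (D.h - 1) ∧ D.a (D.h - 1) ≤ x ∧
    ¬ D.Ln τ x (D.h - 1) := by
  obtain ⟨h1, h2, h3⟩ := h
  have hh := D.hh
  have k2 := H.lo (D.h - 1) (by omega) (by omega)
  refine ⟨h1, ⟨by omega, by omega, by omega, by omega⟩, by omega, ?_⟩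
  rintro ⟨-, -, g⟩
  omega

/-! ### Colours -/

theorem fill_left (h0 : 0 ≤ y) (h1 : y < D.h) (h : x < D.a y) : D.fill x y = D.cl y := by
  unfold fill
  rw [if_neg (by omega), if_neg (by omega), if_pos h]

theorem fill_right (h0 : 0 ≤ y) (h1 : y < D.h) (h : D.a y ≤ x) : D.fill x y = D.cr y := by
  unfold fill
  rw [if_neg (by omega), if_neg (by omega), if_neg (by omega)]

theorem fill_bot (h : y < 0) : D.fill x y = D.cb := by unfold fill; rw [if_pos h]

theorem fill_top (h : D.h ≤ y) : D.fill x y = D.ct := by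
  have := D.hh
  unfold fill; rw [if_neg (by omega), if_pos h]

theorem InE_row (h0 : 0 ≤ y) (h1 : y < D.h) :
    D.InE τ x y ↔ (D.a y - 1 ≤ x ∧ x < D.w) ∨ D.RE τ x y ∨ D.RW τ x y := by
  unfold InE InU RB RT
  constructor
  · rintro (h | h | h | h | h)
    · exact Or.inl ⟨h.2.2.1, h.2.2.2⟩
    · exact Or.inr (Or.inl h)
    · exact Or.inr (Or.inr h)
    · exact absurd h.1 (by omega)
    · exact absurd h.1 (by omega)
  · rintro (h | h | h)
    · exact Or.inl ⟨h0, h1, h⟩
    · exact Or.inr (Or.inl h)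
    · exact Or.inr (Or.inr (Or.inl h))

/-- tiles to the left of the union in a row without a run -/
theorem outL (h0 : 0 ≤ y) (h1 : y < D.h) (hn : NoRun D τ y) (h2 : D.lo ≤ x + 2)
    (h3 : x < D.a y - 1) : OutT D τ x y (D.cl y) := by
  have haw := D.aw y h0 h1
  rw [← fill_left (x := x) h0 h1 (by omega)]
  refine OutT.of_fill ⟨h2, by omega, by omega, by omega⟩ ?_ (hn.not_TA h1) (hn.not_TB h0)
  rw [InE_row h0 h1]
  rintro (h | h | h)
  · omega
  · exact hn.not_RE h
  · exact hn.not_RW h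

/-- tiles to the left of the turn tile of a row with a rise below it -/
theorem outL_RE (H : Pos D τ) (h0 : 0 < y) (h1 : y < D.h) (h : τ (y - 1) < τ y)
    (h2 : D.lo ≤ x + 2) (h3 : x < τ (y - 1) - 1) : OutT D τ x y (D.cl y) := by
  obtain ⟨k1, k2⟩ := rise_a H h0 h1 h
  have haw := D.aw y h0.le h1
  rw [← fill_left (x := x) h0.le h1 (by omega)]
  have hd : ¬ (y + 1 < D.h ∧ τ (y + 1) < τ y) := fun g => up_dn H h0 g.1 h g.2
  refine OutT.of_fill ⟨h2, by omega, by omega, by omega⟩ ?_ ?_ ?_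
  · rw [InE_row h0.le h1]
    rintro (g | g | g)
    · omega
    · have := g.2.2.1; omega
    · exact hd ⟨g.2.1, by have := g.2.2; omega⟩
  · rintro (⟨g1, g2, g3, g4⟩ | ⟨g1, g2⟩) <;> omega
  · rintro (⟨g1, g2, g3, g4⟩ | ⟨g1, g2⟩)
    · exact hd ⟨g2, g3⟩
    · omega

/-- tiles to the left of the turn tile of a row with a drop above it -/
theorem outL_RW (H : Pos D τ) (h0 : 0 ≤ y) (h1 : y + 1 < D.h) (h : τ (y + 1) < τ y)
    (h2 : D.lo ≤ x + 2) (h3 : x < τ (y + 1) - 1) : OutT D τ x y (D.cl y) := by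
  obtain ⟨k1, k2⟩ := drop_a H h0 h1 h
  have haw := D.aw y h0 (by omega)
  rw [← fill_left (x := x) h0 (by omega) (by omega)]
  have hd : ¬ (0 < y ∧ τ (y - 1) < τ y) := fun g => up_dn H g.1 h1 g.2 h
  refine OutT.of_fill ⟨h2, by omega, by omega, by omega⟩ ?_ ?_ ?_
  · rw [InE_row h0 (by omega)]
    rintro (g | g | g)
    · omega
    · exact hd ⟨g.1, by have := g.2.2; omega⟩
    · have := g.2.2.1; omega
  · rintro (⟨g1, g2, g3, g4⟩ | ⟨g1, g2⟩)
    · exact hd ⟨g1, g3⟩
    · omega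
  · rintro (⟨g1, g2, g3, g4⟩ | ⟨g1, g2⟩) <;> omega

/-- the tile to the right of a row -/
theorem outR (H : Pos D τ) (h0 : 0 ≤ y) (h1 : y < D.h) : OutT D τ D.w y (D.cr y) := by
  have haw := D.aw y h0 h1
  have hlo := D.hlo y h0 h1
  rw [← fill_right (x := D.w) h0 h1 (by omega)]
  have hi := H.hi y h0 h1
  refine OutT.of_fill ⟨by omega, le_rfl, by omega, by omega⟩ ?_ ?_ ?_
  · rw [InE_row h0 h1]
    rintro (g | g | g)
    · omega
    · have := g.2.2.2; omega
    · have := g.2.2.2; omega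
  · rintro (⟨g1, g2, g3, g4⟩ | ⟨g1, g2⟩)
    · omega
    · omega
  · rintro (⟨g1, g2, g3, g4⟩ | ⟨g1, g2⟩)
    · omega
    · omega

theorem lo_w (D : Win) : D.lo + 2 ≤ D.w := by
  have hh := D.hh
  have h1 := D.hlo 0 le_rfl (by omega)
  have h2 := D.aw 0 le_rfl (by omega)
  omega

/-- the second row below the window -/
theorem outB (h1 : D.lo ≤ x + 2) (h2 : x ≤ D.w) : OutT D τ x (-2) D.cb := by
  have hh := D.hh
  rw [← fill_bot (D := D) (x := x) (y := -2) (by omega)]
  refine OutT.of_fill ⟨h1, h2, by omega, by omega⟩ ?_ ?_ ?_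
  · rintro (g | g | g | g | g)
    · have := g.1; omega
    · have := g.1; omega
    · have := g.1; omega
    · have := g.1; omega
    · have := g.1; omega
  · rintro (⟨g1, g2, g3, g4⟩ | ⟨g1, g2⟩) <;> omega
  · rintro (⟨g1, g2, g3, g4⟩ | ⟨g1, g2⟩) <;> omega

/-- the row below the window outside of the run and the turn tile -/
theorem outB1 (H : Pos D τ) (h1 : D.lo ≤ x + 2) (h2 : x ≤ D.w) (h3 : x < τ 0 - 1 ∨ x = D.w) :
    OutT D τ x (-1) D.cb := by
  have hh := D.hh
  have hi := H.hi 0 le_rfl (by omega)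
  rw [← fill_bot (D := D) (x := x) (y := -1) (by omega)]
  refine OutT.of_fill ⟨h1, h2, by omega, by omega⟩ ?_ ?_ ?_
  · rintro (g | g | g | g | g)
    · have := g.1; omega
    · have := g.1; omega
    · have := g.1; omega
    · have := g.2; omega
    · have := g.1; omega
  · rintro (⟨g1, g2, g3, g4⟩ | ⟨g1, g2⟩) <;> omega
  · rintro (⟨g1, g2, g3, g4⟩ | ⟨g1, g2⟩) <;> omega

/-- the second row above the window -/
theorem outT (h1 : D.lo ≤ x + 2) (h2 : x ≤ D.w) : OutT D τ x (D.h + 1) D.ct := by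
  have hh := D.hh
  rw [← fill_top (D := D) (x := x) (y := D.h + 1) (by omega)]
  refine OutT.of_fill ⟨h1, h2, by omega, by omega⟩ ?_ ?_ ?_
  · rintro (g | g | g | g | g)
    · have := g.2.1; omega
    · have := g.2.1; omega
    · have := g.2.1; omega
    · have := g.1; omega
    · have := g.1; omega
  · rintro (⟨g1, g2, g3, g4⟩ | ⟨g1, g2⟩) <;> omega
  · rintro (⟨g1, g2, g3, g4⟩ | ⟨g1, g2⟩) <;> omega

/-- the row above the window outside of the run and the turn tile -/
theorem outT1 (H : Pos D τ) (h1 : D.lo ≤ x + 2) (h2 : x ≤ D.w) (h3 : x < τ (D.h - 1) - 1 ∨ x = D.w) :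
    OutT D τ x D.h D.ct := by
  have hh := D.hh
  have hi := H.hi (D.h - 1) (by omega) (by omega)
  rw [← fill_top (D := D) (x := x) (y := D.h) le_rfl]
  refine OutT.of_fill ⟨h1, h2, by omega, by omega⟩ ?_ ?_ ?_
  · rintro (g | g | g | g | g)
    · have := g.2.1; omega
    · have := g.2.1; omega
    · have := g.2.1; omega
    · have := g.1; omega
    · have := g.2; omega
  · rintro (⟨g1, g2, g3, g4⟩ | ⟨g1, g2⟩) <;> omega
  · rintro (⟨g1, g2, g3, g4⟩ | ⟨g1, g2⟩) <;> omega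

/-! ### Outer sides of the runs -/

/-- the tile above a run to the east (or above its turn tile) -/
theorem RE_out (H : Pos D τ) (h0 : 0 < y) (h1 : y < D.h) (h : τ (y - 1) < τ y)
    (h2 : D.lo ≤ x + 2) (h3 : x < D.a y - 1) : OutT D τ x (y + 1) (D.cl y) ∧ y + 1 < D.h := by
  obtain ⟨k1, k2⟩ := rise_a H h0 h1 h
  have hy : y + 4 ≤ D.h := (D.fe y h0 h1 (by omega)).2
  have e : D.cl y = D.cl (y + 1) := by
    have := D.cup (y - 1) (by omega) (by omega) (by rwa [sub_add_cancel])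
    rwa [sub_add_cancel, show y - 1 + 2 = y + 1 by ring] at this
  have n1 := no_drop h0 k2 (z := y + 1) (by omega) (by omega) (by omega)
  rw [add_sub_cancel_right] at n1
  have n2 := no_drop h0 k2 (z := y + 2) (by omega) (by omega) (by omega)
  rw [show y + 2 - 1 = y + 1 by ring] at n2
  have l1 := H.lo (y + 1) (by omega) (by omega)
  have haw := D.aw (y + 1) (by omega) (by omega)
  refine ⟨?_, by omega⟩
  rw [e, ← fill_left (x := x) (y := y + 1) (by omega) (by omega) (by omega)]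
  refine OutT.of_fill ⟨h2, by omega, by omega, by omega⟩ ?_ ?_ ?_
  · rw [InE_row (by omega) (by omega)]
    rintro (g | g | g)
    · omega
    · have := g.2.2.1
      rw [add_sub_cancel_right] at this
      omega
    · have := (g.pos H).2
      rw [show y + 1 + 1 = y + 2 by ring] at this
      omega
  · rintro (⟨g1, g2, g3, g4⟩ | ⟨g1, g2⟩)
    · rw [add_sub_cancel_right] at g4
      omega
    · omega
  · rintro (⟨g1, g2, g3, g4⟩ | ⟨g1, g2⟩)
    · have := drop_a H (by omega) g2 g3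
      rw [show y + 1 + 1 = y + 2 by ring] at this
      omega
    · omega

/-- the tile below a run to the west (or below its turn tile) -/
theorem RW_out (H : Pos D τ) (h0 : 0 ≤ y) (h1 : y + 1 < D.h) (h : τ (y + 1) < τ y)
    (h2 : D.lo ≤ x + 2) (h3 : x < D.a y - 1) : OutT D τ x (y - 1) (D.cl y) ∧ 0 ≤ y - 1 := by
  obtain ⟨k1, k2⟩ := drop_a H h0 h1 h
  have hy : 4 ≤ y + 1 := (D.fe (y + 1) (by omega) h1 (by rw [add_sub_cancel_right]; omega)).1
  have e : D.cl y = D.cl (y - 1) := (D.cdn y (by omega) h1 k2).symm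
  have n1 := no_rise h1 k2 (z := y) le_rfl (by omega) (by omega)
  have n2 := no_rise h1 k2 (z := y - 1) (by omega) (by omega) (by omega)
  have l1 := H.lo (y - 1) (by omega) (by omega)
  have haw := D.aw (y - 1) (by omega) (by omega)
  refine ⟨?_, by omega⟩
  rw [e, ← fill_left (x := x) (y := y - 1) (by omega) (by omega) (by omega)]
  refine OutT.of_fill ⟨h2, by omega, by omega, by omega⟩ ?_ ?_ ?_
  · rw [InE_row (by omega) (by omega)]
    rintro (g | g | g)
    · omega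
    · have := (g.pos H).2
      omega
    · have := g.2.2.1
      rw [sub_add_cancel] at this
      omega
  · rintro (⟨g1, g2, g3, g4⟩ | ⟨g1, g2⟩)
    · have := rise_a H g1 g2 g3
      omega
    · omega
  · rintro (⟨g1, g2, g3, g4⟩ | ⟨g1, g2⟩)
    · rw [sub_add_cancel] at g4
      omega
    · omega

/-- the tile below the run below the window -/
theorem RB_out (h1 : D.lo ≤ x + 2) (h2 : x ≤ D.w) : OutT D τ x (-1 - 1) D.cb := outB h1 h2

/-- the tile above the run above the window -/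
theorem RT_out (h1 : D.lo ≤ x + 2) (h2 : x ≤ D.w) : OutT D τ x (D.h + 1) D.ct := outT h1 h2

/-! ### Turn tiles -/

theorem InO_TA (H : Pos D τ) (h : D.TA τ x y) : D.InO τ x y ↔ (x + y) % 2 = 0 := by
  have hz := h.z H
  unfold InO
  constructor
  · rintro ⟨-, -, g | g | g⟩
    · exact g.2
    · exact absurd g.1 (h.not_TB H)
    · exact absurd h g.1
  · intro g
    refine ⟨⟨by omega, by omega, by omega, by omega⟩, h.not_InE H, Or.inl ⟨h, g⟩⟩

theorem InO_TB (H : Pos D τ) (h : D.TB τ x y) : D.InO τ x y ↔ (x + y) % 2 = 1 := by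
  have hz := h.z H
  unfold InO
  constructor
  · rintro ⟨-, -, g | g | g⟩
    · exact absurd h (g.1.not_TB H)
    · exact g.2
    · exact absurd h g.2.1
  · intro g
    refine ⟨⟨by omega, by omega, by omega, by omega⟩, h.not_InE H, Or.inr (Or.inl ⟨h, g⟩)⟩

theorem TA.nm (H : Pos D τ) (h : D.TA τ x y) : lt (x, y) ∉ D.EJ τ := by
  rw [mem_EJ H]; exact h.not_InE H

theorem TB.nm (H : Pos D τ) (h : D.TB τ x y) : lt (x, y) ∉ D.EJ τ := by
  rw [mem_EJ H]; exact h.not_InE H

/-- the turn tile {W-N, S-E} is open iff `x + y` is even -/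
theorem TA_mem (H : Pos D τ) (h : D.TA τ x y) (O : Out D) :
    lt (x, y) ∈ D.WJ τ O.Wo ↔ (x + y) % 2 = 0 := by
  have hz := h.z H
  unfold WJ
  rw [mem_union, Win.mem_WR, InO_TA H h]
  refine ⟨fun h2 => ?_, Or.inl⟩
  rcases h2 with h2 | h2
  · exact h2
  · exact absurd ⟨by omega, by omega, by omega, by omega⟩ (O.far _ _ h2)

/-- the turn tile {W-S, N-E} is open iff `x + y` is odd -/
theorem TB_mem (H : Pos D τ) (h : D.TB τ x y) (O : Out D) :
    lt (x, y) ∈ D.WJ τ O.Wo ↔ (x + y) % 2 = 1 := by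
  have hz := h.z H
  unfold WJ
  rw [mem_union, Win.mem_WR, InO_TB H h]
  refine ⟨fun h2 => ?_, Or.inl⟩
  rcases h2 with h2 | h2
  · exact h2
  · exact absurd ⟨by omega, by omega, by omega, by omega⟩ (O.far _ _ h2)

/-! ### Tiles of the line -/

/-- the tile to the right of a tile of the line is in the union and not shifted -/
theorem Ln_right (H : Pos D τ) (h0 : 0 ≤ y) (h1 : y < D.h) (h : τ y < D.w) :
    D.InU (τ y) y ∧ D.a y ≤ τ y ∧ ¬ D.Ln τ (τ y) y := by
  have := H.lo y h0 h1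
  refine ⟨⟨h0, h1, by omega, h⟩, this, ?_⟩
  rintro ⟨-, -, g⟩
  omega

theorem Ln_right_out (H : Pos D τ) (h0 : 0 ≤ y) (h1 : y < D.h) (h : τ y = D.w) :
    OutT D τ (τ y) y (D.cr y) := by
  rw [h]; exact outR H h0 h1

/-- the tile to the left of a tile of the line which is not at the left end of the row -/
theorem Ln_left (H : Pos D τ) (h0 : 0 ≤ y) (h1 : y < D.h) (h : D.a y < τ y) :
    D.InU (τ y - 2) y ∧ τ y - 2 < D.w ∧ ¬ D.Ln τ (τ y - 2) y := by
  have := H.hi y h0 h1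
  refine ⟨⟨h0, h1, by omega, by omega⟩, by omega, ?_⟩
  rintro ⟨-, -, g⟩
  omega

/-- the tile to the left of a tile of the line at the left end of a row without a run -/
theorem Ln_left_out (h0 : 0 ≤ y) (h1 : y < D.h) (hn : NoRun D τ y) (h : τ y = D.a y) :
    OutT D τ (τ y - 2) y (D.cl y) := by
  have := D.hlo y h0 h1
  exact outL h0 h1 hn (by omega) (by omega)

end Pool.Agent.H54.W
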