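import Mathlib
import Pool.Agent.H29.W.RoomV
import Pool.Agent.H20.W.TopS
import Pool.Agent.H95.W.SeqA

set_option autoImplicit false
set_option linter.constructorNameAsVariable false
open Finset

/-! # The room side of helper20's top

`partner_of` : every name has a partner in the room graph. `boxIn_WZ` : the natural outside of helper31 in a box
satisfies `BoxIn`. `ft_nz` : **`FT` is the natural value `Nz` in the box**. `stFT` : helper20's `StFT`. -/

namespace Pool.Agent.H54.W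

open Pool.Agent.H75.Perc Pool.Agent.H75.TwoArm Pool.Agent.Q1 Pool.Agent.H33.Q1
open Pool.Agent.H13.W
open Pool.Agent.H21.W
open Pool.Agent.H72.W.N (EN mem_EN natc PT)
open Pool.Agent.H14.W (EPn)
open Pool.Agent.H20.W (Mk nm Th GR GT FT crz)
open Pool.Agent.H62.W (Phi PhiG ZS mem_ZS zone_Phi phiG_le)
open Pool.Agent.H31.W (EZ WZ Nz mem_EZ mem_WZ)
open Pool.Agent.H20.W (nS Zz Ph Dz bX1 bX2 bY1 bY2 StFT OmC LowC)
open Pool.Agent.H95.W (Gd gd_K)
open Pool.Agent.Q1.M4 (lat)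

variable {C : CD} {n : ℤ} {c0 : Bool} {x0 r X1 X2 Y1 Y2 : ℤ} {w ω : Finset (ℤ × ℤ)}
  {cr : ℤ → Bool}

/-- **Every name has a partner in the room graph.** -/
theorem partner_of (hn : 8 ≤ n) (he : n % 2 = 0) (hc : Pool.Agent.H29.W.CrOk cr c0 r) (hr0 : 0 < r)
    (hr1 : r + 1 < n * C.H) (hx0 : n * C.A (r / n) ≤ x0) (hx1 : x0 ≤ n * C.W) :
    Partner C n cr c0 x0 r := by
  intro ω hω a ha
  have hA := Pool.Agent.H29.W.act_room hn he hc hr0 hr1 hx0 hx1 hω
  rcases ok_cases ha with rfl | ⟨k, hk, rfl⟩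
  · obtain ⟨b, hb, hne, h1⟩ := hA.pt none trivial
    cases b with
    | none => exact absurd rfl hne
    | some l =>
      refine ⟨neK C l, ok_neK hb, neK_ne_z, ?_⟩
      rw [pe_neK hb]
      exact h1
  · obtain ⟨b, hb, hne, h1⟩ := hA.pt (some k) hk
    cases b with
    | none =>
      refine ⟨NE.z, trivial, fun h => neK_ne_z h.symm, ?_⟩
      rw [pe_neK hk]
      exact h1
    | some l =>
      refine ⟨neK C l, ok_neK hb, fun h => hne ?_, ?_⟩
      · rw [neK_inj hb.1 hb.2.1 hk.1 hk.2.1 h]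
      · rw [pe_neK hk, pe_neK hb]
        exact h1

/-- rows of tiles and of cells: a tile of the room -/
lemma epn_win (he : n % 2 = 0) (h8 : 8 ≤ n) {x y : ℤ} :
    EPn (C.win n he h8 cr) ∅ x y ↔ 0 ≤ y ∧ y < n * C.H ∧ C.wa n y ≤ x ∧ x < n * C.W := by
  unfold EPn PT
  constructor
  · rintro (h | ⟨k, hk, -⟩)
    · exact h
    · exact absurd hk (Finset.notMem_empty k)
  · exact fun h => Or.inl h

lemma fill_win (he : n % 2 = 0) (h8 : 8 ≤ n) {x y : ℤ} (h : ¬ (C.Nt n y ∧ x = n * C.A (y / n) - 1)) :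
    (C.win n he h8 cr).fill x y = fillC C n cr x y := by
  unfold Win.fill fillC
  have ew : (C.win n he h8 cr).cb = C.CB := rfl
  have eh : (C.win n he h8 cr).h = n * C.H := rfl
  have et : (C.win n he h8 cr).ct = C.CT := rfl
  have ea : (C.win n he h8 cr).a y = C.wa n y := rfl
  have el : (C.win n he h8 cr).cl y = C.CL (y / n) := rfl
  have er : (C.win n he h8 cr).cr y = cr y := rfl
  rw [ew, eh, et, ea, el, er]
  by_cases h1 : y < 0
  · rw [if_pos h1, if_pos h1]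
  rw [if_neg h1, if_neg h1]
  by_cases h2 : n * C.H ≤ y
  · rw [if_pos h2, if_pos h2]
  rw [if_neg h2, if_neg h2]
  by_cases h3 : x < n * C.A (y / n)
  · rw [if_pos h3]
    by_cases h4 : x < C.wa n y
    · rw [if_pos h4]
    · exfalso
      apply h
      rcases C.wa_cases n y with ⟨c, e⟩ | ⟨c, e⟩
      · exact ⟨c, by omega⟩
      · omega
  · rw [if_neg h3, if_neg]
    rcases C.wa_cases n y with ⟨c, e⟩ | ⟨c, e⟩ <;> omega

/-- **The natural outside of the window in the box.** -/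
theorem boxIn_WZ (he : n % 2 = 0) (h8 : 8 ≤ n) (hc : Pool.Agent.H29.W.CrOk cr c0 r)
    (x1 : X1 + 2 ≤ n * C.LO) (x2 : n * C.W + 1 < X2) (y1 : Y1 ≤ -2) (y2 : n * C.H + 1 < Y2)
    (zin : RP C n x0 r) (hr0 : 0 < r) (hr1 : r + 1 < n * C.H) :
    BoxIn C n cr c0 x0 r X1 X2 Y1 Y2 (WZ (C.win n he h8 cr) false ∅ (ZS X1 X2 Y1 Y2 x0 r)) where
  hn := h8
  he := he
  x1 := x1
  x2 := x2
  y1 := y1
  y2 := y2
  zin := zin
  r0 := hr0
  r1 := hr1
  cr0 := fun y _ h1 => hc.1 y h1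
  cr1 := fun y h1 _ => hc.2 y h1
  room := fun x y h => by
    rw [mem_WZ]
    rintro ⟨-, h2, -⟩
    apply h2
    rw [Pool.Agent.H72.W.N.sh_false, add_zero, epn_win]
    obtain ⟨k1, k2, k3, k4⟩ := h
    refine ⟨k1, k2, ?_, k4⟩
    rcases C.wa_cases n y with ⟨c, e⟩ | ⟨c, e⟩ <;> omega
  col := fun x y h1 h2 h3 h4 h5 h6 => by
    rw [mem_WZ, mem_ZS, Pool.Agent.H72.W.N.sh_false, add_zero, epn_win]
    by_cases hN : 0 ≤ y ∧ y < n * C.H ∧ C.Nt n y ∧ x = n * C.A (y / n) - 1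
    · obtain ⟨n1, n2, n3, n4⟩ := hN
      have hr := CD.row_of (C := C) (by omega) n1 n2
      have h7 := C.AW _ hr.1 hr.2
      have h8' := CD.mul_lt (n := n) (by omega) h7
      constructor
      · rintro ⟨-, k, -⟩
        exfalso
        apply k
        refine ⟨n1, n2, ?_, by omega⟩
        rcases C.wa_cases n y with ⟨c, e⟩ | ⟨c, e⟩
        · omega
        · exact absurd n3 c
      · intro k
        exfalso
        unfold fillC at k
        rw [if_neg (by omega), if_neg (by omega), if_pos (by omega), n3.1] at k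
        exact absurd k (by simp)
    · have hE : ¬ (0 ≤ y ∧ y < n * C.H ∧ C.wa n y ≤ x ∧ x < n * C.W) := by
        rintro ⟨k1, k2, k3, k4⟩
        rcases C.wa_cases n y with ⟨c, e⟩ | ⟨c, e⟩
        · by_cases hx : x = n * C.A (y / n) - 1
          · exact hN ⟨k1, k2, c, hx⟩
          · exact h5 ⟨k1, k2, by omega, k4⟩
        · exact h5 ⟨k1, k2, by omega, k4⟩
      have hf : (C.win n he h8 cr).fill x y = fillC C n cr x y ∨ ¬ (0 ≤ y ∧ y < n * C.H) := by
        by_cases hy : 0 ≤ y ∧ y < n * C.H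
        · exact Or.inl (fill_win he h8 fun k => hN ⟨hy.1, hy.2, k.1, k.2⟩)
        · exact Or.inr hy
      have hf' : natc (C.win n he h8 cr) false x y = fillC C n cr x y := by
        unfold natc
        rcases hf with hf | hf
        · exact hf
        · unfold Win.fill fillC
          have eh : (C.win n he h8 cr).h = n * C.H := rfl
          rw [eh]
          by_cases hy : y < 0
          · rw [if_pos hy, if_pos hy]; rfl
          · rw [if_neg hy, if_neg hy, if_pos (by omega), if_pos (by omega)]; rfl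
      rw [hf']
      tauto

/-- **`FT` is the natural value in the box.** -/
theorem ft_nz (he : n % 2 = 0) (h8 : 8 ≤ n) (x1 : X1 + 2 ≤ n * C.LO) (x2 : n * C.W + 1 < X2) (y1 : Y1 ≤ -2)
    (y2 : n * C.H + 1 < Y2) (zin : RP C n x0 r) (hr0 : 0 < r) (hr1 : r + 1 < n * C.H) (θ : Th C c0) :
    Nz (Phi C n c0 x0 r X1 X2 Y1 Y2 (PsT θ)) (C.win n he h8 (crz c0 r)) false ∅ (ZS X1 X2 Y1 Y2 x0 r) =
      FT θ n (x0, r) := by
  have hc := Pool.Agent.H29.W.crOk_crz c0 r
  have hB := boxIn_WZ (C := C) he h8 hc x1 x2 y1 y2 zin hr0 hr1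
  have hP := partner_of (C := C) h8 he hc hr0 hr1 zin.2.2.1 zin.2.2.2.le
  rw [← nat_FT (cr := crz c0 r) he h8 hB hP θ]
  set D := C.win n he h8 (crz c0 r) with hD
  set Z := ZS X1 X2 Y1 Y2 x0 r with hZ
  have hsub : EZ D false ∅ Z ⊆ EN D false := by
    intro e he'
    obtain ⟨x, y, rfl⟩ := Pool.Agent.H74.R45.exists_lt
      (Pool.Agent.H62.W.odd_ZS (Pool.Agent.H31.W.EZ_sub he'))
    rw [mem_EZ] at he'
    rw [mem_EN]
    rcases he'.2 with h | ⟨k, hk, -⟩
    · exact h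
    · exact absurd hk (Finset.notMem_empty k)
  have hu : EN D false = EZ D false ∅ Z ∪ (EN D false \ EZ D false ∅ Z) := by
    rw [union_sdiff_of_subset hsub]
  unfold Nz
  rw [hu, Ec_drop disjoint_sdiff]
  intro e he' ω hω hne
  rw [mem_sdiff] at he'
  refine (zone_Phi C n c0).congr ?_
  have heZ : e ∉ Z := by
    intro h
    obtain ⟨x, y, rfl⟩ := Pool.Agent.H74.R45.exists_lt (Pool.Agent.H62.W.odd_ZS h)
    apply he'.2
    rw [mem_EZ]
    refine ⟨h, Or.inl ?_⟩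
    exact mem_EN.1 he'.1
  ext t
  rw [mem_inter, mem_inter, mem_union, mem_union, mem_insert]
  constructor
  · rintro ⟨(rfl | h1) | h1, h2⟩
    · exact absurd h2 heZ
    · exact ⟨Or.inl h1, h2⟩
    · exact ⟨Or.inr h1, h2⟩
  · rintro ⟨h1 | h1, h2⟩
    · exact ⟨Or.inl (Or.inr h1), h2⟩
    · exact ⟨Or.inr h1, h2⟩

/-- **The value of the room is the natural value of the window.** -/
theorem ft_nS {v : ℤ × ℤ} (he : n % 2 = 0) (h8 : 8 ≤ n) (zin : RP C n v.1 v.2) (hr0 : 0 < v.2)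
    (hr1 : v.2 + 1 < n * C.H) (θ : Th C c0) :
    nS C n c0 v he h8 (PsT θ) false ∅ = FT θ n v := by
  have key := ft_nz (X1 := bX1 C n) (X2 := bX2 C n c0 v.2) (Y1 := bY1 n) (Y2 := bY2 C n) (x0 := v.1) (r := v.2)
    he h8 (by unfold bX1; omega) (by unfold bX2; split_ifs <;> omega) (by unfold bY1; omega)
    (by unfold bY2; omega) zin hr0 hr1 θ
  rw [← key]
  unfold nS
  rw [Finset.image_empty]
  rfl

/-- **helper20's `StFT`.** -/
theorem stFT : StFT := by
  intro C _ c0 θ K hK hKc ε hε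
  obtain ⟨δ, hδ, n0, hg⟩ := gd_K C c0 hK hKc
  refine ⟨n0, fun m hm he h8 v hv => ?_⟩
  have e1 : (((2 * m : ℕ) : ℝ) : ℂ) = (((2 * (m : ℤ) : ℤ) : ℝ) : ℂ) := by push_cast; rfl
  rw [e1] at hv
  obtain ⟨g, -⟩ := hg (2 * (m : ℤ)) (by omega) he h8 v hv
  have m4 := g.m4
  have hr0 := g.rlo
  have hr1 := g.rhi
  have k := g.dp false (v.1 - 1) v.2 (by omega) (by omega) (by omega) (by omega)
  have k' := g.dp false v.1 v.2 (by omega) (by omega) (by omega) (by omega)
  have zin : RP C (2 * (m : ℤ)) v.1 v.2 := by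
    obtain ⟨k1, k2, k3, k4⟩ := k
    obtain ⟨l1, l2, l3, l4⟩ := k'
    rw [Pool.Agent.H72.W.N.sh_false] at k3 k4 l3 l4
    have ea : (C.win (2 * (m : ℤ)) he h8 (crz c0 v.2)).a v.2 = C.wa (2 * (m : ℤ)) v.2 := rfl
    have ew : (C.win (2 * (m : ℤ)) he h8 (crz c0 v.2)).w = 2 * (m : ℤ) * C.W := rfl
    have eh : (C.win (2 * (m : ℤ)) he h8 (crz c0 v.2)).h = 2 * (m : ℤ) * C.H := rfl
    rw [ea] at k3 l3
    rw [ew] at k4 l4
    rw [eh] at k2 l2
    refine ⟨l1, l2, ?_, by omega⟩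
    rcases C.wa_cases (2 * (m : ℤ)) v.2 with ⟨c, e⟩ | ⟨c, e⟩ <;> omega
  rw [ft_nS he h8 zin (by omega) (by omega) θ, sub_self, norm_zero]
  exact hε.le

end Pool.Agent.H54.W
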